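import Pool.Agent.W423.MG.Alg2
import Pool.Agent.W462.SG.G2

set_option autoImplicit false

/-! The algebraic relation. -/

namespace Pool.Agent.W423.MG

open MvPolynomial Pool.Agent.H628R4.TZ Pool.Agent.W425.SM Pool.Agent.W525.SM
open Pool.Agent.W596.SL (reindex shift_ex fq_zero)
open Pool.Agent.W462.SG (ym ym_apply mu cast_eval)
open Pool.Agent.W423.MV (mh mh_apply mw elw eval_elw ddw eval_ddw)
open Pool.Agent.W372.SG (ed ed_apply)

variable {r N P : ℕ}

/-- the indices of the tuple `(g_0, …, g_P, x_1, …, x_N)` -/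
abbrev Ix (P N : ℕ) := Fin (P+1) ⊕ Fin N

/-- the sum of the variables of the group `k` -/
noncomputable def sgm (g : Fin r → Fin (P+1)) (k : Fin (P+1)) : MvPolynomial (Fin r) ℂ :=
  gs g X k

/-- the substitution for the variables -/
noncomputable def sbt (g : Fin r → Fin (P+1)) (m : Fin N → ℕ) :
    Ix P N → MvPolynomial (Fin r) ℂ :=
  Sum.elim (sgm g) (fun i => C (m i : ℂ) + sgm g 0)

/-- the substitution -/
noncomputable def btm (g : Fin r → Fin (P+1)) (m : Fin N → ℕ) :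
    MvPolynomial (Ix P N) ℂ →ₐ[ℂ] MvPolynomial (Fin r) ℂ := aeval (sbt g m)

/-- the point `(s, m + s_0)` -/
def pN (s : Fin (P+1) → ℕ) (m : Fin N → ℕ) : Ix P N → ℕ := Sum.elim s (fun i => m i + s 0)

/-- the point `(s, m + s_0)` -/
def pS (s : Fin (P+1) → ℂ) (m : Fin N → ℂ) : Ix P N → ℂ := Sum.elim s (fun i => m i + s 0)

lemma eval_aev {ι κ : Type} (x : κ → ℂ) (f : ι → MvPolynomial κ ℂ) (b : MvPolynomial ι ℂ) :
    eval x (aeval f b) = eval (fun i => eval x (f i)) b := by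
  induction b using MvPolynomial.induction_on with
  | C a => simp
  | add p q hp hq => rw [map_add, map_add, map_add, hp, hq]
  | mul_X p i hp => rw [map_mul, map_mul, map_mul, hp, aeval_X, eval_X]

lemma eval_sgm (g : Fin r → Fin (P+1)) (x : Fin r → ℂ) (k : Fin (P+1)) :
    eval x (sgm g k) = gs g x k := by
  unfold sgm gs
  rw [map_sum]
  refine Finset.sum_congr rfl fun j _ => ?_
  split_ifs <;> simp

lemma eval_sbt (g : Fin r → Fin (P+1)) (m : Fin N → ℕ) (x : Fin r → ℂ) (i : Ix P N) :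
    eval x (sbt g m i) = pS (gs g x) (fun i => (m i : ℂ)) i := by
  rcases i with k | i
  · exact eval_sgm g x k
  · simp only [sbt, pS, Sum.elim_inr, map_add, eval_C, eval_sgm]

lemma eval_btm (g : Fin r → Fin (P+1)) (m : Fin N → ℕ) (x : Fin r → ℂ)
    (b : MvPolynomial (Ix P N) ℂ) :
    eval x (btm g m b) = eval (pS (gs g x) (fun i => (m i : ℂ))) b := by
  unfold btm
  rw [eval_aev]
  congr 2
  funext i
  exact eval_sbt g m x i

lemma gs_cast (g : Fin r → Fin (P+1)) (u : Fin r → ℕ) (k : Fin (P+1)) :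
    gs g (fun j => (u j : ℂ)) k = ((gs g u k : ℕ) : ℂ) := by
  unfold gs
  push_cast
  rfl

lemma pS_cast (g : Fin r → Fin (P+1)) (u : Fin r → ℕ) (m : Fin N → ℕ) (i : Ix P N) :
    pS (gs g (fun j => (u j : ℂ))) (fun i => (m i : ℂ)) i = ((pN (gs g u) m i : ℕ) : ℂ) := by
  rcases i with k | i
  · exact gs_cast g u k
  · simp only [pS, pN, Sum.elim_inr, gs_cast]
    push_cast
    rfl

/-- The functional equation over `ℚ[y]`, coefficient by coefficient. -/
def GenEqG (g : Fin r → Fin (P+1)) (e : Fin r → Fin N → ℕ) (b : MvPolynomial (Ix P N) ℚ) : Prop :=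
  ∃ (D0 : MvPolynomial (Fin r) ℚ) (D : Finset (Fin N → ℤ)) (T : Finset (Ix P N →₀ ℕ))
    (Q : (Ix P N →₀ ℕ) → (Fin N → ℤ) → MvPolynomial (Fin N) (MvPolynomial (Fin r) ℚ)),
    D0 ≠ 0 ∧ ∀ (m : Fin N → ℕ) (s : Fin (P+1) → ℕ) (ex : Fin N →₀ ℕ),
      C (eval (fun i => ((pN s m i : ℕ) : ℚ)) b) * (D0 * coeff ex (gprod g e m s)) =
        ∑ β ∈ T, C (∏ i, ((pN s m i : ℕ) : ℚ) ^ β i) * ∑ δ ∈ D,
          if ∀ i, 0 ≤ (ex i : ℤ) + δ i then
          eval (fun i => C ((((ex i : ℤ) + δ i : ℤ)) : ℚ)) (Q β δ) *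
          C (∏ i, ((((ex i : ℤ) + δ i).toNat.descFactorial (δ i).toNat : ℕ) : ℚ)) *
          coeff (ed ex δ) (gprod g e m (fun k => s k + 1)) else 0

/-! ### Clearing factorials -/

lemma clearG (s : Fin (P+1) → ℕ) (u : Fin r → ℕ) (M : ℕ) (c : Fin r → ℤ)
    (hM : ∀ j, c j ≤ M) (hpos : ∀ j, 0 ≤ (u j : ℤ) + c j) :
    (∏ j, ((u j + M).factorial : ℂ)) *
        ((mlt s (fun j => ((u j : ℤ) + c j).toNat) : ℚ) : ℂ) =
      (∏ k, ((s k).factorial : ℂ)) *
        ∏ j, eval (fun m => (u m : ℂ)) (ff M j (c j) * fq M j (c j)) := by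
  set γ : Fin r → ℕ := fun j => ((u j : ℤ) + c j).toNat with hγ
  have h18 : (∏ j, ((u j + M).factorial : ℂ)) = (∏ j, ((γ j).factorial : ℂ)) *
      ∏ j, eval (fun m => (u m : ℂ)) (ff M j (c j) * fq M j (c j)) := by
    rw [← Finset.prod_mul_distrib]
    exact (Finset.prod_congr rfl fun j _ => eval_fc u M j (c j) (hM j) (hpos j)).symm
  have h5 : (∏ j, ((γ j).factorial : ℂ)) ≠ 0 :=
    Finset.prod_ne_zero_iff.2 fun j _ => by exact_mod_cast Nat.factorial_ne_zero _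
  rw [h18]
  unfold mlt
  push_cast
  field_simp

theorem num_lhsG (g : Fin r → Fin (P+1)) (e : Fin r → Fin N → ℕ) (D0 : MvPolynomial (Fin r) ℚ)
    (μ0 : Fin r →₀ ℕ) :
    ∃ (S : Finset (Fin r → ℤ)), (∀ c, c ∈ S ↔ alG g e D0 μ0 c ≠ 0) ∧
      ∀ (M : ℕ), (∀ c ∈ S, ∀ j, c j ≤ M) → ∀ (u : Fin r → ℕ) (m : Fin N → ℕ),
        (∏ j, ((u j + M).factorial : ℂ)) *
          ((coeff (ym u + μ0) (D0 * coeff (mh m + Ex e u) (gprod g e m (gs g u))) : ℚ) : ℂ) =
          (∏ k, ((gs g u k).factorial : ℂ)) * ∑ c ∈ S, (alG g e D0 μ0 c : ℂ) *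
          (∏ j, eval (fun m => (u m : ℂ)) (ff M j (c j) * fq M j (c j))) := by
  classical
  have hfin := alG_fin g e D0 μ0
  have hprop : ∀ c, alG g e D0 μ0 c ≠ 0 → ∀ k, gs g c k = 0 := by
    intro c hc
    by_contra h
    apply hc
    unfold alG
    rw [if_neg (fun h' => h h'.1)]
  refine ⟨hfin.toFinset, fun c => Set.Finite.mem_toFinset hfin, fun M hM u m => ?_⟩
  have h5 := reindex u 0 hfin.toFinset
    (fun γ => (alG g e D0 μ0 (fun j => (γ j : ℤ) - u j) : ℂ) * ((mlt (gs g u) γ : ℚ) : ℂ))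
    (fun c hc => by
      have := hprop c ((Set.Finite.mem_toFinset hfin).1 hc)
      rw [← sum_gs g c]
      simp [this]) (by
    intro γ hγ hne
    rw [Set.Finite.mem_toFinset]
    intro h0
    apply hne
    simp only [h0, Rat.cast_zero, zero_mul])
  rw [coeff_lhsG]
  push_cast
  rw [add_zero] at h5
  rw [h5, Finset.mul_sum, Finset.mul_sum]
  refine Finset.sum_congr rfl fun c hc => ?_
  split_ifs with hpos
  swap
  · push Not at hpos
    obtain ⟨j, hj⟩ := hpos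
    have hz : ∏ j, eval (fun m => (u m : ℂ)) (ff M j (c j) * fq M j (c j)) = 0 :=
      Finset.prod_eq_zero (Finset.mem_univ j) (eval_fc_zero u M j (c j) hj)
    rw [hz]
    simp
  have hcl := clearG (gs g u) u M c (hM c hc) hpos
  have hc' : (fun j => (((((u j : ℤ) + c j).toNat) : ℕ) : ℤ) - u j) = c := by
    funext j
    rw [Int.toNat_of_nonneg (hpos j)]
    ring
  rw [hc', mul_left_comm, hcl]
  ring

theorem num_rhsG {ι : Type} (g : Fin r → Fin (P+1)) (e : Fin r → Fin N → ℕ)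
    (D : Finset (Fin N → ℤ)) (T : Finset ι)
    (Q : ι → (Fin N → ℤ) → MvPolynomial (Fin N) (MvPolynomial (Fin r) ℚ))
    (μ0 : Fin r →₀ ℕ) :
    ∃ (S : Finset (Fin r → ℤ)), (∀ c ∈ S, ∀ k, gs g c k = 1) ∧
      ∀ (M : ℕ), (∀ c ∈ S, ∀ j, c j ≤ M) → ∀ (u : Fin r → ℕ) (m : Fin N → ℕ) (w : ι → ℚ),
        (∏ j, ((u j + M).factorial : ℂ)) *
        ((coeff (ym u + μ0) (∑ β ∈ T, C (w β) * ∑ δ ∈ D,
      if ∀ i, 0 ≤ ((mh m + Ex e u) i : ℤ) + δ i then
          eval (fun i => C (((((mh m + Ex e u) i : ℤ) + δ i : ℤ)) : ℚ)) (Q β δ) *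
          C (∏ i, (((((mh m + Ex e u) i : ℤ) + δ i).toNat.descFactorial (δ i).toNat : ℕ) : ℚ)) *
          coeff (ed (mh m + Ex e u) δ) (gprod g e m (fun k => gs g u k + 1)) else 0) : ℚ) : ℂ) =
          (∏ k, ((gs g u k).factorial : ℂ)) *
          ((∏ k, (((gs g u k : ℕ) : ℂ) + 1)) * ∑ c ∈ S,
          (∏ j, eval (fun m => (u m : ℂ)) (ff M j (c j) * fq M j (c j))) *
          (∏ i, (((m i + ∑ j, u j * e j i : ℕ) + Sh e c i).toNat.descFactorial
            (Sh e c i).toNat : ℂ)) *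
          ∑ β ∈ T, (w β : ℂ) *
            eval (fun x => ((m x + Ex e u x : ℕ) : ℂ) + ((Sh e c x : ℤ) : ℂ))
              (map (algebraMap ℚ ℂ) (GcG g e D (Q β) μ0 c))) := by
  classical
  have hfin := GcG_fin g e D T Q μ0
  have hprop : ∀ c ∈ hfin.toFinset, ∀ k, gs g c k = 1 := by
    intro c hc
    obtain ⟨β, _, hβ⟩ := (Set.Finite.mem_toFinset hfin).1 hc
    by_contra h
    apply hβ
    unfold GcG
    rw [if_neg (fun h' => h h'.1)]
  refine ⟨hfin.toFinset, hprop, fun M hM u m w => ?_⟩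
  rw [coeff_rhsG]
  set F : (Fin r → ℕ) → ℂ := fun γ =>
    ((mlt (fun k => gs g u k + 1) γ : ℚ) : ℂ) * ∑ β ∈ T, (w β : ℂ) *
      (eval (fun x => (((mh m + Ex e γ) x : ℕ) : ℂ))
        (map (algebraMap ℚ ℂ) (GcG g e D (Q β) μ0 fun j => (γ j : ℤ) - u j)) *
      ∏ x, (((mh m + Ex e γ) x).descFactorial (Sh e (fun j => (γ j : ℤ) - u j) x).toNat : ℂ))
    with hF
  have h2 : ((∑ γ ∈ Finset.piAntidiag Finset.univ (∑ j, u j + (P + 1)),
        mlt (fun k => gs g u k + 1) γ * ∑ β ∈ T, w β *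
          (eval (fun x => (((mh m + Ex e γ) x : ℕ) : ℚ))
            (GcG g e D (Q β) μ0 (fun j => (γ j : ℤ) - u j)) *
          ∏ x, (((mh m + Ex e γ) x).descFactorial
            (Sh e (fun j => (γ j : ℤ) - u j) x).toNat : ℚ)) : ℚ) : ℂ)
      = ∑ γ ∈ Finset.piAntidiag Finset.univ (∑ j, u j + (P + 1)), F γ := by
    rw [hF, Rat.cast_sum]
    refine Finset.sum_congr rfl fun γ _ => ?_
    rw [Rat.cast_mul, Rat.cast_sum]
    congr 1
    refine Finset.sum_congr rfl fun m _ => ?_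
    rw [Rat.cast_mul, Rat.cast_mul, cast_eval, Rat.cast_prod]
    simp only [Rat.cast_natCast]
  have hsh : ∀ (γ : Fin r → ℕ) (i : Fin N), ((mh m + Ex e γ) i : ℤ) =
      ((mh m + Ex e u) i : ℤ) + Sh e (fun j => (γ j : ℤ) - u j) i := by
    intro γ i
    have := shift_ex e u γ i
    rw [Finsupp.add_apply, Finsupp.add_apply]
    push_cast
    omega
  have h5 := reindex u (P+1) hfin.toFinset F (fun c hc => by
      have := hprop c hc
      rw [← sum_gs g c]
      simp [this]) (by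
    intro γ hγ hne
    rw [Set.Finite.mem_toFinset]
    by_contra hno
    simp only [Set.mem_ofPred_eq] at hno
    push Not at hno
    apply hne
    rw [hF]
    simp only
    rw [Finset.sum_eq_zero, mul_zero]
    intro m hm
    rw [hno m hm]
    simp)
  rw [h2, h5, Finset.mul_sum, Finset.mul_sum, Finset.mul_sum]
  refine Finset.sum_congr rfl fun c hc => ?_
  split_ifs with hpos
  swap
  · push Not at hpos
    obtain ⟨j, hj⟩ := hpos
    have hz : ∏ j, eval (fun m => (u m : ℂ)) (ff M j (c j) * fq M j (c j)) = 0 :=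
      Finset.prod_eq_zero (Finset.mem_univ j) (eval_fc_zero u M j (c j) hj)
    rw [hz]
    simp
  have h10 : ∀ j, ((((u j : ℤ) + c j).toNat : ℕ) : ℤ) = (u j : ℤ) + c j :=
    fun j => Int.toNat_of_nonneg (hpos j)
  have hcl := clearG (fun k => gs g u k + 1) u M c (hM c hc) hpos
  set γ : Fin r → ℕ := fun j => ((u j : ℤ) + c j).toNat with hγ
  have hc' : (fun j => (γ j : ℤ) - u j) = c := by
    funext j
    rw [hγ]
    simp only
    rw [h10]
    ring
  have hshc := hsh γ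
  rw [hc'] at hshc
  rw [hF]
  simp only
  rw [hc']
  have h14 : ∀ x, (((mh m + Ex e γ) x : ℕ) : ℂ) =
      ((m x + Ex e u x : ℕ) : ℂ) + ((Sh e c x : ℤ) : ℂ) := by
    intro x
    have := hshc x
    rw [Finsupp.add_apply (mh m) (Ex e u), mh_apply] at this
    exact_mod_cast this
  simp only [h14]
  have h15 : ∏ x, (((mh m + Ex e γ) x).descFactorial (Sh e c x).toNat : ℂ) =
      ∏ i, (((m i + ∑ j, u j * e j i : ℕ) + Sh e c i).toNat.descFactorial
            (Sh e c i).toNat : ℂ) := by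
    refine Finset.prod_congr rfl fun i _ => ?_
    have h16 := hshc i
    rw [Finsupp.add_apply (mh m) (Ex e u), mh_apply, Ex_apply e u] at h16
    have h17 : (mh m + Ex e γ) i = (((m i + ∑ j, u j * e j i : ℕ) : ℤ) + Sh e c i).toNat := by
      omega
    rw [h17]
  have h12 : (∏ k, (((gs g u k + 1).factorial : ℕ) : ℂ)) =
      (∏ k, (((gs g u k : ℕ) : ℂ) + 1)) * ∏ k, ((gs g u k).factorial : ℂ) := by
    rw [← Finset.prod_mul_distrib]
    refine Finset.prod_congr rfl fun k _ => ?_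
    rw [Nat.factorial_succ]; push_cast; ring
  rw [h12] at hcl
  rw [h15, ← mul_assoc, hcl]
  simp only [Finset.mul_sum]
  refine Finset.sum_congr rfl fun m _ => ?_
  ring

lemma alG_zero (g : Fin r → Fin (P+1)) (e : Fin r → Fin N → ℕ) (D0 : MvPolynomial (Fin r) ℚ)
    (μ0 : Fin r →₀ ℕ) : alG g e D0 μ0 0 = coeff μ0 D0 := by
  classical
  have h0 : ∀ i, Sh e 0 i = 0 := by intro i; simp [Sh]
  have h1 : ∀ k, gs g (0 : Fin r → ℤ) k = 0 := by intro k; simp [gs]
  unfold alG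
  rw [if_pos ⟨h1, h0, fun j => by simp⟩]
  have h2 : mu μ0 0 = μ0 := by
    ext j
    simp [mu]
  rw [h2]

/-- the polynomial on the left side -/
noncomputable def Psi (S : Finset (Fin r → ℤ)) (al : (Fin r → ℤ) → ℂ) (M : ℕ) :
    MvPolynomial (Fin r) ℂ :=
  ∑ c ∈ S, C (al c) * ∏ j, (ff M j (c j) * fq M j (c j))

/-- the terms on the right side -/
noncomputable def Rsum (e : Fin r → Fin N → ℕ) (m : Fin N → ℕ) (M : ℕ)
    (S : Finset (Fin r → ℤ)) (q : (Fin r → ℤ) → MvPolynomial (Fin r) ℂ) :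
    MvPolynomial (Fin r) ℂ :=
  ∑ c ∈ S, (∏ i ∈ Bc e c, elw (mw m) e i) *
    ((∏ j, if c j < 0 then X j * dm M j else 1) * q c)

/-- **The full relation.** -/
theorem fullG (g : Fin r → Fin (P+1)) (e : Fin r → Fin N → ℕ) (b : MvPolynomial (Ix P N) ℚ)
    (θ : Fin r → ℝ) (hθ : LinearIndependent ℚ θ) (hb : GenEqG g e b) :
    ∃ (M : ℕ) (S S' : Finset (Fin r → ℤ)) (al : (Fin r → ℤ) → ℂ),
      (∀ c ∈ S, ∀ k, gs g c k = 1) ∧ 0 ∈ S' ∧ al 0 ≠ 0 ∧
      (∀ c ∈ S', c ≠ 0 → (∀ k, gs g c k = 0) ∧ (∀ i, Sh e c i = 0) ∧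
        0 < ∑ j, (c j : ℝ) * θ j) ∧
      ∀ m : Fin N → ℕ, ∃ q : (Fin r → ℤ) → MvPolynomial (Fin r) ℂ,
        btm g m (map (algebraMap ℚ ℂ) b) * Psi S' al M =
          (∏ k, (sgm g k + 1)) * Rsum e m M S q := by
  classical
  obtain ⟨D0, D, T, Q, hD0, hP⟩ := hb
  -- the exponent
  obtain ⟨μ0, hμ0, hmax⟩ := Finset.exists_max_image D0.support
    (fun μ => ∑ j, (μ j : ℝ) * θ j) (by rwa [support_nonempty])
  obtain ⟨S, hS, hq⟩ := num_rhsG g e D T Q μ0
  obtain ⟨S', hS', hl⟩ := num_lhsG g e D0 μ0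
  obtain ⟨M, hM⟩ : ∃ M : ℕ, ∀ c ∈ S ∪ S', ∀ j, c j ≤ M := by
    refine ⟨∑ c ∈ S ∪ S', ∑ j, (c j).toNat, fun c hc j => ?_⟩
    have h1 : (c j).toNat ≤ ∑ j, (c j).toNat :=
      Finset.single_le_sum (f := fun j => (c j).toNat) (fun _ _ => Nat.zero_le _)
        (Finset.mem_univ j)
    have h2 : ∑ j, (c j).toNat ≤ ∑ c ∈ S ∪ S', ∑ j, (c j).toNat :=
      Finset.single_le_sum (f := fun c : Fin r → ℤ => ∑ j, (c j).toNat)
        (fun _ _ => Nat.zero_le _) hc
    omega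
  have hqM := hq M (fun c hc => hM c (Finset.mem_union_left _ hc))
  have hlM := hl M (fun c hc => hM c (Finset.mem_union_right _ hc))
  refine ⟨M, S, S', fun c => ((alG g e D0 μ0 c : ℚ) : ℂ), hS, ?_, ?_, ?_, fun m => ?_⟩
  · rw [hS', alG_zero]
    exact mem_support_iff.1 hμ0
  · simp only
    rw [alG_zero]
    exact_mod_cast mem_support_iff.1 hμ0
  · intro c hc hc0
    rw [hS'] at hc
    have hcond : (∀ k, gs g c k = 0) ∧ (∀ i, Sh e c i = 0) ∧ (∀ j, c j ≤ μ0 j) := by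
      by_contra h5
      apply hc
      unfold alG
      rw [if_neg h5]
    refine ⟨hcond.1, hcond.2.1, ?_⟩
    have hval : alG g e D0 μ0 c = coeff (mu μ0 c) D0 := by
      unfold alG
      rw [if_pos hcond]
    rw [hval] at hc
    have h7 := hmax (mu μ0 c) (mem_support_iff.2 hc)
    have h8 : ∀ j, ((mu μ0 c j : ℕ) : ℝ) = (μ0 j : ℝ) - (c j : ℝ) := by
      intro j
      have h9 : ((mu μ0 c j : ℕ) : ℤ) = (μ0 j : ℤ) - c j := by
        have := hcond.2.2 j
        simp only [mu, Finsupp.equivFunOnFinite_symm_apply_apply]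
        omega
      have h10 : ((((mu μ0 c j : ℕ) : ℤ)) : ℝ) = (((μ0 j : ℤ) - c j : ℤ) : ℝ) := by rw [h9]
      push_cast at h10
      exact h10
    have h9 : 0 ≤ ∑ j, (c j : ℝ) * θ j := by
      have h10 : ∑ j, ((mu μ0 c j : ℕ) : ℝ) * θ j =
          ∑ j, (μ0 j : ℝ) * θ j - ∑ j, (c j : ℝ) * θ j := by
        rw [← Finset.sum_sub_distrib]
        refine Finset.sum_congr rfl fun j _ => ?_
        rw [h8]; ring
      simp only [h10] at h7
      linarith
    refine lt_of_le_of_ne h9 fun h => hc0 ?_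
    have h11 := Fintype.linearIndependent_iff.1 hθ (fun j => (c j : ℚ)) (by
      rw [h]
      refine Finset.sum_congr rfl fun j _ => ?_
      rw [Rat.smul_def]
      push_cast
      rfl)
    funext j
    exact_mod_cast h11 j
  -- the relation
  set gx : (Fin r → ℤ) → (Fin N) → MvPolynomial (Fin r) ℂ := fun c i =>
    elw (mw m) e i - 1 + C ((Sh e c i : ℤ) : ℂ) with hgx
  set sp : (Ix P N →₀ ℕ) → MvPolynomial (Fin r) ℂ := fun β => ∏ i, sbt g m i ^ β i with hsp
  set qt : (Fin r → ℤ) → MvPolynomial (Fin r) ℂ := fun c =>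
    (∏ j, fq M j (c j)) *
      (∏ i ∈ Bc e c, ddw m e i (Sh e c i).toNat) *
      ∑ β ∈ T, sp β * aeval (gx c) (map (algebraMap ℚ ℂ) (GcG g e D (Q β) μ0 c)) with hqt
  refine ⟨qt, ?_⟩
  unfold Psi Rsum
  refine funext_set (fun _ => Set.range (Nat.cast : ℕ → ℂ))
    (fun _ => Set.infinite_range_of_injective Nat.cast_injective) fun x hx => ?_
  choose u hu using fun j => hx j (Set.mem_univ j)
  obtain rfl : x = fun j => (u j : ℂ) := funext fun j => (hu j).symm
  -- numerical identity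
  set w : (Ix P N →₀ ℕ) → ℚ := fun β => ∏ i, ((pN (gs g u) m i : ℕ) : ℚ) ^ β i with hw
  have hn0 : (∏ k, ((gs g u k).factorial : ℂ)) ≠ 0 :=
    Finset.prod_ne_zero_iff.2 fun k _ => by exact_mod_cast Nat.factorial_ne_zero _
  have hbe : ((eval (fun i => ((pN (gs g u) m i : ℕ) : ℚ)) b : ℚ) : ℂ) =
      eval (pS (gs g (fun j => (u j : ℂ))) (fun i => (m i : ℂ))) (map (algebraMap ℚ ℂ) b) := by
    rw [eval_map]
    have h1 : pS (gs g (fun j => (u j : ℂ))) (fun i => (m i : ℂ)) =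
        fun i => algebraMap ℚ ℂ (((pN (gs g u) m i : ℕ) : ℚ)) := by
      funext i
      rw [pS_cast]
      simp
    rw [h1]
    exact eval₂_comp (algebraMap ℚ ℂ) _ _
  have hnum : eval (pS (gs g (fun j => (u j : ℂ))) (fun i => (m i : ℂ)))
        (map (algebraMap ℚ ℂ) b) * ∑ c ∈ S', ((alG g e D0 μ0 c : ℚ) : ℂ) *
        (∏ j, eval (fun m => (u m : ℂ)) (ff M j (c j) * fq M j (c j))) =
      (∏ k, (((gs g u k : ℕ) : ℂ) + 1)) * ∑ c ∈ S,
          (∏ j, eval (fun m => (u m : ℂ)) (ff M j (c j) * fq M j (c j))) *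
          (∏ i, (((m i + ∑ j, u j * e j i : ℕ) + Sh e c i).toNat.descFactorial
            (Sh e c i).toNat : ℂ)) *
          ∑ β ∈ T, (w β : ℂ) *
            eval (fun x => ((m x + Ex e u x : ℕ) : ℂ) + ((Sh e c x : ℤ) : ℂ))
              (map (algebraMap ℚ ℂ) (GcG g e D (Q β) μ0 c)) := by
    have h1 := congrArg (fun P => ((coeff (ym u + μ0) P : ℚ) : ℂ))
      (hP m (gs g u) (mh m + Ex e u))
    refine mul_left_cancel₀ hn0 ?_
    rw [← hqM u m w, ← h1, coeff_C_mul, Rat.cast_mul, hbe]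
    linear_combination (-(eval (pS (gs g (fun j => (u j : ℂ))) (fun i => (m i : ℂ)))
        (map (algebraMap ℚ ℂ) b))) * hlM u m
  rw [map_mul, eval_btm, map_mul, map_prod, map_sum, map_sum]
  have e1 : ∑ c ∈ S', eval (fun j => (u j : ℂ)) (C ((alG g e D0 μ0 c : ℚ) : ℂ) *
      ∏ j, (ff M j (c j) * fq M j (c j))) = ∑ c ∈ S', ((alG g e D0 μ0 c : ℚ) : ℂ) *
        (∏ j, eval (fun m => (u m : ℂ)) (ff M j (c j) * fq M j (c j))) := by
    refine Finset.sum_congr rfl fun c _ => ?_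
    rw [map_mul, eval_C, map_prod]
  have e0 : ∏ k, eval (fun j => (u j : ℂ)) (sgm g k + 1) =
      ∏ k, (((gs g u k : ℕ) : ℂ) + 1) := by
    refine Finset.prod_congr rfl fun k _ => ?_
    rw [map_add, map_one, eval_sgm, gs_cast]
  rw [e1, hnum, e0]
  congr 1
  refine Finset.sum_congr rfl fun c hc => ?_
  have hA : eval (fun j => (u j : ℂ)) (∏ j, if c j < 0 then
        (X j * dm M j : MvPolynomial (Fin r) ℂ) else 1) *
        eval (fun j => (u j : ℂ)) (∏ j, fq M j (c j)) =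
        ∏ j, eval (fun m => (u m : ℂ)) (ff M j (c j) * fq M j (c j)) := by
    simp only [map_prod, ← Finset.prod_mul_distrib, map_mul]
    rfl
  have hB : eval (fun j => (u j : ℂ)) (∏ i ∈ Bc e c, elw (mw m) e i) *
        eval (fun j => (u j : ℂ)) (∏ i ∈ Bc e c, ddw m e i (Sh e c i).toNat) =
        ∏ i, (((m i + ∑ j, u j * e j i : ℕ) + Sh e c i).toNat.descFactorial
            (Sh e c i).toNat : ℂ) := by
    rw [← Finset.prod_subset (Finset.subset_univ (Bc e c))]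
    · rw [map_prod, map_prod, ← Finset.prod_mul_distrib]
      refine Finset.prod_congr rfl fun i hi => ?_
      have h10 : 0 < Sh e c i := by simpa [Bc, Sh] using hi
      rw [eval_ddw _ _ _ _ (by omega), usum]
      have h11 : (((m i + ∑ j, u j * e j i : ℕ) : ℤ) + Sh e c i).toNat =
          (m i + ∑ j, u j * e j i) + (Sh e c i).toNat := by omega
      rw [h11]
    · intro i _ hi
      have h10 : ¬ 0 < Sh e c i := by simpa [Bc, Sh] using hi
      have : (Sh e c i).toNat = 0 := by omega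
      rw [this]; simp
  have hspe : ∀ β, eval (fun j => (u j : ℂ)) (sp β) = (w β : ℂ) := by
    intro β
    rw [hsp, hw]
    simp only [map_prod, map_pow, eval_sbt, pS_cast]
    push_cast
    rfl
  have hC : eval (fun j => (u j : ℂ)) (∑ β ∈ T, sp β * aeval (gx c)
        (map (algebraMap ℚ ℂ) (GcG g e D (Q β) μ0 c))) =
        ∑ β ∈ T, (w β : ℂ) *
          eval (fun x => ((m x + Ex e u x : ℕ) : ℂ) + ((Sh e c x : ℤ) : ℂ))
            (map (algebraMap ℚ ℂ) (GcG g e D (Q β) μ0 c)) := by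
    rw [map_sum]
    refine Finset.sum_congr rfl fun β _ => ?_
    rw [map_mul, hspe, eval_aev]
    congr 3
    funext x
    rw [hgx]
    simp only [map_add, map_sub, map_one, eval_C]
    rw [eval_elw, usum, Ex_apply]
    push_cast
    ring
  rw [← hA, ← hB, ← hC, hqt]
  simp only [map_mul]
  ring

end Pool.Agent.W423.MG
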