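import Pool.Agent.W423.MG.HG
import Pool.Agent.W372.SG.G1

set_option autoImplicit false

/-! Descent of functional equations from `ℂ` to `ℚ[y]`. -/

namespace Pool.Agent.W423.MG

open MvPolynomial Pool.Agent.H628R4.TZ Pool.Agent.W425.SM
open Pool.Agent.H628R4.TP (weylS)
open Pool.Agent.W372.SG

variable {r N : ℕ}

/-- **Descent.** -/
theorem descend {τ ι : Type} (a : Fin r → ℂ) (ha : AlgebraicIndependent ℚ a)
    (L R : τ → MvPolynomial (Fin N) (MvPolynomial (Fin r) ℚ)) (bs : τ → ℚ) (ws : τ → ι → ℚ)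
    (P : ι →₀ weyl N)
    (hfe : ∀ t, C ((bs t : ℚ) : ℂ) *
        map ((aeval a : MvPolynomial (Fin r) ℚ →ₐ[ℚ] ℂ).toRingHom) (L t) =
      P.sum fun m Q => ((ws t m : ℚ) : ℂ) • (Q : Module.End ℂ (MvPolynomial (Fin N) ℂ))
        (map ((aeval a : MvPolynomial (Fin r) ℚ →ₐ[ℚ] ℂ).toRingHom) (R t))) :
    ∃ (D0 : MvPolynomial (Fin r) ℚ) (D : Finset (Fin N → ℤ)) (T : Finset ι)
      (Q : ι → (Fin N → ℤ) → MvPolynomial (Fin N) (MvPolynomial (Fin r) ℚ)),
      D0 ≠ 0 ∧ ∀ (t : τ) (e : Fin N →₀ ℕ),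
      C (bs t) * (D0 * coeff e (L t)) =
        ∑ m ∈ T, C (ws t m) * ∑ δ ∈ D, if ∀ i, 0 ≤ (e i : ℤ) + δ i then
          eval (fun i => C ((((e i : ℤ) + δ i : ℤ)) : ℚ)) (Q m δ) *
          C (∏ i, ((((e i : ℤ) + δ i).toNat.descFactorial (δ i).toNat : ℕ) : ℚ)) *
          coeff (ed e δ) (R t) else 0 := by
  classical
  -- rings
  let K := FractionRing (MvPolynomial (Fin r) ℚ)
  let ι' : MvPolynomial (Fin r) ℚ →+* K := algebraMap _ K
  have hι : Function.Injective ι' := IsFractionRing.injective _ K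
  let φ : MvPolynomial (Fin r) ℚ →+* ℂ := (aeval a : MvPolynomial (Fin r) ℚ →ₐ[ℚ] ℂ).toRingHom
  have hφ : Function.Injective φ := ha
  let ψ : K →+* ℂ := IsFractionRing.lift hφ
  have hψ : ∀ x, ψ (ι' x) = φ x := fun x => IsFractionRing.lift_algebraMap hφ x
  obtain ⟨π, hπ, hπ1⟩ := retr ψ
  have hmap : ∀ p : MvPolynomial (Fin N) (MvPolynomial (Fin r) ℚ),
      map φ p = map ψ (map ι' p) := by
    intro p
    have h0 : φ = ψ.comp ι' := RingHom.ext fun x => (hψ x).symm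
    rw [map_map, ← h0]
  -- the action
  choose Q0 hQf hQ using fun (T : weyl N) =>
    Pool.Agent.H628R4.TP.act_weyl (T : Module.End ℂ (MvPolynomial (Fin N) ℂ))
      (show (T : Module.End ℂ (MvPolynomial (Fin N) ℂ)) ∈ weylS (Fin N) from T.2)
  set D : Finset (Fin N → ℤ) := P.support.biUnion fun m => (hQf (P m)).toFinset with hD
  have hD' : ∀ m ∈ P.support, ∀ u, Q0 (P m) u ≠ 0 → u ∈ D := by
    intro m hm u hu
    rw [hD, Finset.mem_biUnion]
    exact ⟨m, hm, (Set.Finite.mem_toFinset _).2 hu⟩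
  -- constants
  have hcst : ∀ x : ℚ, ψ (ι' (C x)) = (x : ℂ) := by
    intro x
    rw [hψ]
    have h1 : φ (C x) = algebraMap ℚ ℂ x := (aeval a : MvPolynomial (Fin r) ℚ →ₐ[ℚ] ℂ).commutes x
    rw [h1]
    rfl
  -- the equation over `K`
  have hK : ∀ (t : τ) (e : Fin N →₀ ℕ),
      ι' (C (bs t)) * ι' (coeff e (L t)) =
        ∑ m ∈ P.support, ι' (C (ws t m)) * ∑ δ ∈ D, if ∀ i, 0 ≤ (e i : ℤ) + δ i then
          eval (fun i => ι' (C ((((e i : ℤ) + δ i : ℤ)) : ℚ))) (pm π (Q0 (P m) δ)) *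
          (ι' (C (∏ i, ((((e i : ℤ) + δ i).toNat.descFactorial (δ i).toNat : ℕ) : ℚ))) *
          ι' (coeff (ed e δ) (R t))) else 0 := by
    intro t e
    have h1 := congrArg (coeff e) (hfe t)
    have hL : coeff e (map φ (L t)) = ψ (ι' (coeff e (L t))) := by
      rw [coeff_map, hψ]
    rw [coeff_C_mul, hL, ← hcst (bs t), Finsupp.sum, coeff_sum, ← map_mul, ← map_mul] at h1
    have h2 := congrArg π h1
    have h2' : π (ψ (ι' (C (bs t) * coeff e (L t)))) = ι' (C (bs t) * coeff e (L t)) := by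
      have := hπ (ι' (C (bs t) * coeff e (L t))) 1
      rwa [mul_one, hπ1, mul_one] at this
    rw [h2', map_sum, map_mul] at h2
    rw [h2]
    refine Finset.sum_congr rfl fun m hm => ?_
    rw [coeff_smul, smul_eq_mul, coeff_act _ (Q0 (P m)) (hQ (P m)) D (hD' m hm)]
    rw [← hcst (ws t m), hπ, map_sum]
    congr 1
    refine Finset.sum_congr rfl fun δ _ => ?_
    split_ifs
    · have h3 : coeff (ed e δ) (map φ (R t)) = ψ (ι' (coeff (ed e δ) (R t))) := by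
        rw [coeff_map, hψ]
      rw [h3, eval_pm ψ π hπ]
      have h4 : (∏ i, ((((e i : ℤ) + δ i).toNat.descFactorial (δ i).toNat : ℕ) : ℂ)) =
          ψ (ι' (C (∏ i, ((((e i : ℤ) + δ i).toNat.descFactorial (δ i).toNat : ℕ) : ℚ)))) := by
        rw [hcst]; push_cast; rfl
      have h5 : (fun i => ψ (ι' (C ((((e i : ℤ) + δ i : ℤ)) : ℚ)))) =
          fun i => ((((e i : ℤ) + δ i : ℤ)) : ℂ) := by
        funext i
        rw [hcst]; push_cast; rfl
      rw [h4, h5, ← map_mul ψ, mul_comm, hπ, mul_comm]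
    · exact map_zero π
  -- denominators
  obtain ⟨d, q, hd, hq⟩ := clear_den (R := MvPolynomial (Fin r) ℚ) (K := K)
    (P.support ×ˢ D) (fun x : ι × (Fin N → ℤ) => pm π (Q0 (P x.1) x.2))
  have hqQ : ∀ m ∈ P.support, ∀ δ ∈ D, map ι' (q (m, δ)) =
      C (ι' d) * pm π (Q0 (P m) δ) := fun m hm δ hδ =>
    hq (m, δ) (Finset.mem_product.2 ⟨hm, hδ⟩)
  refine ⟨d, D, P.support, fun m δ => q (m, δ), hd, ?_⟩
  intro t e
  apply hι
  rw [map_mul, map_mul, mul_left_comm, hK t e, map_sum, Finset.mul_sum]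
  refine Finset.sum_congr rfl fun m hm => ?_
  rw [map_mul, map_sum, mul_left_comm, Finset.mul_sum]
  congr 1
  refine Finset.sum_congr rfl fun δ hδ => ?_
  split_ifs
  · have h1 : eval (fun i => ι' (C ((((e i : ℤ) + δ i : ℤ)) : ℚ))) (map ι' (q (m, δ))) =
        ι' (eval (fun i => C ((((e i : ℤ) + δ i : ℤ)) : ℚ)) (q (m, δ))) := by
      rw [eval_map]
      exact (eval₂_comp ι' _ _).symm
    rw [hqQ m hm δ hδ, map_mul, eval_C] at h1
    rw [map_mul, map_mul, ← h1]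
    ring
  · rw [mul_zero, map_zero]

end Pool.Agent.W423.MG
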