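import Pool.Agent.W423.MG.Alg1
import Pool.Agent.W462.SG.G2a

set_option autoImplicit false

/-! Expansion of the products of powers. -/

namespace Pool.Agent.W423.MG

open MvPolynomial Pool.Agent.H628R4.TZ Pool.Agent.W425.SM Pool.Agent.W525.SM
open Pool.Agent.W596.SL (reindex shift_ex)
open Pool.Agent.W462.SG (ym ym_apply prod_X_ym term_mono' mu ym_le ym_sub Qy coeff_mul_C'
  coeff_eval_C mu_fin)
open Pool.Agent.W423.MV (mh mh_apply)
open Pool.Agent.W372.SG (ed ed_apply)

variable {r N P : ℕ}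

/-- the group sums -/
def gs (g : Fin r → Fin (P+1)) {K : Type} [AddCommMonoid K] (u : Fin r → K) (k : Fin (P+1)) : K :=
  ∑ j, if g j = k then u j else 0

lemma sum_gs (g : Fin r → Fin (P+1)) {K : Type} [AddCommMonoid K] (u : Fin r → K) :
    ∑ k, gs g u k = ∑ j, u j := by
  unfold gs
  rw [Finset.sum_comm]
  exact Finset.sum_congr rfl fun j _ => by simp

/-- the generic polynomial of the group `k` -/
noncomputable def genG (g : Fin r → Fin (P+1)) (e : Fin r → Fin N → ℕ) (k : Fin (P+1)) :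
    MvPolynomial (Fin N) (MvPolynomial (Fin r) ℚ) :=
  ∑ j, if g j = k then C (X j) * ∏ i, X i ^ e j i else 0

/-- `x ^ m ∏_k G_k ^ s_k` -/
noncomputable def gprod (g : Fin r → Fin (P+1)) (e : Fin r → Fin N → ℕ) (m : Fin N → ℕ)
    (s : Fin (P+1) → ℕ) : MvPolynomial (Fin N) (MvPolynomial (Fin r) ℚ) :=
  monomial (mh m) 1 * ∏ k, genG g e k ^ s k

/-- the coefficients of the expansion -/
noncomputable def mlt (s : Fin (P+1) → ℕ) (γ : Fin r → ℕ) : ℚ :=
  (∏ k, ((s k).factorial : ℚ)) * (∏ j, ((γ j).factorial : ℚ))⁻¹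

/-- the product of powers of sums over the groups -/
lemma prod_pow_groups {R : Type} [CommRing R] (g : Fin r → Fin (P+1)) (T : Fin r → R)
    (s : Fin (P+1) → ℕ) :
    ((Nat.multinomial Finset.univ s : ℕ) : R) * ∏ k, (∑ j, if g j = k then T j else 0) ^ s k =
      ∑ γ ∈ Finset.piAntidiag Finset.univ (∑ k, s k),
        if gs g γ = s then ((Nat.multinomial Finset.univ γ : ℕ) : R) * ∏ j, T j ^ γ j else 0 := by
  classical
  set n := ∑ k, s k with hn
  set sf : Fin (P+1) →₀ ℕ := Finsupp.equivFunOnFinite.symm s with hsf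
  have h1 : (∑ j, (C (T j) * X (g j) : MvPolynomial (Fin (P+1)) R)) ^ n =
      ∑ γ ∈ Finset.piAntidiag Finset.univ n, ((Nat.multinomial Finset.univ γ : ℕ) :
        MvPolynomial (Fin (P+1)) R) * ∏ j, (C (T j) * X (g j)) ^ γ j :=
    Finset.sum_pow_eq_sum_piAntidiag _ _ _
  have h2 : (∑ j, (C (T j) * X (g j) : MvPolynomial (Fin (P+1)) R)) =
      ∑ k, C (∑ j, if g j = k then T j else 0) * X k := by
    simp only [map_sum, Finset.sum_mul]
    rw [Finset.sum_comm]
    refine Finset.sum_congr rfl fun j _ => ?_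
    rw [Finset.sum_eq_single (g j)]
    · rw [if_pos rfl]
    · intro k _ hk
      rw [if_neg (Ne.symm hk), map_zero, zero_mul]
    · intro h; exact absurd (Finset.mem_univ _) h
  have h3 : (∑ k, C (∑ j, if g j = k then T j else 0) * X k : MvPolynomial (Fin (P+1)) R) ^ n =
      ∑ γ ∈ Finset.piAntidiag Finset.univ n, ((Nat.multinomial Finset.univ γ : ℕ) :
        MvPolynomial (Fin (P+1)) R) * ∏ k, (C (∑ j, if g j = k then T j else 0) * X k) ^ γ k :=
    Finset.sum_pow_eq_sum_piAntidiag _ _ _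
  have h4 := congrArg (coeff sf) (h1.symm.trans ((congrArg (· ^ n) h2).trans h3))
  rw [coeff_sum, coeff_sum] at h4
  -- left terms
  have hl : ∀ γ : Fin r → ℕ, coeff sf (((Nat.multinomial Finset.univ γ : ℕ) :
        MvPolynomial (Fin (P+1)) R) * ∏ j, (C (T j) * X (g j)) ^ γ j) =
        if gs g γ = s then ((Nat.multinomial Finset.univ γ : ℕ) : R) * ∏ j, T j ^ γ j else 0 := by
    intro γ
    have e1 : (∏ j, (C (T j) * X (g j) : MvPolynomial (Fin (P+1)) R) ^ γ j) =
        monomial (∑ j, Finsupp.single (g j) (γ j)) (∏ j, T j ^ γ j) := by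
      simp only [mul_pow, Finset.prod_mul_distrib, ← map_pow, ← map_prod]
      have e2 : ∀ j, (X (g j) ^ γ j : MvPolynomial (Fin (P+1)) R) =
          monomial (Finsupp.single (g j) (γ j)) 1 := fun j => by
        rw [X_pow_eq_monomial]
      simp only [e2]
      rw [← monomial_sum_one, C_mul_monomial, mul_one]
    rw [e1, ← map_natCast (C (σ := Fin (P+1)) (R := R)), coeff_C_mul, coeff_monomial]
    have e3 : (∑ j, Finsupp.single (g j) (γ j) : Fin (P+1) →₀ ℕ) = sf ↔ gs g γ = s := by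
      rw [hsf, DFunLike.ext_iff, funext_iff]
      refine forall_congr' fun k => ?_
      rw [Finsupp.finsetSum_apply]
      simp only [Finsupp.single_apply, Finsupp.equivFunOnFinite_symm_apply_apply]
      rfl
    by_cases h : gs g γ = s
    · rw [if_pos (e3.2 h), if_pos h]
    · rw [if_neg (fun h' => h (e3.1 h')), if_neg h, mul_zero]
  have hr : ∀ γ : Fin (P+1) → ℕ, coeff sf (((Nat.multinomial Finset.univ γ : ℕ) :
        MvPolynomial (Fin (P+1)) R) * ∏ k, (C (∑ j, if g j = k then T j else 0) * X k) ^ γ k) =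
        if γ = s then ((Nat.multinomial Finset.univ γ : ℕ) : R) *
          ∏ k, (∑ j, if g j = k then T j else 0) ^ γ k else 0 := by
    intro γ
    have e1 : (∏ k, (C (∑ j, if g j = k then T j else 0) * X k :
          MvPolynomial (Fin (P+1)) R) ^ γ k) =
        monomial (∑ k, Finsupp.single k (γ k)) (∏ k, (∑ j, if g j = k then T j else 0) ^ γ k) := by
      simp only [mul_pow, Finset.prod_mul_distrib, ← map_pow, ← map_prod]
      have e2 : ∀ k, (X k ^ γ k : MvPolynomial (Fin (P+1)) R) =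
          monomial (Finsupp.single k (γ k)) 1 := fun k => by
        rw [X_pow_eq_monomial]
      simp only [e2]
      rw [← monomial_sum_one, C_mul_monomial, mul_one]
    rw [e1, ← map_natCast (C (σ := Fin (P+1)) (R := R)), coeff_C_mul, coeff_monomial]
    have e3 : (∑ k, Finsupp.single k (γ k) : Fin (P+1) →₀ ℕ) = sf ↔ γ = s := by
      rw [hsf, DFunLike.ext_iff, funext_iff]
      refine forall_congr' fun k => ?_
      rw [Finsupp.finsetSum_apply]
      simp only [Finsupp.single_apply, Finsupp.equivFunOnFinite_symm_apply_apply]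
      rw [Finset.sum_ite_eq']
      simp
    by_cases h : γ = s
    · rw [if_pos (e3.2 h), if_pos h]
    · rw [if_neg (fun h' => h (e3.1 h')), if_neg h, mul_zero]
  simp only [hl, hr] at h4
  rw [h4, Finset.sum_ite_eq', if_pos]
  rw [Finset.mem_piAntidiag]
  exact ⟨hn.symm, fun i _ => Finset.mem_univ i⟩

lemma mlt_eq (g : Fin r → Fin (P+1)) (s : Fin (P+1) → ℕ) (γ : Fin r → ℕ) (h : gs g γ = s) :
    (Nat.multinomial Finset.univ γ : ℚ) = (Nat.multinomial Finset.univ s : ℚ) * mlt s γ := by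
  have h1 := Nat.multinomial_spec Finset.univ γ
  have h2 := Nat.multinomial_spec Finset.univ s
  have h3 : ∑ k, s k = ∑ j, γ j := by rw [← h, sum_gs]
  rw [h3] at h2
  have h4 : (∏ j, ((γ j).factorial : ℚ)) * (Nat.multinomial Finset.univ γ : ℚ) =
      (∏ k, ((s k).factorial : ℚ)) * (Nat.multinomial Finset.univ s : ℚ) := by
    exact_mod_cast h1.trans h2.symm
  have h5 : (∏ j, ((γ j).factorial : ℚ)) ≠ 0 :=
    Finset.prod_ne_zero_iff.2 fun j _ => by exact_mod_cast Nat.factorial_ne_zero _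
  unfold mlt
  rw [← mul_assoc, mul_comm (Nat.multinomial Finset.univ s : ℚ), ← h4]
  field_simp

/-- the expansion -/
lemma gprod_eq (g : Fin r → Fin (P+1)) (e : Fin r → Fin N → ℕ) (m : Fin N → ℕ)
    (s : Fin (P+1) → ℕ) : gprod g e m s =
      ∑ γ ∈ Finset.piAntidiag Finset.univ (∑ k, s k), if gs g γ = s then
        monomial (mh m + Ex e γ) (monomial (ym γ) (mlt s γ)) else 0 := by
  classical
  have hne : ((Nat.multinomial Finset.univ s : ℕ) : ℚ) ≠ 0 := by
    exact_mod_cast (Nat.multinomial_pos Finset.univ s).ne'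
  have hC : ∀ x : MvPolynomial (Fin N) (MvPolynomial (Fin r) ℚ),
      ((Nat.multinomial Finset.univ s : ℕ) : MvPolynomial (Fin N) (MvPolynomial (Fin r) ℚ)) * x =
      C (C (Nat.multinomial Finset.univ s : ℚ)) * x := by
    intro x
    congr 1
  have hinj : ∀ x y : MvPolynomial (Fin N) (MvPolynomial (Fin r) ℚ),
      C (C (Nat.multinomial Finset.univ s : ℚ)) * x = C (C (Nat.multinomial Finset.univ s : ℚ)) * y →
      x = y := by
    intro x y h
    refine mul_left_cancel₀ ?_ h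
    simpa using (Nat.multinomial_pos Finset.univ s).ne'
  apply hinj
  rw [gprod, mul_left_comm, ← hC]
  unfold genG
  rw [prod_pow_groups g (fun j => (C (X j) * ∏ i, X i ^ e j i :
    MvPolynomial (Fin N) (MvPolynomial (Fin r) ℚ))) s, Finset.mul_sum, Finset.mul_sum]
  refine Finset.sum_congr rfl fun γ _ => ?_
  by_cases h : gs g γ = s
  swap
  · rw [if_neg h, if_neg h, mul_zero, mul_zero]
  rw [if_pos h, if_pos h, term_mono', prod_X_ym,
    ← map_natCast (C (σ := Fin N) (R := MvPolynomial (Fin r) ℚ)),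
    C_mul_monomial, ← map_natCast (C (σ := Fin r) (R := ℚ)), C_mul_monomial, mul_one,
    monomial_mul, one_mul, C_mul_monomial, C_mul_monomial, mlt_eq g s γ h]

lemma coeff_gprod (g : Fin r → Fin (P+1)) (e : Fin r → Fin N → ℕ) (m : Fin N → ℕ)
    (s : Fin (P+1) → ℕ) (ex : Fin N →₀ ℕ) :
    open scoped Classical in
    coeff ex (gprod g e m s) = ∑ γ ∈ Finset.piAntidiag Finset.univ (∑ k, s k),
      if gs g γ = s ∧ mh m + Ex e γ = ex then monomial (ym γ) (mlt s γ) else 0 := by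
  classical
  rw [gprod_eq, coeff_sum]
  refine Finset.sum_congr rfl fun γ _ => ?_
  by_cases h : gs g γ = s
  · rw [if_pos h, coeff_monomial]
    by_cases h' : mh m + Ex e γ = ex
    · rw [if_pos h', if_pos ⟨h, h'⟩]
    · rw [if_neg h', if_neg (fun h'' => h' h''.2)]
  · rw [if_neg h, if_neg (fun h'' => h h''.1), coeff_zero]

/-! ### The left side -/

open Classical in
/-- the coefficient of `D0` belonging to `c` -/
noncomputable def alG (g : Fin r → Fin (P+1)) (e : Fin r → Fin N → ℕ) (D0 : MvPolynomial (Fin r) ℚ)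
    (μ0 : Fin r →₀ ℕ) (c : Fin r → ℤ) : ℚ :=
  if (∀ k, gs g c k = 0) ∧ (∀ i, Sh e c i = 0) ∧ (∀ j, c j ≤ μ0 j) then coeff (mu μ0 c) D0 else 0

lemma gs_sub (g : Fin r → Fin (P+1)) (u γ : Fin r → ℕ) (k : Fin (P+1)) :
    gs g (fun j => (γ j : ℤ) - u j) k = ((gs g γ k : ℕ) : ℤ) - ((gs g u k : ℕ) : ℤ) := by
  unfold gs
  push_cast
  rw [← Finset.sum_sub_distrib]
  refine Finset.sum_congr rfl fun j _ => ?_
  split_ifs <;> simp

lemma coeff_lhsG (g : Fin r → Fin (P+1)) (e : Fin r → Fin N → ℕ) (D0 : MvPolynomial (Fin r) ℚ)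
    (μ0 : Fin r →₀ ℕ) (u : Fin r → ℕ) (m : Fin N → ℕ) :
    coeff (ym u + μ0) (D0 * coeff (mh m + Ex e u) (gprod g e m (gs g u))) =
      ∑ γ ∈ Finset.piAntidiag Finset.univ (∑ j, u j),
        alG g e D0 μ0 (fun j => (γ j : ℤ) - u j) * mlt (gs g u) γ := by
  classical
  rw [coeff_gprod, Finset.mul_sum, coeff_sum, sum_gs]
  refine Finset.sum_congr rfl fun γ _ => ?_
  unfold alG
  by_cases h : gs g γ = gs g u ∧ mh m + Ex e γ = mh m + Ex e u
  · have h1 : ∀ k, gs g (fun j => (γ j : ℤ) - u j) k = 0 := by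
      intro k
      rw [gs_sub, h.1, sub_self]
    have h2 : ∀ i, Sh e (fun j => (γ j : ℤ) - u j) i = 0 := by
      intro i
      have h3 := shift_ex e u γ i
      have h4 := DFunLike.congr_fun h.2 i
      rw [Finsupp.add_apply, Finsupp.add_apply] at h4
      omega
    rw [if_pos h, coeff_mul_monomial']
    by_cases hy : ∀ j, (γ j : ℤ) - u j ≤ μ0 j
    · rw [if_pos ((ym_le u γ μ0).2 hy), if_pos ⟨h1, h2, hy⟩, ym_sub u γ μ0 hy]
    · rw [if_neg (fun h => hy ((ym_le u γ μ0).1 h)), if_neg (fun h => hy h.2.2), zero_mul]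
  · rw [if_neg h, if_neg, mul_zero, coeff_zero, zero_mul]
    rintro ⟨h1, h2, _⟩
    apply h
    refine ⟨?_, ?_⟩
    · funext k
      have h3 := h1 k
      rw [gs_sub] at h3
      omega
    · ext i
      have h3 := shift_ex e u γ i
      have h4 := h2 i
      rw [Finsupp.add_apply, Finsupp.add_apply]
      omega

/-! ### The right side -/

open Classical in
/-- the polynomial belonging to `c` -/
noncomputable def GcG (g : Fin r → Fin (P+1)) (e : Fin r → Fin N → ℕ) (D : Finset (Fin N → ℤ))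
    (Q : (Fin N → ℤ) → MvPolynomial (Fin N) (MvPolynomial (Fin r) ℚ)) (μ0 : Fin r →₀ ℕ)
    (c : Fin r → ℤ) : MvPolynomial (Fin N) ℚ :=
  if (∀ k, gs g c k = 1) ∧ Sh e c ∈ D ∧ ∀ j, c j ≤ μ0 j then Qy (mu μ0 c) (Q (Sh e c)) else 0

lemma coeff_rhsG {ι : Type} (g : Fin r → Fin (P+1)) (e : Fin r → Fin N → ℕ)
    (D : Finset (Fin N → ℤ)) (T : Finset ι)
    (Q : ι → (Fin N → ℤ) → MvPolynomial (Fin N) (MvPolynomial (Fin r) ℚ))
    (w : ι → ℚ) (μ0 : Fin r →₀ ℕ) (u : Fin r → ℕ) (m : Fin N → ℕ) :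
    coeff (ym u + μ0) (∑ β ∈ T, C (w β) * ∑ δ ∈ D,
      if ∀ i, 0 ≤ ((mh m + Ex e u) i : ℤ) + δ i then
          eval (fun i => C (((((mh m + Ex e u) i : ℤ) + δ i : ℤ)) : ℚ)) (Q β δ) *
          C (∏ i, (((((mh m + Ex e u) i : ℤ) + δ i).toNat.descFactorial (δ i).toNat : ℕ) : ℚ)) *
          coeff (ed (mh m + Ex e u) δ) (gprod g e m (fun k => gs g u k + 1)) else 0) =
      ∑ γ ∈ Finset.piAntidiag Finset.univ (∑ j, u j + (P + 1)),
        mlt (fun k => gs g u k + 1) γ * ∑ β ∈ T, w β *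
          (eval (fun x => (((mh m + Ex e γ) x : ℕ) : ℚ))
            (GcG g e D (Q β) μ0 (fun j => (γ j : ℤ) - u j)) *
          ∏ x, (((mh m + Ex e γ) x).descFactorial
            (Sh e (fun j => (γ j : ℤ) - u j) x).toNat : ℚ)) := by
  classical
  rw [coeff_sum]
  have hsum : ∑ k, (gs g u k + 1) = ∑ j, u j + (P + 1) := by
    rw [Finset.sum_add_distrib, sum_gs]
    simp
  have hsh : ∀ (γ : Fin r → ℕ) (i : Fin N), ((mh m + Ex e γ) i : ℤ) =
      ((mh m + Ex e u) i : ℤ) + Sh e (fun j => (γ j : ℤ) - u j) i := by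
    intro γ i
    have := shift_ex e u γ i
    rw [Finsupp.add_apply, Finsupp.add_apply]
    push_cast
    omega
  have hm : ∀ β ∈ T, coeff (ym u + μ0) (C (w β) * ∑ δ ∈ D,
      if ∀ i, 0 ≤ ((mh m + Ex e u) i : ℤ) + δ i then
          eval (fun i => C (((((mh m + Ex e u) i : ℤ) + δ i : ℤ)) : ℚ)) (Q β δ) *
          C (∏ i, (((((mh m + Ex e u) i : ℤ) + δ i).toNat.descFactorial (δ i).toNat : ℕ) : ℚ)) *
          coeff (ed (mh m + Ex e u) δ) (gprod g e m (fun k => gs g u k + 1)) else 0) =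
      ∑ γ ∈ Finset.piAntidiag Finset.univ (∑ j, u j + (P + 1)), w β *
        (mlt (fun k => gs g u k + 1) γ *
          (eval (fun x => (((mh m + Ex e γ) x : ℕ) : ℚ))
            (GcG g e D (Q β) μ0 (fun j => (γ j : ℤ) - u j)) *
          ∏ x, (((mh m + Ex e γ) x).descFactorial
            (Sh e (fun j => (γ j : ℤ) - u j) x).toNat : ℚ))) := by
    intro β _
    rw [coeff_C_mul, coeff_sum, ← Finset.mul_sum]
    congr 1
    -- one δ
    have h1 : ∀ δ ∈ D, coeff (ym u + μ0) (if ∀ i, 0 ≤ ((mh m + Ex e u) i : ℤ) + δ i then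
          eval (fun i => C (((((mh m + Ex e u) i : ℤ) + δ i : ℤ)) : ℚ)) (Q β δ) *
          C (∏ i, (((((mh m + Ex e u) i : ℤ) + δ i).toNat.descFactorial (δ i).toNat : ℕ) : ℚ)) *
          coeff (ed (mh m + Ex e u) δ) (gprod g e m (fun k => gs g u k + 1)) else 0) =
        ∑ γ ∈ Finset.piAntidiag Finset.univ (∑ j, u j + (P + 1)),
          if Sh e (fun j => (γ j : ℤ) - u j) = δ then
          (mlt (fun k => gs g u k + 1) γ *
          (eval (fun x => (((mh m + Ex e γ) x : ℕ) : ℚ))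
            (if (∀ k, gs g (fun j => (γ j : ℤ) - u j) k = 1) ∧ ∀ j, (γ j : ℤ) - u j ≤ μ0 j then
            Qy (mu μ0 (fun j => (γ j : ℤ) - u j)) (Q β δ) else 0) *
          ∏ x, (((mh m + Ex e γ) x).descFactorial (δ x).toNat : ℚ))) else 0 := by
      intro δ _
      have h2 : ∀ γ : Fin r → ℕ, Sh e (fun j => (γ j : ℤ) - u j) = δ ↔
          (∀ i, 0 ≤ ((mh m + Ex e u) i : ℤ) + δ i) ∧ mh m + Ex e γ = ed (mh m + Ex e u) δ := by
        intro γ
        constructor
        · rintro rfl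
          refine ⟨fun i => by rw [← hsh γ i]; omega, ?_⟩
          ext i
          rw [ed_apply, ← hsh γ i]
          omega
        · rintro ⟨h3, h4⟩
          funext i
          have h5 := DFunLike.congr_fun h4 i
          rw [ed_apply] at h5
          have h6 := hsh γ i
          have h7 := h3 i
          omega
      split_ifs with hpos
      swap
      · rw [coeff_zero, Finset.sum_eq_zero]
        intro γ _
        rw [if_neg]
        intro h3
        exact hpos ((h2 γ).1 h3).1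
      rw [coeff_gprod, Finset.mul_sum, coeff_sum, hsum]
      refine Finset.sum_congr rfl fun γ _ => ?_
      by_cases hγ : Sh e (fun j => (γ j : ℤ) - u j) = δ
      swap
      · rw [if_neg hγ, if_neg (fun h3 => hγ ((h2 γ).2 ⟨hpos, h3.2⟩)), mul_zero, coeff_zero]
      rw [if_pos hγ]
      have hg' : gs g γ = (fun k => gs g u k + 1) ↔
          ∀ k, gs g (fun j => (γ j : ℤ) - u j) k = 1 := by
        rw [funext_iff]
        refine forall_congr' fun k => ?_
        rw [gs_sub]
        omega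
      by_cases hgg : gs g γ = (fun k => gs g u k + 1)
      swap
      · rw [if_neg (fun h => hgg h.1), if_neg (fun h => hgg (hg'.2 h.1))]
        simp
      rw [if_pos ⟨hgg, ((h2 γ).1 hγ).2⟩]
      have hsh' := hsh γ
      rw [hγ] at hsh'
      have h8 : (fun i => (C (((((mh m + Ex e u) i : ℤ) + δ i : ℤ)) : ℚ) :
          MvPolynomial (Fin r) ℚ)) = fun i => C ((((mh m + Ex e γ) i : ℕ) : ℚ)) := by
        funext i
        rw [← hsh' i]
        push_cast
        rfl
      have h9 : (∏ i, (((((mh m + Ex e u) i : ℤ) + δ i).toNat.descFactorial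
          (δ i).toNat : ℕ) : ℚ)) =
          ∏ x, (((mh m + Ex e γ) x).descFactorial (δ x).toNat : ℚ) := by
        refine Finset.prod_congr rfl fun i _ => ?_
        rw [← hsh' i, Int.toNat_natCast]
      rw [h8, h9, coeff_mul_monomial']
      by_cases hy : ∀ j, (γ j : ℤ) - u j ≤ μ0 j
      · rw [if_pos ((ym_le u γ μ0).2 hy), if_pos ⟨hg'.1 hgg, hy⟩, ym_sub u γ μ0 hy, coeff_mul_C',
          coeff_eval_C]
        ring
      · rw [if_neg (fun h => hy ((ym_le u γ μ0).1 h)), if_neg (fun h => hy h.2)]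
        simp
    rw [Finset.sum_congr rfl h1, Finset.sum_comm]
    refine Finset.sum_congr rfl fun γ _ => ?_
    unfold GcG
    by_cases hD : Sh e (fun j => (γ j : ℤ) - u j) ∈ D
    · rw [Finset.sum_ite_eq D (Sh e (fun j => (γ j : ℤ) - u j)), if_pos hD]
      by_cases hy : (∀ k, gs g (fun j => (γ j : ℤ) - u j) k = 1) ∧ ∀ j, (γ j : ℤ) - u j ≤ μ0 j
      · rw [if_pos hy, if_pos ⟨hy.1, hD, hy.2⟩]
      · rw [if_neg hy, if_neg (fun h => hy ⟨h.1, h.2.2⟩)]
    · rw [Finset.sum_ite_eq D (Sh e (fun j => (γ j : ℤ) - u j)), if_neg hD,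
        if_neg (fun h => hD h.2.1)]
      simp
  rw [Finset.sum_congr rfl hm, Finset.sum_comm]
  refine Finset.sum_congr rfl fun γ _ => ?_
  rw [Finset.mul_sum]
  refine Finset.sum_congr rfl fun β _ => ?_
  ring

/-! ### finiteness -/

lemma alG_fin (g : Fin r → Fin (P+1)) (e : Fin r → Fin N → ℕ) (D0 : MvPolynomial (Fin r) ℚ)
    (μ0 : Fin r →₀ ℕ) : ({c : Fin r → ℤ | alG g e D0 μ0 c ≠ 0} : Set _).Finite := by
  classical
  refine (mu_fin μ0 D0.support).subset ?_
  intro c hc
  simp only [Set.mem_ofPred_eq, alG] at hc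
  split_ifs at hc with h0
  · exact ⟨h0.2.2, mem_support_iff.2 hc⟩
  · exact absurd rfl hc

lemma GcG_fin {ι : Type} (g : Fin r → Fin (P+1)) (e : Fin r → Fin N → ℕ) (D : Finset (Fin N → ℤ))
    (T : Finset ι)
    (Q : ι → (Fin N → ℤ) → MvPolynomial (Fin N) (MvPolynomial (Fin r) ℚ)) (μ0 : Fin r →₀ ℕ) :
    ({c : Fin r → ℤ | ∃ β ∈ T, GcG g e D (Q β) μ0 c ≠ 0} : Set _).Finite := by
  classical
  refine (mu_fin μ0 (T.biUnion fun β => D.biUnion fun δ => (Q β δ).support.biUnion fun g =>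
    (coeff g (Q β δ)).support)).subset ?_
  rintro c ⟨β, hβ, hc⟩
  simp only [GcG] at hc
  split_ifs at hc with h0
  · refine ⟨h0.2.2, ?_⟩
    have h1 : ∃ g ∈ (Q β (Sh e c)).support, coeff (mu μ0 c) (coeff g (Q β (Sh e c))) ≠ 0 := by
      by_contra hcon
      push Not at hcon
      apply hc
      unfold Qy
      refine Finset.sum_eq_zero fun g hg => ?_
      rw [hcon g hg, monomial_zero]
    obtain ⟨g', hg, hg2⟩ := h1
    simp only [Finset.mem_biUnion]
    exact ⟨β, hβ, Sh e c, h0.2.1, g', hg, mem_support_iff.2 hg2⟩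
  · exact absurd rfl hc

end Pool.Agent.W423.MG
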