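import Pool.Agent.W423.MG.Alg3

set_option autoImplicit false

/-! Division by the factors `s_k + 1`. -/

namespace Pool.Agent.W423.MG

open MvPolynomial Pool.Agent.H628R4.TZ Pool.Agent.W425.SM Pool.Agent.W525.SM
open Pool.Agent.W596.SL (fq_zero)
open Pool.Agent.W423.MV (mw elw)

variable {r N P : ℕ}

lemma gs_group (g : Fin r → Fin (P+1)) (k : Fin (P+1)) {K : Type} [AddCommMonoid K]
    (c : Fin r → K) (h : ∀ j, g j ≠ k → c j = 0) : gs g c k = ∑ j, c j := by
  unfold gs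
  refine Finset.sum_congr rfl fun j _ => ?_
  by_cases hj : g j = k
  · rw [if_pos hj]
  · rw [if_neg hj, h j hj]

/-- an edge at the top vertex -/
lemma edge (g : Fin r → Fin (P+1)) (e : Fin r → Fin N → ℕ) (θ : Fin r → ℝ)
    (hinj : ∀ j j', g j = g j' → e j = e j' → j = j') (k : Fin (P+1))
    (h2 : ∃ j j', g j = k ∧ g j' = k ∧ j ≠ j') :
    ∃ j1 j2, j1 ≠ j2 ∧ g j1 = k ∧ g j2 = k ∧ ∀ c : Fin r → ℤ,
      (∀ j, j ≠ j1 → j ≠ j2 → 0 ≤ c j) → (∀ k, gs g c k = 0) → (∀ i, Sh e c i = 0) →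
      ¬ 0 < ∑ j, (c j : ℝ) * θ j := by
  classical
  obtain ⟨ja, jb, hja, hjb, hab⟩ := h2
  obtain ⟨j1, hj1, hmax⟩ := Finset.exists_max_image (Finset.univ.filter fun j => g j = k) θ
    ⟨ja, by simp [hja]⟩
  have hgj1 : g j1 = k := by simpa using hj1
  have hmax' : ∀ j, g j = k → θ j ≤ θ j1 := fun j hj => hmax j (by simp [hj])
  -- another element
  obtain ⟨j', hj', hne⟩ : ∃ j', g j' = k ∧ j' ≠ j1 := by
    by_cases h : ja = j1
    · exact ⟨jb, hjb, fun h' => hab (h.trans h'.symm)⟩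
    · exact ⟨ja, hja, h⟩
  obtain ⟨i0, hi0⟩ : ∃ i0, e j' i0 ≠ e j1 i0 := by
    by_contra hcon
    push Not at hcon
    exact hne (hinj j' j1 (hj'.trans hgj1.symm) (funext hcon))
  obtain ⟨sg, hsg⟩ : ∃ sg : ℝ, 0 < sg * ((e j1 i0 : ℝ) - e j' i0) := by
    refine ⟨(e j1 i0 : ℝ) - e j' i0, ?_⟩
    have : ((e j1 i0 : ℝ) - e j' i0) ≠ 0 := by
      rw [sub_ne_zero]
      exact_mod_cast Ne.symm hi0
    exact mul_self_pos.2 this
  set d : Fin r → ℝ := fun j => sg * ((e j1 i0 : ℝ) - e j i0) with hd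
  obtain ⟨j2, hj2, hmin⟩ := Finset.exists_min_image
    (Finset.univ.filter fun j => g j = k ∧ 0 < d j) (fun j => (θ j1 - θ j) / d j)
    ⟨j', by simp only [Finset.mem_filter, Finset.mem_univ, true_and]; exact ⟨hj', hsg⟩⟩
  simp only [Finset.mem_filter, Finset.mem_univ, true_and] at hj2 hmin
  set t : ℝ := (θ j1 - θ j2) / d j2 with ht
  have ht0 : 0 ≤ t := div_nonneg (sub_nonneg.2 (hmax' j2 hj2.1)) hj2.2.le
  have hd1 : d j1 = 0 := by simp [hd]
  have hne12 : j1 ≠ j2 := by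
    rintro rfl
    exact absurd hj2.2 (by rw [hd1]; exact lt_irrefl 0)
  have hkey : ∀ j, g j = k → t * d j ≤ θ j1 - θ j := by
    intro j hj
    rcases lt_or_ge 0 (d j) with h | h
    · have := hmin j ⟨hj, h⟩
      rw [le_div_iff₀ h] at this
      exact this
    · have h1 := hmax' j hj
      nlinarith
  have hkey2 : t * d j2 = θ j1 - θ j2 := by
    rw [ht, div_mul_cancel₀ _ hj2.2.ne']
  refine ⟨j1, j2, hne12, hgj1, hj2.1, fun c hc hg hS hpos => ?_⟩
  -- the other groups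
  have hoff : ∀ j, g j ≠ k → c j = 0 := by
    intro j hj
    have h1 := hg (g j)
    unfold gs at h1
    have h3 : ∀ j', 0 ≤ (if g j' = g j then c j' else 0) := by
      intro j''
      split_ifs with h
      · refine hc j'' ?_ ?_
        · rintro rfl; exact hj (h ▸ hgj1)
        · rintro rfl; exact hj (h ▸ hj2.1)
      · exact le_rfl
    have h4 := (Finset.sum_eq_zero_iff_of_nonneg (fun j' _ => h3 j')).1 h1 j (Finset.mem_univ j)
    simpa using h4
  have hsum : ∑ j, (c j : ℝ) = 0 := by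
    have h1 := hg k
    rw [gs_group g k c hoff] at h1
    exact_mod_cast h1
  have hsumd : ∑ j, (c j : ℝ) * d j = 0 := by
    have h1 := hS i0
    unfold Sh at h1
    have h3 : ∑ j, (c j : ℝ) * (e j i0 : ℝ) = 0 := by exact_mod_cast h1
    have h4 : ∀ j, (c j : ℝ) * d j = sg * e j1 i0 * (c j : ℝ) - sg * ((c j : ℝ) * e j i0) := by
      intro j
      rw [hd]
      ring
    simp only [h4]
    rw [Finset.sum_sub_distrib, ← Finset.mul_sum, ← Finset.mul_sum, hsum, h3]
    ring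
  have hnn : 0 ≤ ∑ j, (c j : ℝ) * (θ j1 - θ j - t * d j) := by
    refine Finset.sum_nonneg fun j _ => ?_
    by_cases hj : g j = k
    swap
    · rw [hoff j hj]; simp
    by_cases h1 : j = j1
    · subst h1
      rw [hd1]; simp
    by_cases h3 : j = j2
    · subst h3
      rw [hkey2]; simp
    · refine mul_nonneg ?_ (sub_nonneg.2 (hkey j hj))
      exact_mod_cast hc j h1 h3
  have h5 : ∑ j, (c j : ℝ) * (θ j1 - θ j - t * d j) = θ j1 * ∑ j, (c j : ℝ) -
      ∑ j, (c j : ℝ) * θ j - t * ∑ j, (c j : ℝ) * d j := by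
    rw [Finset.mul_sum, Finset.mul_sum, ← Finset.sum_sub_distrib, ← Finset.sum_sub_distrib]
    exact Finset.sum_congr rfl fun j _ => by ring
  rw [h5, hsum, hsumd] at hnn
  linarith

/-- the test point -/
noncomputable def tp (j1 j2 : Fin r) (j : Fin r) : ℂ :=
  if j = j1 then 1/2 else if j = j2 then -3/2 else 0

lemma eval_dm_tp (j1 j2 : Fin r) (M : ℕ) (j : Fin r) : eval (tp j1 j2) (dm M j) ≠ 0 := by
  unfold dm
  rw [map_prod]
  refine Finset.prod_ne_zero_iff.2 fun m _ => ?_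
  rw [map_add, eval_X, eval_C, tp]
  split_ifs
  · intro h
    have h2 : ((3 + 2 * m : ℕ) : ℂ) = 0 := by
      push_cast at h ⊢
      linear_combination 2 * h
    have : 3 + 2 * m = 0 := by exact_mod_cast h2
    omega
  · intro h
    have h2 : ((2 * m : ℕ) : ℂ) = ((1 : ℕ) : ℂ) := by
      push_cast at h ⊢
      linear_combination 2 * h
    have : 2 * m = 1 := by exact_mod_cast h2
    omega
  · rw [zero_add]
    exact_mod_cast Nat.succ_ne_zero m

lemma eval_Psi (g : Fin r → Fin (P+1)) (e : Fin r → Fin N → ℕ) (θ : Fin r → ℝ)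
    (S' : Finset (Fin r → ℤ)) (al : (Fin r → ℤ) → ℂ) (M : ℕ) (h0 : 0 ∈ S') (hal : al 0 ≠ 0)
    (hS' : ∀ c ∈ S', c ≠ 0 → (∀ k, gs g c k = 0) ∧ (∀ i, Sh e c i = 0) ∧
        0 < ∑ j, (c j : ℝ) * θ j) (j1 j2 : Fin r)
    (hedge : ∀ c : Fin r → ℤ,
      (∀ j, j ≠ j1 → j ≠ j2 → 0 ≤ c j) → (∀ k, gs g c k = 0) → (∀ i, Sh e c i = 0) →
      ¬ 0 < ∑ j, (c j : ℝ) * θ j) : eval (tp j1 j2) (Psi S' al M) ≠ 0 := by
  classical
  unfold Psi
  rw [map_sum, Finset.sum_eq_single 0]
  · rw [map_mul, eval_C, map_prod]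
    refine mul_ne_zero hal (Finset.prod_ne_zero_iff.2 fun j _ => ?_)
    rw [Pi.zero_apply, fq_zero]
    unfold ff
    rw [if_neg (lt_irrefl 0), one_mul]
    exact eval_dm_tp j1 j2 M j
  · intro c hc hne
    obtain ⟨h1, h2, h3⟩ := hS' c hc hne
    obtain ⟨j, hj1, hj2, hj⟩ : ∃ j, j ≠ j1 ∧ j ≠ j2 ∧ c j < 0 := by
      by_contra hcon
      push Not at hcon
      exact hedge c hcon h1 h2 h3
    rw [map_mul, map_prod]
    have hz : ∏ j, eval (tp j1 j2) (ff M j (c j) * fq M j (c j)) = 0 := by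
      refine Finset.prod_eq_zero (Finset.mem_univ j) ?_
      rw [map_mul]
      unfold ff
      rw [if_pos hj, map_mul, eval_X]
      have : tp j1 j2 j = 0 := by unfold tp; rw [if_neg hj1, if_neg hj2]
      rw [this]
      simp
    rw [hz, mul_zero]
  · intro h; exact absurd h0 h

/-- the polynomial vanishes on the hyperplane `s_k = -1` -/
lemma van (g : Fin r → Fin (P+1)) (k : Fin (P+1)) (j1 j2 : Fin r) (h12 : j1 ≠ j2)
    (hj1 : g j1 = k) (hj2 : g j2 = k) (Bm Ψ R : MvPolynomial (Fin r) ℂ)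
    (hΨ : eval (tp j1 j2) Ψ ≠ 0) (h : Bm * Ψ = (∏ k, (sgm g k + 1)) * R) (x : Fin r → ℂ)
    (hx : gs g x k = -1) : eval x Bm = 0 := by
  classical
  set φ : MvPolynomial (Fin r) ℂ →ₐ[ℂ] MvPolynomial (Fin r) ℂ :=
    aeval (fun j => if j = j1 then -1 - (sgm g k - X j1) else X j) with hφ
  -- points of the hyperplane
  have hev : ∀ (y : Fin r → ℂ), gs g y k = -1 → ∀ p, eval y (φ p) = eval y p := by
    intro y hy p
    rw [hφ, eval_aev]
    congr 2
    funext j
    split_ifs with h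
    · rw [map_sub, map_sub, eval_sgm, hy, map_neg, map_one, eval_X, h]
      ring
    · exact eval_X _
  have htp : gs g (tp j1 j2) k = -1 := by
    unfold gs
    have h1 : ∀ j, (if g j = k then tp j1 j2 j else 0) =
        (if j = j1 then (1/2 : ℂ) else 0) + (if j = j2 then (-3/2 : ℂ) else 0) := by
      intro j
      unfold tp
      by_cases ha : j = j1
      · subst ha; simp [h12, hj1]
      · by_cases hb : j = j2
        · subst hb; simp [ha, hj2]
        · simp [ha, hb]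
    simp only [h1]
    rw [Finset.sum_add_distrib, Finset.sum_ite_eq', Finset.sum_ite_eq']
    simp
    norm_num
  have hsg : φ (sgm g k + 1) = 0 := by
    have h1 : sgm g k = X j1 + ∑ j ∈ Finset.univ.erase j1,
        (if g j = k then (X j : MvPolynomial (Fin r) ℂ) else 0) := by
      unfold sgm gs
      rw [← Finset.add_sum_erase Finset.univ _ (Finset.mem_univ j1), if_pos hj1]
    have h2 : φ (X j1) = -1 - (sgm g k - X j1) := by
      rw [hφ, aeval_X, if_pos rfl]
    have h3 : φ (∑ j ∈ Finset.univ.erase j1,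
        (if g j = k then (X j : MvPolynomial (Fin r) ℂ) else 0)) =
        ∑ j ∈ Finset.univ.erase j1, (if g j = k then (X j : MvPolynomial (Fin r) ℂ) else 0) := by
      rw [map_sum]
      refine Finset.sum_congr rfl fun j hj => ?_
      split_ifs
      · rw [hφ, aeval_X, if_neg (Finset.ne_of_mem_erase hj)]
      · exact map_zero _
    rw [map_add, map_one]
    conv_lhs => rw [h1]
    rw [map_add, h2, h3, h1]
    ring
  have hprod : φ (Bm * Ψ) = 0 := by
    rw [h, map_mul, map_prod, Finset.prod_eq_zero (Finset.mem_univ k) hsg, zero_mul]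
  rw [map_mul] at hprod
  have hΨ' : φ Ψ ≠ 0 := by
    intro h0
    apply hΨ
    rw [← hev _ htp, h0, map_zero]
  have hB := (mul_eq_zero.1 hprod).resolve_right hΨ'
  rw [← hev x hx, hB, map_zero]

/-! ### The change of variables -/

/-- `s'_i ↦ m_i + s_0` -/
noncomputable def trn : MvPolynomial (Ix P N) ℂ →ₐ[ℂ] MvPolynomial (Ix P N) ℂ :=
  aeval (Sum.elim (fun k => X (Sum.inl k)) (fun i => X (Sum.inr i) + X (Sum.inl 0)))

/-- the inverse -/
noncomputable def trn' : MvPolynomial (Ix P N) ℂ →ₐ[ℂ] MvPolynomial (Ix P N) ℂ :=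
  aeval (Sum.elim (fun k => X (Sum.inl k)) (fun i => X (Sum.inr i) - X (Sum.inl 0)))

lemma trn'_trnX (i : Ix P N) : trn' (trn (X i : MvPolynomial (Ix P N) ℂ)) = X i := by
  rcases i with k | i
  · simp [trn, trn']
  · simp [trn, trn']

lemma trn'_trn (p : MvPolynomial (Ix P N) ℂ) : trn' (trn p) = p := by
  induction p using MvPolynomial.induction_on with
  | C a => simp [trn, trn']
  | add p q hp hq => rw [map_add, map_add, hp, hq]
  | mul_X p i hp => rw [map_mul, map_mul, hp, trn'_trnX]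

lemma trn'_X (k : Fin (P+1)) : trn' (X (Sum.inl k) + 1 : MvPolynomial (Ix P N) ℂ) =
    X (Sum.inl k) + 1 := by
  simp [trn']

/-- `s_l ↦ -1` -/
noncomputable def sub1 (l : Fin (P+1)) : MvPolynomial (Ix P N) ℂ →ₐ[ℂ] MvPolynomial (Ix P N) ℂ :=
  aeval (fun i => if i = Sum.inl l then -1 else X i)

lemma sub1_dvd (l : Fin (P+1)) (p : MvPolynomial (Ix P N) ℂ) :
    (X (Sum.inl l) + 1 : MvPolynomial (Ix P N) ℂ) ∣ p - sub1 l p := by
  induction p using MvPolynomial.induction_on with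
  | C a => simp [sub1]
  | add p q hp hq =>
    have h1 : p + q - sub1 l (p + q) = (p - sub1 l p) + (q - sub1 l q) := by
      rw [map_add]; ring
    rw [h1]
    exact dvd_add hp hq
  | mul_X p i hp =>
    rw [map_mul]
    have h1 : p * X i - sub1 l p * sub1 l (X i) = (p - sub1 l p) * X i +
      sub1 l p * (X i - sub1 l (X i)) := by ring
    rw [h1]
    refine dvd_add (hp.mul_right _) (Dvd.dvd.mul_left ?_ _)
    unfold sub1
    rw [aeval_X]
    split_ifs with h
    · rw [h]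
      exact ⟨1, by ring⟩
    · rw [sub_self]
      exact dvd_zero _

lemma sub1_X (l k : Fin (P+1)) (h : k ≠ l) : sub1 l (X (Sum.inl k) + 1 : MvPolynomial (Ix P N) ℂ) =
    X (Sum.inl k) + 1 := by
  unfold sub1
  rw [map_add, map_one, aeval_X, if_neg]
  intro h'
  exact h (Sum.inl_injective h')

lemma X1_ne (k : Fin (P+1)) : (X (Sum.inl k) + 1 : MvPolynomial (Ix P N) ℂ) ≠ 0 := by
  intro h
  have := congrArg (eval (0 : Ix P N → ℂ)) h
  simp at this

lemma dvd_groups (B : MvPolynomial (Ix P N) ℂ) (h : ∀ l, sub1 l B = 0) (K : Finset (Fin (P+1))) :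
    ∃ q, B = (∏ k ∈ K, (X (Sum.inl k) + 1)) * q := by
  classical
  induction K using Finset.induction_on with
  | empty => exact ⟨B, by simp⟩
  | insert l K hl ih =>
    obtain ⟨q, hq⟩ := ih
    have h1 := h l
    rw [hq, map_mul, map_prod] at h1
    have h2 : ∏ k ∈ K, sub1 l (X (Sum.inl k) + 1 : MvPolynomial (Ix P N) ℂ) ≠ 0 := by
      refine Finset.prod_ne_zero_iff.2 fun k hk => ?_
      rw [sub1_X l k (fun h' => hl (h' ▸ hk))]
      exact X1_ne k
    have h3 := (mul_eq_zero.1 h1).resolve_left h2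
    have h4 := sub1_dvd l q
    rw [h3, sub_zero] at h4
    obtain ⟨q', hq'⟩ := h4
    refine ⟨q', ?_⟩
    rw [hq, hq', Finset.prod_insert hl]
    ring

/-- a representative of each group -/
lemma exists_gs (g : Fin r → Fin (P+1)) (hg : ∀ k, ∃ j, g j = k) (s : Fin (P+1) → ℂ) :
    ∃ x : Fin r → ℂ, gs g x = s := by
  classical
  choose rep hrep using hg
  refine ⟨fun j => if j = rep (g j) then s (g j) else 0, ?_⟩
  funext k
  unfold gs
  rw [Finset.sum_eq_single (rep k)]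
  · simp [hrep]
  · intro j _ hj
    by_cases h1 : g j = k
    · rw [if_pos h1]
      simp only
      rw [if_neg]
      rw [h1]
      exact hj
    · rw [if_neg h1]
  · intro h; exact absurd (Finset.mem_univ _) h

/-- **Divisibility.** -/
lemma dvd_all (g : Fin r → Fin (P+1)) (hg : ∀ k, ∃ j, g j = k) (b : MvPolynomial (Ix P N) ℂ)
    (h : ∀ (k : Fin (P+1)) (m : Fin N → ℕ) (x : Fin r → ℂ), gs g x k = -1 →
      eval x (btm g m b) = 0) :
    ∃ b' : MvPolynomial (Ix P N) ℂ, b = (∏ k, (X (Sum.inl k) + 1)) * b' := by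
  classical
  have h1 : ∀ l, sub1 l (trn b) = 0 := by
    intro l
    refine funext_set (fun i => Sum.elim (fun _ => Set.univ) (fun _ => Set.range (Nat.cast : ℕ → ℂ)) i)
      (fun i => ?_) fun y hy => ?_
    · rcases i with k | i
      · exact Set.infinite_univ
      · exact Set.infinite_range_of_injective Nat.cast_injective
    · have hy' : ∀ i : Fin N, ∃ n : ℕ, (n : ℂ) = y (Sum.inr i) := fun i => hy (Sum.inr i) (Set.mem_univ _)
      choose m hm using hy'
      rw [map_zero]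
      set s : Fin (P+1) → ℂ := fun k => if k = l then -1 else y (Sum.inl k) with hs
      obtain ⟨x, hx⟩ := exists_gs g hg s
      have h2 := h l m x (by rw [hx, hs]; simp)
      rw [eval_btm, hx] at h2
      rw [← h2]
      unfold sub1 trn
      rw [eval_aev, eval_aev]
      congr 2
      funext i
      rcases i with k | i
      · simp only [Sum.elim_inl, eval_X, pS, hs]
        by_cases hk : k = l
        · subst hk; simp
        · rw [if_neg hk, if_neg (fun h' => hk (Sum.inl_injective h')), eval_X]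
      · simp only [Sum.elim_inr, map_add, eval_X, pS, hm, hs]
        rw [if_neg (by simp), eval_X]
        congr 1
        by_cases hk : (0 : Fin (P+1)) = l
        · subst hk; simp
        · rw [if_neg hk, if_neg (fun h' => hk (Sum.inl_injective h')), eval_X]
  obtain ⟨q, hq⟩ := dvd_groups (trn b) h1 Finset.univ
  refine ⟨trn' q, ?_⟩
  have h2 := congrArg trn' hq
  rw [trn'_trn, map_mul, map_prod] at h2
  rw [h2]
  congr 1
  exact Finset.prod_congr rfl fun k _ => trn'_X k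

/-- The relation. -/
def RelG (g : Fin r → Fin (P+1)) (e : Fin r → Fin N → ℕ) (θ : Fin r → ℝ)
    (b' : MvPolynomial (Ix P N) ℂ) (M : ℕ) (Cs Cs0 : Finset (Fin r → ℤ)) : Prop :=
  (∀ c ∈ Cs, ∀ k, gs g c k = 1) ∧
  (∀ c ∈ Cs0, (∀ k, gs g c k = 0) ∧ (∀ i, Sh e c i = 0) ∧ 0 < ∑ j, (c j : ℝ) * θ j) ∧
  ∀ m : Fin N → ℕ, ∃ q q0 : (Fin r → ℤ) → MvPolynomial (Fin r) ℂ,
    btm g m b' * ∏ j, dm M j = Rsum e m M Cs q +
      ∑ c ∈ Cs0, (∏ j, if c j < 0 then X j * dm M j else 1) * q0 c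

/-- **The main result of the algebraic part.** -/
theorem alg_main (g : Fin r → Fin (P+1)) (e : Fin r → Fin N → ℕ) (b : MvPolynomial (Ix P N) ℚ)
    (θ : Fin r → ℝ) (hθ : LinearIndependent ℚ θ)
    (hinj : ∀ j j', g j = g j' → e j = e j' → j = j')
    (h2 : ∀ k, ∃ j j', g j = k ∧ g j' = k ∧ j ≠ j') (hb : GenEqG g e b) :
    ∃ (b' : MvPolynomial (Ix P N) ℂ) (M : ℕ) (Cs Cs0 : Finset (Fin r → ℤ)),
      map (algebraMap ℚ ℂ) b = (∏ k, (X (Sum.inl k) + 1)) * b' ∧ RelG g e θ b' M Cs Cs0 := by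
  classical
  obtain ⟨M, S, S', al, hS, h0, hal, hS', hrel⟩ := fullG g e b θ hθ hb
  have hg : ∀ k, ∃ j, g j = k := fun k => by
    obtain ⟨j, _, hj, _⟩ := h2 k
    exact ⟨j, hj⟩
  obtain ⟨b', hb'⟩ := dvd_all g hg (map (algebraMap ℚ ℂ) b) (by
    intro k m x hx
    obtain ⟨j1, j2, h12, hj1, hj2, hedge⟩ := edge g e θ hinj k (h2 k)
    obtain ⟨q, hq⟩ := hrel m
    exact van g k j1 j2 h12 hj1 hj2 _ _ _
      (eval_Psi g e θ S' al M h0 hal hS' j1 j2 hedge) hq x hx)
  refine ⟨b', M, S, S'.erase 0, hb', hS, ?_, fun m => ?_⟩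
  · intro c hc
    rw [Finset.mem_erase] at hc
    exact hS' c hc.2 hc.1
  obtain ⟨q, hq⟩ := hrel m
  have hne : ∏ k, (sgm g k + 1) ≠ 0 := by
    refine Finset.prod_ne_zero_iff.2 fun k _ h => ?_
    have h4 := congrArg (eval (0 : Fin r → ℂ)) h
    rw [map_add, map_one, map_zero, eval_sgm] at h4
    simp [gs] at h4
  have hbt : btm g m (map (algebraMap ℚ ℂ) b) = (∏ k, (sgm g k + 1)) * btm g m b' := by
    rw [hb', map_mul, map_prod]
    congr 1
    refine Finset.prod_congr rfl fun k _ => ?_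
    rw [map_add, map_one]
    unfold btm
    rw [aeval_X]
    rfl
  have hdiv : btm g m b' * Psi S' al M = Rsum e m M S q := by
    refine mul_left_cancel₀ hne ?_
    rw [← hq, hbt]
    ring
  refine ⟨fun c => C (al 0)⁻¹ * q c, fun c => -(C (al 0)⁻¹ * C (al c) *
    (∏ j, fq M j (c j)) * btm g m b'), ?_⟩
  have hCC : (C (al 0)⁻¹ : MvPolynomial (Fin r) ℂ) * C (al 0) = 1 := by
    rw [← C_mul, inv_mul_cancel₀ hal, C_1]
  have e2 : Rsum e m M S (fun c => C (al 0)⁻¹ * q c) =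
      C (al 0)⁻¹ * (btm g m b' * Psi S' al M) := by
    rw [hdiv]
    unfold Rsum
    rw [Finset.mul_sum]
    exact Finset.sum_congr rfl fun c _ => by ring
  rw [e2]
  unfold Psi
  rw [← Finset.add_sum_erase S' _ h0]
  have e0 : C (al 0) *
      ∏ j, (ff M j ((0 : Fin r → ℤ) j) * fq M j ((0 : Fin r → ℤ) j)) =
      C (al 0) * (∏ j, dm M j : MvPolynomial (Fin r) ℂ) := by
    congr 1
    refine Finset.prod_congr rfl fun j _ => ?_
    rw [Pi.zero_apply, fq_zero]
    unfold ff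
    rw [if_neg (lt_irrefl 0), one_mul]
  rw [e0]
  have e3 : (C (al 0)⁻¹ : MvPolynomial (Fin r) ℂ) * (btm g m b' *
      (C (al 0) * ∏ j, dm M j + ∑ c ∈ S'.erase 0, C (al c) *
        ∏ j, (ff M j (c j) * fq M j (c j)))) =
      (C (al 0)⁻¹ * C (al 0)) * (btm g m b' * ∏ j, dm M j) +
      ∑ c ∈ S'.erase 0, C (al 0)⁻¹ * btm g m b' * (C (al c) *
        ∏ j, (ff M j (c j) * fq M j (c j))) := by
    rw [← Finset.mul_sum]
    ring
  rw [e3, hCC, one_mul, add_assoc, left_eq_add, ← Finset.sum_add_distrib]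
  refine Finset.sum_eq_zero fun c _ => ?_
  have e1 : ∏ j, (ff M j (c j) * fq M j (c j)) =
      (∏ j, if c j < 0 then (X j * dm M j : MvPolynomial (Fin r) ℂ) else 1) *
        ∏ j, fq M j (c j) := by
    rw [Finset.prod_mul_distrib]
    rfl
  rw [e1]
  ring

end Pool.Agent.W423.MG
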