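import Pool.Agent.W423.MG.Val3

set_option autoImplicit false

/-! The Cayley configuration. -/

namespace Pool.Agent.W423.MG

open MvPolynomial Pool.Agent.H628R4.TZ Pool.Agent.H628R4.TP Pool.Agent.W425.SM
open Pool.Agent.W423.MV

variable {r N P : ℕ}

/-- `(v_l, e_{g l})` is the combination of the vectors `(v_j, e_{g j})`, `j ∈ J`, of the Cayley
configuration with the coefficients `c_j`. -/
def CombC (g : Fin r → Fin (P+1)) (v : Fin r → Fin N → ℕ) (J : Finset (Fin r)) (l : Fin r)
    (c : Fin r → ℚ) : Prop :=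
  (∀ j, j ∉ J → c j = 0) ∧ (∀ k, (∑ j, if g j = k then c j else 0) = if g l = k then 1 else 0) ∧
    ∀ i, ∑ j, c j * (v j i : ℚ) = (v l i : ℚ)

/-- The simplex with the vertices `(v_j, e_{g j})`, `j ∈ J`, belongs to the regular triangulation,
given by the heights `θ`, of the part of the Cayley configuration in its span: the other points
are lifted strictly below the span of the lifted simplex. -/
def AdmC (g : Fin r → Fin (P+1)) (v : Fin r → Fin N → ℕ) (θ : Fin r → ℝ) (J : Finset (Fin r)) :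
    Prop :=
  ∀ l, l ∉ J → ∀ c : Fin r → ℚ, CombC g v J l c → θ l < ∑ j, (c j : ℝ) * θ j

/-- evaluation on `J`: `(w, t) ↦ (⟨w, v_j⟩ + t_{g j})_{j ∈ J}` -/
def evC (g : Fin r → Fin (P+1)) (v : Fin r → Fin N → ℕ) (J : Finset (Fin r)) :
    ((Fin N → ℤ) × (Fin (P+1) → ℤ)) →+ (J → ℤ) where
  toFun p j := ∑ i, p.1 i * (v j i : ℤ) + p.2 (g j)
  map_zero' := by
    ext j
    simp
  map_add' p q := by
    ext j
    simp only [Prod.fst_add, Prod.snd_add, Pi.add_apply, add_mul, Finset.sum_add_distrib]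
    ring

/-- The normalised lattice volume of the simplex with the vertices `(v_j, e_{g j})`, `j ∈ J`, of
the Cayley configuration (`0` if they are dependent): the index of the image of `evC`. -/
noncomputable def idxC (g : Fin r → Fin (P+1)) (v : Fin r → Fin N → ℕ) (J : Finset (Fin r)) : ℕ :=
  (evC g v J).range.index

/-- the exponents with `x_1 ⋯ x_N` multiplied to `g_0` -/
def eG (g : Fin r → Fin (P+1)) (v : Fin r → Fin N → ℕ) (j : Fin r) (i : Fin N) : ℕ :=
  v j i + if g j = 0 then 1 else 0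

lemma sum_eG (g : Fin r → Fin (P+1)) (v : Fin r → Fin N → ℕ) (j : Fin r) (ρ : Fin N → ℕ) :
    ∑ l, ρ l * eG g v j l = ∑ l, ρ l * v j l + if g j = 0 then ∑ l, ρ l else 0 := by
  unfold eG
  by_cases h : g j = 0
  · simp only [if_pos h, mul_add, mul_one, Finset.sum_add_distrib]
  · simp only [if_neg h, add_zero]

lemma ordG_e (g : Fin r → Fin (P+1)) (v : Fin r → Fin N → ℕ) (hg : ∀ k, ∃ j, g j = k)
    (k : Fin (P+1)) (ρ : Fin N → ℕ) :
    ordG g (eG g v) k ρ = ordG g v k ρ + if k = 0 then ∑ l, ρ l else 0 := by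
  obtain ⟨j, hjk, hj⟩ := exists_ordG g v hg k ρ
  rw [ordG_eq g (eG g v) k ρ j hjk, sum_eG, hjk, hj]
  intro j' hj'
  rw [sum_eG, sum_eG, hjk, hj']
  have h1 := ordG_le' g v ρ j' k hj'
  rw [hj] at h1
  exact Nat.add_le_add_right h1 _

lemma minSetG_e (g : Fin r → Fin (P+1)) (v : Fin r → Fin N → ℕ) (hg : ∀ k, ∃ j, g j = k)
    (σ : Finset (Fin N → ℕ)) : minSetG g (eG g v) σ = minSetG g v σ := by
  ext j
  rw [mem_minSetG, mem_minSetG]
  refine forall₂_congr fun ρ _ => ?_
  rw [sum_eG, ordG_e g v hg]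
  exact Nat.add_right_cancel_iff

lemma principalG_e (g : Fin r → Fin (P+1)) (v : Fin r → Fin N → ℕ) (R : SmoothFan N)
    (h : PrincipalG g v R) : PrincipalG g (eG g v) R := by
  intro σ hσ k
  obtain ⟨j, hjk, hj⟩ := h σ hσ k
  refine ⟨j, hjk, fun ρ hρ j' hj' => ?_⟩
  rw [sum_eG, sum_eG, hjk, hj']
  exact Nat.add_le_add_right (hj ρ hρ j' hj') _

lemma combA_iff (g : Fin r → Fin (P+1)) (v : Fin r → Fin N → ℕ) (J : Finset (Fin r)) (l : Fin r)
    (c : Fin r → ℚ) : CombA (AG g (eG g v)) J l c ↔ CombC g v J l c := by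
  unfold CombA CombC
  refine and_congr_right fun hcJ => ?_
  have hs0 : ∀ k, (∑ j, c j * (((if g j = k then (1:ℤ) else 0) : ℤ) : ℚ)) =
      ∑ j, if g j = k then c j else 0 := by
    intro k
    refine Finset.sum_congr rfl fun j _ => ?_
    split_ifs <;> simp
  have hs0' : (∑ j, c j * (((if g j = 0 then (-1:ℤ) else 0) : ℤ) : ℚ)) =
      -∑ j, if g j = 0 then c j else 0 := by
    rw [← Finset.sum_neg_distrib]
    refine Finset.sum_congr rfl fun j _ => ?_
    split_ifs <;> simp
  have hwc : ∀ i, ∑ j, c j * ((AG g (eG g v) j (wco i) : ℤ) : ℚ) =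
      ∑ j, c j * (v j i : ℚ) + (1 + (VV (eG g v) i : ℚ)) * (∑ j, if g j = 0 then c j else 0) -
        (VV (eG g v) i : ℚ) * ∑ j, c j := by
    intro i
    rw [Finset.mul_sum, Finset.mul_sum, ← Finset.sum_add_distrib, ← Finset.sum_sub_distrib]
    refine Finset.sum_congr rfl fun j _ => ?_
    rw [AG_wc]
    unfold eG
    by_cases h : g j = 0
    · simp only [if_pos h]
      push_cast
      ring
    · simp only [if_neg h]
      push_cast
      ring
  have hwl : ∀ i, ((AG g (eG g v) l (wco i) : ℤ) : ℚ) =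
      (v l i : ℚ) + (1 + (VV (eG g v) i : ℚ)) * (if g l = 0 then 1 else 0) -
        (VV (eG g v) i : ℚ) := by
    intro i
    rw [AG_wc]
    unfold eG
    by_cases h : g l = 0
    · simp only [if_pos h]
      push_cast
      ring
    · simp only [if_neg h]
      push_cast
      ring
  have htot : (∑ k, ∑ j, if g j = k then c j else 0) = ∑ j, c j := by
    rw [Finset.sum_comm]
    refine Finset.sum_congr rfl fun j _ => ?_
    rw [Finset.sum_ite_eq Finset.univ (g j)]
    simp
  constructor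
  · intro h
    have hk : ∀ k, (∑ j, if g j = k then c j else 0) = if g l = k then 1 else 0 := by
      intro k
      rcases Fin.eq_zero_or_eq_succ k with h1 | ⟨k', h1⟩
      · subst h1
        have h2 := h 0
        simp only [AG_zero] at h2
        rw [hs0'] at h2
        rw [← neg_neg (∑ j, if g j = 0 then c j else 0), h2]
        split_ifs <;> simp
      · subst h1
        have h2 := h (tc k')
        simp only [AG_tc] at h2
        rw [hs0] at h2
        rw [h2]
        split_ifs <;> simp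
    refine ⟨hk, fun i => ?_⟩
    have h1 : ∑ j, c j = 1 := by
      rw [← htot]
      simp only [hk]
      simp
    have h2 := h (wco i)
    rw [hwc, hwl, h1, hk 0] at h2
    linarith
  · rintro ⟨hk, hv⟩ i
    have h1 : ∑ j, c j = 1 := by
      rw [← htot]
      simp only [hk]
      simp
    refine coords_cases (p := fun i => ∑ j, c j * ((AG g (eG g v) j i : ℤ) : ℚ) =
      ((AG g (eG g v) l i : ℤ) : ℚ)) ?_ ?_ ?_ i
    · simp only [AG_zero]
      rw [hs0', hk 0]
      split_ifs <;> simp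
    · intro k
      simp only [AG_tc]
      rw [hs0, hk]
      split_ifs <;> simp
    · intro i
      rw [hwc, hwl, h1, hk 0, hv]
      ring

lemma admA_iff (g : Fin r → Fin (P+1)) (v : Fin r → Fin N → ℕ) (θ : Fin r → ℝ)
    (J : Finset (Fin r)) : AdmA (AG g (eG g v)) θ J ↔ AdmC g v θ J := by
  unfold AdmA AdmC
  refine forall₃_congr fun l _ c => ?_
  rw [combA_iff]

lemma evA_eq (g : Fin r → Fin (P+1)) (v : Fin r → Fin N → ℕ) (J : Finset (Fin r))
    (x : Fin (P+N+1) → ℤ) (w : Fin N → ℤ) (t : Fin (P+1) → ℤ) (hw : ∀ i, x (wco i) = w i)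
    (h0 : x 0 = ∑ i, w i - t 0) (ht : ∀ k : Fin P, x (tc k) = ∑ i, (VV (eG g v) i : ℤ) * w i +
      t k.succ) : evA (AG g (eG g v)) J x = evC g v J (w, t) := by
  funext j
  show ∑ i, AG g (eG g v) j i * x i = ∑ i, w i * (v j i : ℤ) + t (g j)
  rw [sum_coords]
  simp only [AG_zero, AG_tc, AG_wc, hw]
  rcases Fin.eq_zero_or_eq_succ (g j) with h | ⟨k, h⟩
  · have h1 : ∀ k : Fin P, (if g j = k.succ then (1:ℤ) else 0) = 0 := fun k => by
      rw [if_neg]
      intro h'
      rw [h] at h'
      exact (Fin.succ_ne_zero k) h'.symm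
    simp only [h1, if_pos h]
    rw [h0, h]
    have h2 : ∑ i, ((eG g v j i : ℤ) - 0) * w i = ∑ i, w i * (v j i : ℤ) + ∑ i, w i := by
      rw [← Finset.sum_add_distrib]
      refine Finset.sum_congr rfl fun i _ => ?_
      unfold eG
      rw [if_pos h]
      push_cast
      ring
    rw [h2]
    simp only [zero_mul, Finset.sum_const_zero]
    ring
  · have h0' : ¬ g j = 0 := fun h' => by
      rw [h] at h'
      exact (Fin.succ_ne_zero k) h'
    have h2 : ∑ k' : Fin P, (if g j = k'.succ then (1:ℤ) else 0) * x (tc k') = x (tc k) := by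
      rw [Finset.sum_eq_single k]
      · simp [h]
      · intro k' _ hk'
        rw [if_neg (fun h' => hk' (Fin.succ_injective _ (h.symm.trans h')).symm)]
        simp
      · intro h'; exact absurd (Finset.mem_univ _) h'
    rw [h2, ht]
    simp only [if_neg h0']
    rw [h]
    have h3 : ∑ i, ((eG g v j i : ℤ) - (VV (eG g v) i : ℤ)) * w i =
        ∑ i, w i * (v j i : ℤ) - ∑ i, (VV (eG g v) i : ℤ) * w i := by
      rw [← Finset.sum_sub_distrib]
      refine Finset.sum_congr rfl fun i _ => ?_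
      unfold eG
      rw [if_neg h0']
      push_cast
      ring
    rw [h3]
    ring

lemma idx_eqC (g : Fin r → Fin (P+1)) (v : Fin r → Fin N → ℕ) (J : Finset (Fin r)) :
    idxA (AG g (eG g v)) J = idxC g v J := by
  unfold idxA idxC
  congr 1
  ext y
  simp only [AddMonoidHom.mem_range]
  constructor
  · rintro ⟨x, rfl⟩
    refine ⟨(fun i => x (wco i), Fin.cons (∑ i, x (wco i) - x 0)
      (fun k => x (tc k) - ∑ i, (VV (eG g v) i : ℤ) * x (wco i))), ?_⟩
    symm
    refine evA_eq g v J x _ _ (fun i => rfl) ?_ (fun k => ?_)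
    · rw [Fin.cons_zero]; ring
    · rw [Fin.cons_succ]; ring
  · rintro ⟨⟨w, t⟩, rfl⟩
    refine ⟨Fin.cons (∑ i, w i - t 0) (Fin.append
      (fun k => ∑ i, (VV (eG g v) i : ℤ) * w i + t k.succ) w), ?_⟩
    refine evA_eq g v J _ w t (fun i => ?_) rfl (fun k => ?_)
    · rw [wco, Fin.cons_succ, Fin.append_right]
    · rw [tc, Fin.cons_succ, Fin.append_left]

end Pool.Agent.W423.MG
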