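import Pool.Agent.W423.MG.Stmt

set_option autoImplicit false

/-! From the Bernstein-Sato ideal to the relation over `ℚ[y]`. -/

namespace Pool.Agent.W423.MG

open MvPolynomial Pool.Agent.H628R4.TZ Pool.Agent.W425.SM
open Pool.Agent.W423.MV (mh mh_apply)

variable {r N P : ℕ}

lemma map_genG (g : Fin r → Fin (P+1)) (e : Fin r → Fin N → ℕ) (a : Fin r → ℂ) (k : Fin (P+1)) :
    map ((aeval a : MvPolynomial (Fin r) ℚ →ₐ[ℚ] ℂ).toRingHom) (genG g e k) = polyG g e a k := by
  unfold genG polyG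
  rw [map_sum]
  refine Finset.sum_congr rfl fun j _ => ?_
  split_ifs
  · rw [map_mul, map_C, map_prod]
    congr 1
    · congr 1
      exact aeval_X a j
    · exact Finset.prod_congr rfl fun i _ => by rw [map_pow, map_X]
  · exact map_zero _

lemma poly_e0 (g : Fin r → Fin (P+1)) (v : Fin r → Fin N → ℕ) (a : Fin r → ℂ) :
    polyG g (eG g v) a 0 = (∏ i, X i) * polyG g v a 0 := by
  unfold polyG
  rw [Finset.mul_sum]
  refine Finset.sum_congr rfl fun j _ => ?_
  split_ifs with h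
  · rw [mul_left_comm, ← Finset.prod_mul_distrib]
    congr 1
    refine Finset.prod_congr rfl fun i _ => ?_
    unfold eG
    rw [if_pos h, pow_succ, mul_comm]
  · rw [mul_zero]

lemma poly_es (g : Fin r → Fin (P+1)) (v : Fin r → Fin N → ℕ) (a : Fin r → ℂ) (k : Fin P) :
    polyG g (eG g v) a k.succ = polyG g v a k.succ := by
  unfold polyG
  refine Finset.sum_congr rfl fun j _ => ?_
  split_ifs with h
  · congr 1
    refine Finset.prod_congr rfl fun i _ => ?_
    unfold eG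
    rw [if_neg (by rw [h]; exact Fin.succ_ne_zero k), add_zero]
  · rfl

lemma map_gprod (g : Fin r → Fin (P+1)) (v : Fin r → Fin N → ℕ) (a : Fin r → ℂ) (m : Fin N → ℕ)
    (s : Fin (P+1) → ℕ) :
    map ((aeval a : MvPolynomial (Fin r) ℚ →ₐ[ℚ] ℂ).toRingHom) (gprod g (eG g v) m s) =
      (∏ k, polyG g v a k ^ s k) * ∏ i, X i ^ (m i + s 0) := by
  unfold gprod
  rw [map_mul, map_prod]
  have h1 : map ((aeval a : MvPolynomial (Fin r) ℚ →ₐ[ℚ] ℂ).toRingHom)
      (monomial (mh m) (1 : MvPolynomial (Fin r) ℚ)) = ∏ i, (X i : MvPolynomial (Fin N) ℂ) ^ m i := by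
    rw [map_monomial, map_one, monomial_eq, Finsupp.prod_fintype _ _ (by simp), C_1, one_mul]
    exact Finset.prod_congr rfl fun i _ => by rw [mh_apply]
  rw [h1]
  simp only [map_pow, map_genG]
  rw [Fin.prod_univ_succ, Fin.prod_univ_succ, poly_e0]
  simp only [poly_es]
  rw [mul_pow, ← Finset.prod_pow]
  have h2 : (∏ i, (X i : MvPolynomial (Fin N) ℂ) ^ (m i + s 0)) =
      (∏ i, X i ^ m i) * ∏ i, X i ^ s 0 := by
    rw [← Finset.prod_mul_distrib]
    exact Finset.prod_congr rfl fun i _ => pow_add _ _ _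
  rw [h2]
  ring

theorem genEqG_of (g : Fin r → Fin (P+1)) (v : Fin r → Fin N → ℕ) (a : Fin r → ℂ)
    (ha : AlgebraicIndependent ℚ a) (b : MvPolynomial (Ix P N) ℚ)
    (hb : InBSIdealT (tupleG g v a) (map (algebraMap ℚ ℂ) b)) : GenEqG g (eG g v) b := by
  classical
  obtain ⟨D, hD⟩ := hb
  have hprod : ∀ s : Ix P N → ℕ, ∏ i, tupleG g v a i ^ s i =
      (∏ k, polyG g v a k ^ s (Sum.inl k)) * ∏ i, X i ^ s (Sum.inr i) := by
    intro s
    rw [Fintype.prod_sum_type]
    rfl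
  obtain ⟨D0, DD, T, Q, hD0, hQ⟩ := descend (τ := (Fin N → ℕ) × (Fin (P+1) → ℕ)) (ι := Ix P N →₀ ℕ)
    a ha (fun t => gprod g (eG g v) t.1 t.2) (fun t => gprod g (eG g v) t.1 (fun k => t.2 k + 1))
    (fun t => eval (fun i => ((pN t.2 t.1 i : ℕ) : ℚ)) b)
    (fun t β => ∏ i, ((pN t.2 t.1 i : ℕ) : ℚ) ^ β i) D (by
      rintro ⟨m, s⟩
      simp only [map_gprod]
      have h1 := hD (pN s m)
      rw [hprod] at h1
      have h2 : eval (fun i => ((pN s m i : ℕ) : ℂ)) (map (algebraMap ℚ ℂ) b) =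
          ((eval (fun i => ((pN s m i : ℕ) : ℚ)) b : ℚ) : ℂ) := by
        have h3 : (fun i => ((pN s m i : ℕ) : ℂ)) =
            fun i => algebraMap ℚ ℂ ((pN s m i : ℕ) : ℚ) := by
          funext i
          simp
        rw [h3, eval_map]
        exact (eval₂_comp (algebraMap ℚ ℂ) _ _).symm
      rw [h2] at h1
      have h4 : ∏ i, tupleG g v a i ^ (pN s m i + 1) =
          (∏ k, polyG g v a k ^ (s k + 1)) * ∏ i, X i ^ (m i + (s 0 + 1)) := by
        rw [hprod (fun i => pN s m i + 1)]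
        congr 1
      have h5 : (∏ k, polyG g v a k ^ pN s m (Sum.inl k)) * ∏ i, X i ^ pN s m (Sum.inr i) =
          (∏ k, polyG g v a k ^ s k) * ∏ i, X i ^ (m i + s 0) := rfl
      rw [h5, h4] at h1
      rw [h1]
      refine Finsupp.sum_congr fun β _ => ?_
      congr 1
      push_cast
      rfl)
  exact ⟨D0, DD, T, Q, hD0, fun m s ex => hQ (m, s) ex⟩

end Pool.Agent.W423.MG
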