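import Pool.Agent.W423.MG.Tau

set_option autoImplicit false

/-! The theorem. -/

namespace Pool.Agent.W423.MG

open MvPolynomial Pool.Agent.H628R4.TZ Pool.Agent.W425.SM
open MeasureTheory Filter Topology

variable {r N P : ℕ}

lemma eval_linG (g : Fin r → Fin (P+1)) (v : Fin r → Fin N → ℕ) (hg : ∀ k, ∃ j, g j = k)
    (ρ : Fin N → ℕ) (q : Fin P ⊕ Fin N → ℕ) (s : ℝ) :
    eval (ptQ (VV (eG g v)) q (s : ℂ)) (linG g v ρ) =
      ((kpG g (eG g v) (fun k => q (Sum.inl k)) (fun i => (q (Sum.inr i) : ℝ) + 1) s ρ : ℝ) : ℂ) := by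
  have ho : ∀ k : Fin P, ordG g (eG g v) k.succ ρ = ordG g v k.succ ρ := by
    intro k
    rw [ordG_e g v hg, if_neg (Fin.succ_ne_zero k), add_zero]
  have ho0 : ordG g (eG g v) 0 ρ = ordG g v 0 ρ + ∑ i, ρ i := by
    rw [ordG_e g v hg, if_pos rfl]
  unfold linG kpG kwG
  rw [Fin.sum_univ_succ, map_add, map_add, map_sum, map_sum, ho0]
  simp only [map_mul, eval_C, eval_X, map_add, map_one, ho]
  unfold ptQ pL
  simp only [Sum.elim_inl, Sum.elim_inr, Fin.cons_zero, Fin.cons_succ]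
  push_cast
  have h1 : ∑ i, (ρ i : ℂ) * (((q (Sum.inr i) : ℂ) + (VV (eG g v) i : ℂ) * ∑ k, (q (Sum.inl k) : ℂ)) +
      (s : ℂ) + 1) = ∑ i, ((q (Sum.inr i) : ℂ) + 1) * (ρ i : ℂ) + (∑ i, (ρ i : ℂ)) * s +
      (∑ i, (VV (eG g v) i : ℂ) * (ρ i : ℂ)) * ∑ k, (q (Sum.inl k) : ℂ) := by
    rw [Finset.sum_mul, Finset.sum_mul, ← Finset.sum_add_distrib, ← Finset.sum_add_distrib]
    exact Finset.sum_congr rfl fun i _ => by ring
  have h2 : ∑ k : Fin P, (q (Sum.inl k) : ℂ) * ((∑ i, (VV (eG g v) i : ℂ) * (ρ i : ℂ)) -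
      (ordG g v k.succ ρ : ℂ)) = (∑ i, (VV (eG g v) i : ℂ) * (ρ i : ℂ)) * ∑ k, (q (Sum.inl k) : ℂ) +
      ∑ k : Fin P, (ordG g v k.succ ρ : ℂ) * -(q (Sum.inl k) : ℂ) := by
    rw [Finset.mul_sum, ← Finset.sum_add_distrib]
    exact Finset.sum_congr rfl fun i _ => by ring
  rw [h1, h2]
  ring

lemma lin_neG (g : Fin r → Fin (P+1)) (v : Fin r → Fin N → ℕ) (hg : ∀ k, ∃ j, g j = k)
    (R : SmoothFan N) (σ : Finset (Fin N → ℕ)) (hσ : σ ∈ R.cones) (ρ : Fin N → ℕ) (hρ : ρ ∈ σ)
    (q : Fin P ⊕ Fin N → ℕ) (s : ℝ) (hs : 0 < s) :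
    eval (ptQ (VV (eG g v)) q (s : ℂ)) (linG g v ρ) ≠ 0 := by
  rw [eval_linG g v hg]
  have h1 := kpG_pos g (eG g v) hg R (fun k => q (Sum.inl k)) (fun i => (q (Sum.inr i) : ℝ) + 1)
    (fun i => by positivity) s hs σ hσ ρ hρ
  exact_mod_cast h1.ne'

/-- the sum over the cones of `J` -/
noncomputable def SJ (g : Fin r → Fin (P+1)) (v : Fin r → Fin N → ℕ) (R : SmoothFan N)
    (J : Finset (Fin r)) : KG P N :=
  open Classical in
  ∑ σ ∈ R.cones, if J ⊆ minSetG g v σ ∧ σ.card + J.card = P + N + 1 then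
    ∏ ρ ∈ σ, (algebraMap _ (KG P N) (linG g v ρ))⁻¹ else 0

/-- its values -/
noncomputable def FJ (g : Fin r → Fin (P+1)) (v : Fin r → Fin N → ℕ) (R : SmoothFan N)
    (J : Finset (Fin r)) (q : Fin P ⊕ Fin N → ℕ) (s : ℝ) : ℂ :=
  open Classical in
  ∑ σ ∈ R.cones, if J ⊆ minSetG g v σ ∧ σ.card + J.card = P + N + 1 then
    ∏ ρ ∈ σ, (eval (ptQ (VV (eG g v)) q (s : ℂ)) (linG g v ρ))⁻¹ else 0

lemma RpG_SJ (g : Fin r → Fin (P+1)) (v : Fin r → Fin N → ℕ) (hg : ∀ k, ∃ j, g j = k)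
    (R : SmoothFan N) (J : Finset (Fin r)) : RpG (VV (eG g v)) (SJ g v R J) (FJ g v R J) := by
  classical
  unfold SJ FJ
  refine RpG.sum _ _ _ fun σ hσ => ?_
  by_cases h : J ⊆ minSetG g v σ ∧ σ.card + J.card = P + N + 1
  · simp only [if_pos h]
    refine RpG.prod _ _ _ fun ρ hρ => RpG.inv _ ?_ fun q s hs => lin_neG g v hg R σ hσ ρ hρ q s hs
    obtain ⟨Q, hQ⟩ := tau_linG (V := VV (eG g v)) g v ρ
    rw [hQ]
    refine lc_linG _ ?_ _
    have := rho_pos R σ hσ ρ hρ
    exact_mod_cast (by omega : ordG g v 0 ρ + ∑ i, ρ i ≠ 0)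
  · simp only [if_neg h]
    simpa using RpG.const (V := VV (eG g v)) (P := P) (N := N) 0

theorem perJ (g : Fin r → Fin (P+1)) (v : Fin r → Fin N → ℕ) (θ : Fin r → ℝ)
    (hθ : LinearIndependent ℚ θ) (hg : ∀ k, ∃ j, g j = k)
    (b' : MvPolynomial (Ix P N) ℂ) (M : ℕ) (Cs Cs0 : Finset (Fin r → ℤ))
    (hrel : RelG g (eG g v) θ b' M Cs Cs0) (R : SmoothFan N) (hPr : PrincipalG g v R)
    (J : Finset (Fin r)) (hidx : idxC g v J ≠ 0) (hJ : ∀ k, ∃ j ∈ J, g j = k)
    (hAdm : AdmC g v θ J) :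
    ∃ Z : MvPolynomial (Ix P N) ℂ, algebraMap _ (KG P N) b' * SJ g v R J =
      algebraMap _ (KG P N) Z := by
  classical
  have he0 : ∀ j, g j = 0 → ∀ i, 0 < eG g v j i := by
    intro j hj i
    unfold eG
    rw [if_pos hj]
    omega
  by_cases hc : J.card = P + N + 1
  · have h1 : SJ g v R J = ((∑ σ ∈ R.cones, if J ⊆ minSetG g v σ ∧ σ.card + J.card = P + N + 1
        then 1 else 0 : ℕ) : KG P N) := by
      unfold SJ
      push_cast
      refine Finset.sum_congr rfl fun σ _ => ?_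
      refine if_ctx_congr Iff.rfl (fun h => ?_) fun _ => rfl
      have h2 : σ.card = 0 := by omega
      rw [Finset.card_eq_zero.1 h2, Finset.prod_empty]
    rw [h1]
    exact ⟨b' * (∑ σ ∈ R.cones, if J ⊆ minSetG g v σ ∧ σ.card + J.card = P + N + 1
        then 1 else 0 : ℕ), by rw [map_mul, map_natCast]⟩
  · refine (RpG_SJ g v hg R J).final b' (M * r + 1 + M * ∑ i, VV (eG g v) i) fun q hq => ?_
    set e := eG g v with he
    set nn : Fin P → ℕ := fun k => q (Sum.inl k) with hnn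
    set μ : Fin N → ℝ := fun i => (q (Sum.inr i) : ℝ) + 1 with hμ
    set m : Fin N → ℕ := fun i => q (Sum.inr i) + VV e i * ∑ k, nn k with hm
    have hκ : ∀ (κ : Fin r → ℕ), (∀ j, κ j ≤ M) → ∀ (f : Fin r → ℕ),
        ∑ j, κ j * f j ≤ M * ∑ j, f j := by
      intro κ hκ f
      rw [Finset.mul_sum]
      exact Finset.sum_le_sum fun j _ => Nat.mul_le_mul_right _ (hκ j)
    have hgrow : ∀ s : ℝ, 1 ≤ s → ∀ κ : Fin r → ℕ, (∀ j, κ j ≤ M) →
        ∀ i, ∑ j, (κ j : ℝ) * (AG g e j i : ℝ) < lamG s nn μ i := by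
      intro s hs κ hκM i
      refine coords_cases (p := fun i => ∑ j, (κ j : ℝ) * (AG g e j i : ℝ) < lamG s nn μ i)
        ?_ ?_ ?_ i
      · rw [lamG_zero]
        refine lt_of_le_of_lt (Finset.sum_nonpos fun j _ => ?_) (one_pos.trans_le hs)
        rw [AG_zero]
        split_ifs
        · push_cast
          have : (0:ℝ) ≤ κ j := Nat.cast_nonneg _
          linarith
        · simp
      · intro k
        rw [lamG_tc]
        have h1 : ∑ j, (κ j : ℝ) * (AG g e j (tc k) : ℝ) ≤ ((M * r : ℕ) : ℝ) := by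
          have h2 := hκ κ hκM (fun _ => 1)
          simp only [Finset.sum_const, Finset.card_univ, Fintype.card_fin, smul_eq_mul,
            mul_one] at h2
          refine le_trans (Finset.sum_le_sum (g := fun j => (κ j : ℝ)) fun j _ => ?_) ?_
          · rw [AG_tc]
            split_ifs
            · simp
            · simp
          · exact_mod_cast h2
        refine lt_of_le_of_lt h1 ?_
        have h3 := hq (Sum.inl k)
        show ((M * r : ℕ) : ℝ) < ((q (Sum.inl k) : ℕ) : ℝ)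
        exact_mod_cast (by omega : M * r < q (Sum.inl k))
      · intro i
        rw [lamG_wc]
        have h1 : ∑ j, (κ j : ℝ) * (AG g e j (wco i) : ℝ) ≤ ((M * VV e i : ℕ) : ℝ) := by
          have h2 := hκ κ hκM (fun j => e j i)
          refine le_trans (Finset.sum_le_sum (g := fun j => (κ j : ℝ) * (e j i : ℝ))
            fun j _ => ?_) ?_
          · refine mul_le_mul_of_nonneg_left ?_ (Nat.cast_nonneg _)
            rw [AG_wc]
            split_ifs
            · simp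
            · push_cast
              have : (0:ℝ) ≤ VV e i := Nat.cast_nonneg _
              linarith
          · exact_mod_cast h2
        refine lt_of_le_of_lt h1 ?_
        have h3 := hq (Sum.inr i)
        have h4 : VV e i ≤ ∑ i, VV e i :=
          Finset.single_le_sum (f := fun i => VV e i) (fun _ _ => Nat.zero_le _)
            (Finset.mem_univ i)
        have h5 : M * VV e i ≤ M * ∑ i, VV e i := Nat.mul_le_mul_left _ h4
        show ((M * VV e i : ℕ) : ℝ) < ((q (Sum.inr i) : ℕ) : ℝ) + 1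
        have h6 : ((M * VV e i : ℕ) : ℝ) ≤ ((q (Sum.inr i) : ℕ) : ℝ) := by
          exact_mod_cast (by omega : M * VV e i ≤ q (Sum.inr i))
        linarith
    have hμpos : ∀ i, 0 < μ i := fun i => by rw [hμ]; positivity
    have hidxA : idxA (AG g e) J ≠ 0 := by rw [he, idx_eqC]; exact hidx
    have hI : IndA (AG g e) J := indA_of_idx _ J hidxA
    obtain ⟨Q, hQ⟩ := pJG g e θ (fun k => hg k.succ) b' M Cs Cs0 hrel m nn μ (by
        intro i
        rw [hm, hμ]
        push_cast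
        ring) hgrow J (limJG g e θ R nn μ J) (fun K hK s hs =>
        conv_G g e θ hθ R (principalG_e g v R hPr) hg he0 nn μ hμpos K hK s (one_pos.trans_le hs)
          (fun i => by
            have := hgrow s hs (fun _ => 0) (fun _ => Nat.zero_le _) i
            simpa using this) J hI hJ)
    refine ⟨Polynomial.C (idxA (AG g e) J : ℂ) * Q, fun s hs => ?_⟩
    rw [Polynomial.eval_mul, Polynomial.eval_C, ← hQ s hs]
    have h1 : FJ g v R J q s = (idxA (AG g e) J : ℂ) * limJG g e θ R nn μ J s := by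
      unfold FJ limJG
      rw [Finset.mul_sum]
      refine Finset.sum_congr rfl fun σ _ => ?_
      have hne : (idxA (AG g e) J : ℂ) ≠ 0 := by exact_mod_cast hidxA
      by_cases h : J ⊆ minSetG g v σ ∧ σ.card + J.card = P + N + 1
      · have hσ : σ.Nonempty := by
          rw [← Finset.card_pos]
          have h3 : J.card ≤ P + N + 1 := by omega
          omega
        rw [if_pos h, if_pos ⟨by rw [he, minSetG_e g v hg]; exact h.1, h.2, hσ,
          (admA_iff g v θ J).2 hAdm⟩, ← mul_assoc, mul_inv_cancel₀ hne, one_mul]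
        exact Finset.prod_congr rfl fun ρ _ => by rw [eval_linG g v hg]
      · rw [if_neg h, if_neg, mul_zero]
        rintro ⟨h3, h4, -, -⟩
        rw [he, minSetG_e g v hg] at h3
        exact h ⟨h3, h4⟩
    rw [h1]
    show (evG nn m b').eval (s : ℂ) * _ = _
    ring

/-! ### The assembly -/

/-- inclusion and exclusion -/
lemma chiStr_sum (g : Fin r → Fin (P+1)) (v : Fin r → Fin N → ℕ) (θ : Fin r → ℝ)
    (σ : Finset (Fin N → ℕ)) {K : Type} [Field K] (u : Fin (P+1) → K) :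
    ∑ S : Finset (Fin (P+1)), ((chiStrG g v θ σ S : ℤ) : K) * ∏ k ∈ S, u k =
      ∑ S : Finset (Fin (P+1)), ((chiG g v θ σ S : ℤ) : K) * ∏ k ∈ S, (u k - 1) := by
  classical
  have h1 : ∀ S : Finset (Fin (P+1)), ((chiG g v θ σ S : ℤ) : K) * ∏ k ∈ S, (u k - 1) =
      ∑ T ∈ S.powerset, ((chiG g v θ σ S : ℤ) : K) * ((-1) ^ (S \ T).card * ∏ k ∈ T, u k) := by
    intro S
    rw [← Finset.mul_sum]
    congr 1
    simp only [sub_eq_add_neg]
    rw [Finset.prod_add]
    refine Finset.sum_congr rfl fun T _ => ?_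
    rw [Finset.prod_const, mul_comm]
  have h2 : ∀ S : Finset (Fin (P+1)), ((chiStrG g v θ σ S : ℤ) : K) * ∏ k ∈ S, u k =
      ∑ T ∈ Finset.univ.filter (fun T => S ⊆ T), ((chiG g v θ σ T : ℤ) : K) *
        ((-1) ^ (T \ S).card * ∏ k ∈ S, u k) := by
    intro S
    unfold chiStrG
    push_cast
    rw [Finset.sum_mul]
    refine Finset.sum_nbij' (fun T => S ∪ T) (fun T => T \ S) ?_ ?_ ?_ ?_ ?_
    · intro T _
      rw [Finset.mem_filter]
      exact ⟨Finset.mem_univ _, Finset.subset_union_left⟩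
    · intro T _
      rw [Finset.mem_powerset]
      intro k hk
      rw [Finset.mem_compl]
      exact (Finset.mem_sdiff.1 hk).2
    · intro T hT
      rw [Finset.mem_powerset] at hT
      ext k
      have := @hT k
      rw [Finset.mem_compl] at this
      simp only [Finset.mem_sdiff, Finset.mem_union]
      tauto
    · intro T hT
      rw [Finset.mem_filter] at hT
      exact Finset.union_sdiff_of_subset hT.2
    · intro T hT
      rw [Finset.mem_powerset] at hT
      have h3 : (S ∪ T) \ S = T := by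
        ext k
        have := @hT k
        rw [Finset.mem_compl] at this
        simp only [Finset.mem_sdiff, Finset.mem_union]
        tauto
      rw [h3]
      ring
  rw [Finset.sum_congr rfl fun S _ => h1 S, Finset.sum_congr rfl fun S _ => h2 S]
  refine Finset.sum_comm' ?_
  intro S T
  simp

lemma prod_id {K : Type} [Field K] (x : Fin (P+1) → K) (hx : ∀ k, x k + 1 ≠ 0)
    (T : Finset (Fin (P+1))) : (∏ k, (x k + 1)) * ∏ k ∈ T, ((x k + 1)⁻¹ - 1) =
      (-1) ^ T.card * ((∏ k ∈ T, x k) * ∏ k ∈ Tᶜ, (x k + 1)) := by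
  classical
  rw [← Finset.prod_mul_prod_compl T, mul_right_comm, ← Finset.prod_mul_distrib,
    ← mul_assoc, ← Finset.prod_const, ← Finset.prod_mul_distrib]
  congr 1
  refine Finset.prod_congr rfl fun k _ => ?_
  have := hx k
  field_simp
  ring

/-- the factor of the type `T` -/
noncomputable def wT (T : Finset (Fin (P+1))) : MvPolynomial (Ix P N) ℂ :=
  (∏ k ∈ T, X (Sum.inl k)) * ∏ k ∈ Tᶜ, (X (Sum.inl k) + 1)

lemma X_ne (k : Fin (P+1)) : (X (Sum.inl k) + 1 : MvPolynomial (Ix P N) ℂ) ≠ 0 := by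
  intro h
  have h1 := congrArg (eval (fun _ : Ix P N => (0:ℂ))) h
  simp at h1

open Classical in
lemma zeta_eq (g : Fin r → Fin (P+1)) (v : Fin r → Fin N → ℕ) (θ : Fin r → ℝ)
    (R : SmoothFan N) :
    algebraMap _ (KG P N) (∏ k : Fin (P+1), (X (Sum.inl k) + 1 : MvPolynomial (Ix P N) ℂ)) * topZetaG g v θ R =
      ∑ J : Finset (Fin r), if (∀ k, ∃ j ∈ J, g j = k) ∧ AdmC g v θ J then
        (-1) ^ (J.card + (P + 1)) * (idxC g v J : KG P N) *
          algebraMap (MvPolynomial (Ix P N) ℂ) (KG P N) (wT (typeG g J)) * SJ g v R J else 0 := by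
  set x : Fin (P+1) → KG P N := fun k => algebraMap (MvPolynomial (Ix P N) ℂ) (KG P N) (X (Sum.inl k)) with hx
  have hx1 : ∀ k, algebraMap (MvPolynomial (Ix P N) ℂ) (KG P N) (X (Sum.inl k) + 1) = x k + 1 := fun k => by
    rw [map_add, map_one]
  have hx0 : ∀ k, x k + 1 ≠ 0 := by
    intro k
    rw [← hx1, Ne, FaithfulSMul.algebraMap_eq_zero_iff]
    exact X_ne k
  have hw : ∀ T : Finset (Fin (P+1)), algebraMap (MvPolynomial (Ix P N) ℂ) (KG P N) (wT T) =
      (∏ k ∈ T, x k) * ∏ k ∈ Tᶜ, (x k + 1) := by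
    intro T
    unfold wT
    rw [map_mul, map_prod, map_prod]
    simp only [hx1]
    rfl
  -- one cone
  have h1 : ∀ σ : Finset (Fin N → ℕ), algebraMap _ (KG P N) (∏ k : Fin (P+1), (X (Sum.inl k) + 1 : MvPolynomial (Ix P N) ℂ)) *
      (∑ K : Finset (Fin (P+1)), ((chiStrG g v θ σ K : ℤ) : KG P N) *
        ∏ k ∈ K, (algebraMap (MvPolynomial (Ix P N) ℂ) (KG P N) (X (Sum.inl k) + 1))⁻¹) =
      ∑ J ∈ cellsG g v θ σ, (-1) ^ (N + σ.card) * (idxC g v J : KG P N) *
        algebraMap (MvPolynomial (Ix P N) ℂ) (KG P N) (wT (typeG g J)) := by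
    intro σ
    rw [chiStr_sum, Finset.mul_sum, map_prod]
    simp only [hx1]
    have h2 : ∀ T : Finset (Fin (P+1)), (∏ k, (x k + 1)) * (((chiG g v θ σ T : ℤ) : KG P N) *
        ∏ k ∈ T, ((x k + 1)⁻¹ - 1)) =
        ∑ J ∈ (cellsG g v θ σ).filter (fun J => typeG g J = T),
          (-1) ^ (N + σ.card) * (idxC g v J : KG P N) *
          algebraMap (MvPolynomial (Ix P N) ℂ) (KG P N) (wT (typeG g J)) := by
      intro T
      rw [mul_left_comm, prod_id x hx0, ← hw]
      have h3 : ∑ J ∈ (cellsG g v θ σ).filter (fun J => typeG g J = T),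
          (-1) ^ (N + σ.card) * (idxC g v J : KG P N) *
            algebraMap (MvPolynomial (Ix P N) ℂ) (KG P N) (wT (typeG g J)) =
          ∑ J ∈ (cellsG g v θ σ).filter (fun J => typeG g J = T),
          (-1) ^ (N + σ.card) * (idxC g v J : KG P N) *
            algebraMap (MvPolynomial (Ix P N) ℂ) (KG P N) (wT T) := by
        refine Finset.sum_congr rfl fun J hJ => ?_
        rw [(Finset.mem_filter.1 hJ).2]
      rw [h3, ← Finset.sum_mul, ← Finset.mul_sum, ← mul_assoc]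
      congr 1
      unfold chiG mvG
      push_cast
      have h4 : ((-1 : KG P N)) ^ T.card * (-1) ^ T.card = 1 := by
        rw [← mul_pow]; simp
      rw [pow_add _ (N + σ.card)]
      linear_combination ((-1 : KG P N) ^ (N + σ.card) *
        ∑ J ∈ (cellsG g v θ σ).filter (fun J => typeG g J = T), (idxC g v J : KG P N)) * h4
    rw [Finset.sum_congr rfl fun T _ => h2 T]
    exact Finset.sum_fiberwise _ _ _
  unfold topZetaG
  rw [Finset.mul_sum]
  have h5 : ∀ σ ∈ R.cones, algebraMap _ (KG P N) (∏ k : Fin (P+1), (X (Sum.inl k) + 1 : MvPolynomial (Ix P N) ℂ)) *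
      ((∑ K : Finset (Fin (P+1)), ((chiStrG g v θ σ K : ℤ) : KG P N) *
        ∏ k ∈ K, (algebraMap (MvPolynomial (Ix P N) ℂ) (KG P N) (X (Sum.inl k) + 1))⁻¹) *
        ∏ ρ ∈ σ, (algebraMap _ (KG P N) (linG g v ρ))⁻¹) =
      ∑ J : Finset (Fin r), if (∀ k, ∃ j ∈ J, g j = k) ∧ AdmC g v θ J then
        (-1) ^ (J.card + (P + 1)) * (idxC g v J : KG P N) *
          algebraMap (MvPolynomial (Ix P N) ℂ) (KG P N) (wT (typeG g J)) *
          (if J ⊆ minSetG g v σ ∧ σ.card + J.card = P + N + 1 then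
            ∏ ρ ∈ σ, (algebraMap _ (KG P N) (linG g v ρ))⁻¹ else 0) else 0 := by
    intro σ _
    rw [← mul_assoc, h1 σ, Finset.sum_mul]
    unfold cellsG
    rw [Finset.sum_filter]
    have h6 : (minSetG g v σ).powerset = Finset.univ.filter (fun J => J ⊆ minSetG g v σ) := by
      ext J
      simp
    rw [h6, Finset.sum_filter]
    refine Finset.sum_congr rfl fun J _ => ?_
    by_cases ha : J ⊆ minSetG g v σ
    · rw [if_pos ha]
      by_cases hb : (∀ k, ∃ j ∈ J, g j = k) ∧ AdmC g v θ J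
      · rw [if_pos hb]
        by_cases hc : σ.card + J.card = P + N + 1
        · rw [if_pos ⟨hb.1, hc, hb.2⟩, if_pos ⟨ha, hc⟩]
          have h7 : ((-1 : KG P N)) ^ (N + σ.card) = (-1) ^ (J.card + (P + 1)) := by
            have h8 : (-1 : KG P N) ^ (N + σ.card) * (-1) ^ (J.card + (P + 1)) = 1 := by
              rw [← pow_add, show N + σ.card + (J.card + (P + 1)) = 2 * (N + P + 1) by omega,
                pow_mul]
              simp
            have h9 : ((-1 : KG P N)) ^ (J.card + (P + 1)) * (-1) ^ (J.card + (P + 1)) = 1 := by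
              rw [← mul_pow]; simp
            linear_combination ((-1 : KG P N)) ^ (J.card + (P + 1)) * h8 -
              (-1 : KG P N) ^ (N + σ.card) * h9
          rw [h7]
        · rw [if_neg (fun h => hc h.2.1), if_neg (fun h => hc h.2), mul_zero]
      · rw [if_neg hb, if_neg (fun h => hb ⟨h.1, h.2.2⟩)]
    · rw [if_neg ha]
      by_cases hb : (∀ k, ∃ j ∈ J, g j = k) ∧ AdmC g v θ J
      · rw [if_pos hb, if_neg (fun h => ha h.1), mul_zero]
      · rw [if_neg hb]
  rw [Finset.sum_congr rfl h5, Finset.sum_comm]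
  refine Finset.sum_congr rfl fun J _ => ?_
  by_cases hb : (∀ k, ∃ j ∈ J, g j = k) ∧ AdmC g v θ J
  · simp only [if_pos hb]
    rw [← Finset.mul_sum]
    rfl
  · simp only [if_neg hb, Finset.sum_const_zero]

theorem main (g : Fin r → Fin (P+1)) (v : Fin r → Fin N → ℕ) (a : Fin r → ℂ)
    (hinj : ∀ j j', g j = g j' → v j = v j' → j = j')
    (h2 : ∀ k, ∃ j j', g j = k ∧ g j' = k ∧ j ≠ j')
    (ha : AlgebraicIndependent ℚ a) (θ : Fin r → ℝ) (hθ : LinearIndependent ℚ θ)
    (R : SmoothFan N) (hR : PrincipalG g v R) (b : MvPolynomial (Fin (P+1) ⊕ Fin N) ℚ)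
    (hb : InBSIdealT (tupleG g v a) (map (algebraMap ℚ ℂ) b)) :
    ∃ Z : MvPolynomial (Fin (P+1) ⊕ Fin N) ℂ,
      algebraMap _ (FractionRing (MvPolynomial (Fin (P+1) ⊕ Fin N) ℂ)) (map (algebraMap ℚ ℂ) b) *
        topZetaG g v θ R = algebraMap _ _ Z := by
  classical
  have hg : ∀ k, ∃ j, g j = k := fun k => by
    obtain ⟨j, _, hj, _⟩ := h2 k
    exact ⟨j, hj⟩
  obtain ⟨b', M, Cs, Cs0, hb', hrel⟩ := alg_main g (eG g v) b θ hθ (by
    intro j j' h1 h3
    refine hinj j j' h1 (funext fun i => ?_)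
    have h4 := congrFun h3 i
    unfold eG at h4
    rw [h1] at h4
    exact Nat.add_right_cancel h4) h2 (genEqG_of g v a ha b hb)
  rw [hb', map_mul, mul_right_comm, zeta_eq, Finset.sum_mul]
  have hmem : (∑ J : Finset (Fin r), (if (∀ k, ∃ j ∈ J, g j = k) ∧ AdmC g v θ J then
        (-1) ^ (J.card + (P + 1)) * (idxC g v J : KG P N) *
          algebraMap (MvPolynomial (Ix P N) ℂ) (KG P N) (wT (typeG g J)) * SJ g v R J else 0) *
          algebraMap _ (KG P N) b') ∈ (algebraMap (MvPolynomial (Ix P N) ℂ) (KG P N)).range := by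
    refine Subring.sum_mem _ fun J _ => ?_
    split_ifs with h
    · by_cases hidx : idxC g v J = 0
      · rw [hidx]
        simp only [Nat.cast_zero, mul_zero, zero_mul]
        exact Subring.zero_mem _
      · obtain ⟨Z, hZ⟩ := perJ g v θ hθ hg b' M Cs Cs0 hrel R hR J hidx h.1 h.2
        rw [mul_assoc, mul_comm (SJ g v R J), hZ]
        refine Subring.mul_mem _ (Subring.mul_mem _ (Subring.mul_mem _ ?_ ?_) ⟨_, rfl⟩) ⟨_, rfl⟩
        · exact Subring.pow_mem _ (Subring.neg_mem _ (Subring.one_mem _)) _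
        · exact ⟨((idxC g v J : ℕ) : MvPolynomial (Ix P N) ℂ), map_natCast _ _⟩
    · rw [zero_mul]
      exact Subring.zero_mem _
  obtain ⟨Z, hZ⟩ := hmem
  exact ⟨Z, hZ.symm⟩

end Pool.Agent.W423.MG
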