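import Pool.Agent.W423.MG.Lim

set_option autoImplicit false

/-! Stokes for general systems of linear forms. -/

namespace Pool.Agent.W423.MG

open MvPolynomial Pool.Agent.H628R4.TZ Pool.Agent.H628R4.TP Pool.Agent.W425.SM
open Pool.Agent.W423.MV
open MeasureTheory Set Filter Topology

variable {r n : ℕ}

/-- the real matrix of the forms -/
def aR (A : Fin r → Fin (n+1) → ℤ) (j : Fin r) (i : Fin (n+1)) : ℝ := (A j i : ℝ)

lemma Y_yA (A : Fin r → Fin (n+1) → ℤ) (y0 : Fin r → ℝ) (x : Fin (n+1) → ℝ) (j : Fin r) :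
    Y (aR A) y0 x j = yA A x j + y0 j := rfl

/-- the honest integral over the face `S` -/
noncomputable def HG (A : Fin r → Fin (n+1) → ℤ) (ε : ℝ) (κ : Fin r → ℕ) (lam : Fin (n+1) → ℝ)
    (y0 : Fin r → ℝ) (S : Finset (Fin (n+1))) (p : MvPolynomial (Fin r) ℂ) : ℂ :=
  ∫ x, wt lam x * DD (pk ε κ) (Y (aR A) y0 x) p ∂(Measure.pi (ms S))

lemma sum_kap_YA (A : Fin r → Fin (n+1) → ℤ) (κ : Fin r → ℕ) (y0 : Fin r → ℝ)
    (x : Fin (n+1) → ℝ) : ∑ j, (κ j : ℝ) * Y (aR A) y0 x j =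
      ∑ i, (∑ j, (κ j : ℝ) * (A j i : ℝ)) * x i + ∑ j, (κ j : ℝ) * y0 j := by
  simp only [Y_yA, yA, mul_add, Finset.sum_add_distrib, Finset.mul_sum, Finset.sum_mul]
  rw [Finset.sum_comm]
  congr 1
  exact Finset.sum_congr rfl fun i _ => Finset.sum_congr rfl fun j _ => by ring

lemma HG_integrable (A : Fin r → Fin (n+1) → ℤ) (ε : ℝ) (hε : 0 < ε) (κ : Fin r → ℕ)
    (lam : Fin (n+1) → ℝ) (hg : ∀ i, ∑ j, (κ j : ℝ) * (A j i : ℝ) < lam i)
    (y0 : Fin r → ℝ) (S : Finset (Fin (n+1))) (p : MvPolynomial (Fin r) ℂ) :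
    Integrable (fun x => wt lam x * DD (pk ε κ) (Y (aR A) y0 x) p) (Measure.pi (ms S)) := by
  obtain ⟨C, hC0, hC⟩ := DD_growth ε hε κ p
  set C1 : ℝ := ∑ j, (κ j : ℝ) * y0 j with hC1
  have hint := wt_integrable S (fun i => lam i - ∑ j, (κ j : ℝ) * (A j i : ℝ))
    (fun i => by linarith [hg i])
  refine Integrable.mono' (hint.norm.const_mul (C * Real.exp C1)) ?_ ?_
  · refine Continuous.aestronglyMeasurable ?_
    refine Continuous.mul ?_ ((DD_cont ε hε κ p).comp (Y_cont _ _))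
    unfold wt
    fun_prop
  · filter_upwards with x
    rw [norm_mul]
    have hw : ∀ lam : Fin (n+1) → ℝ, ‖wt lam x‖ = Real.exp (-∑ k, lam k * x k) := by
      intro lam
      rw [wt, ← Complex.ofReal_prod, Complex.norm_real, ← Real.exp_sum,
        Real.norm_of_nonneg (Real.exp_pos _).le, ← Finset.sum_neg_distrib]
      congr 1
      exact Finset.sum_congr rfl fun k _ => by ring
    rw [hw, hw]
    refine (mul_le_mul_of_nonneg_left (hC _) (Real.exp_pos _).le).trans (le_of_eq ?_)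
    rw [mul_comm C, ← mul_assoc, ← Real.exp_add, mul_comm C, mul_right_comm, ← Real.exp_add]
    congr 2
    rw [sum_kap_YA, hC1]
    simp only [sub_mul, Finset.sum_sub_distrib]
    ring

lemma insertNth_YA (A : Fin r → Fin (n+1) → ℤ) (y0 : Fin r → ℝ) (i : Fin (n+1))
    (x' : Fin n → ℝ) (j : Fin r) (t : ℝ) :
    Y (aR A) y0 (i.insertNth (α := fun _ => ℝ) t x') j =
      Y (aR A) y0 (i.insertNth (α := fun _ => ℝ) 0 x') j + aR A j i * t := by
  unfold Y
  rw [Fin.sum_univ_succAbove _ i, Fin.sum_univ_succAbove _ i]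
  simp only [Fin.insertNth_apply_same, Fin.insertNth_apply_succAbove]
  ring

lemma insertNth_YA_deriv (A : Fin r → Fin (n+1) → ℤ) (y0 : Fin r → ℝ) (i : Fin (n+1))
    (x' : Fin n → ℝ) (j : Fin r) (t : ℝ) :
    HasDerivAt (fun t : ℝ => Y (aR A) y0 (i.insertNth (α := fun _ => ℝ) t x') j)
      (aR A j i) t := by
  have h1 : (fun t : ℝ => Y (aR A) y0 (i.insertNth (α := fun _ => ℝ) t x') j) =
      fun t => Y (aR A) y0 (i.insertNth (α := fun _ => ℝ) 0 x') j + aR A j i * t := by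
    funext t
    exact insertNth_YA A y0 i x' j t
  rw [h1]
  have := ((hasDerivAt_id t).const_mul (aR A j i)).const_add
    (Y (aR A) y0 (i.insertNth (α := fun _ => ℝ) 0 x') j)
  simpa using this

/-- Stokes -/
lemma HG_step (A : Fin r → Fin (n+1) → ℤ) (ε : ℝ) (hε : 0 < ε) (κ : Fin r → ℕ)
    (lam : Fin (n+1) → ℝ) (hg : ∀ i, ∑ j, (κ j : ℝ) * (A j i : ℝ) < lam i)
    (y0 : Fin r → ℝ) (S : Finset (Fin (n+1))) (i : Fin (n+1)) (hi : i ∉ S)
    (p : MvPolynomial (Fin r) ℂ) :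
    HG A ε κ lam y0 S ((C ((lam i : ℝ) : ℂ) + Lf (fun j => aR A j i)) * p) =
      HG A ε κ lam y0 (insert i S) p := by
  unfold HG
  rw [pi_split _ i _ (HG_integrable A ε hε κ lam hg y0 S _),
    pi_split _ i _ (HG_integrable A ε hε κ lam hg y0 (insert i S) _)]
  have hms : (fun j => ms (insert i S) (i.succAbove j)) = fun j => ms S (i.succAbove j) := by
    funext j
    unfold ms
    have h1 : i.succAbove j ≠ i := Fin.succAbove_ne i j
    congr 1
    simp [Finset.mem_insert]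
  rw [hms]
  refine integral_congr_ae (Eventually.of_forall fun x' => ?_)
  have hw : ∀ t : ℝ, wt lam (i.insertNth (α := fun _ => ℝ) t x') =
      ((Real.exp (-(lam i) * t) : ℝ) : ℂ) *
        ∏ j, ((Real.exp (-lam (i.succAbove j) * x' j) : ℝ) : ℂ) := by
    intro t
    unfold wt
    rw [Fin.prod_univ_succAbove _ i]
    simp
  set w := ∏ j, ((Real.exp (-lam (i.succAbove j) * x' j) : ℝ) : ℂ) with hwdef
  have hmsi : ms S i = volume.restrict (Ioi 0) := by simp [ms, hi]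
  have hmsi' : ms (insert i S) i = Measure.dirac 0 := by simp [ms]
  simp only [hmsi, hmsi']
  rw [integral_dirac]
  simp only [hw]
  -- bounds
  set L : ℝ := ∑ j, (κ j : ℝ) * (A j i : ℝ) with hL
  have hbd : ∀ q : MvPolynomial (Fin r) ℂ, ∃ K, ∀ t : ℝ,
      ‖DD (pk ε κ) (Y (aR A) y0 (i.insertNth (α := fun _ => ℝ) t x')) q‖ ≤
        K * Real.exp (L * t) := by
    intro q
    obtain ⟨C, hC0, hC⟩ := DD_growth ε hε κ q
    set B : ℝ := ∑ j, (κ j : ℝ) * Y (aR A) y0 (i.insertNth (α := fun _ => ℝ) 0 x') j with hB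
    refine ⟨C * Real.exp B, fun t => (hC _).trans (le_of_eq ?_)⟩
    have hexp : ∑ j, (κ j : ℝ) * Y (aR A) y0 (i.insertNth (α := fun _ => ℝ) t x') j =
        B + L * t := by
      simp only [insertNth_YA A y0 i x' _ t, mul_add, Finset.sum_add_distrib, hB, hL]
      congr 1
      rw [Finset.sum_mul]
      exact Finset.sum_congr rfl fun j _ => by rw [aR]; ring
    rw [hexp, Real.exp_add]
    ring
  obtain ⟨K, hK⟩ := hbd p
  obtain ⟨K', hK'⟩ := hbd (Lf (fun j => aR A j i) * p)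
  have hcont : Continuous (fun t : ℝ => Y (aR A) y0 (i.insertNth (α := fun _ => ℝ) t x')) := by
    refine continuous_pi fun j => ?_
    exact continuous_iff_continuousAt.2 fun t => (insertNth_YA_deriv A y0 i x' j t).continuousAt
  have h6 := one_dim_exp
    (fun t => DD (pk ε κ) (Y (aR A) y0 (i.insertNth (α := fun _ => ℝ) t x')) p)
    (fun t => -(DD (pk ε κ) (Y (aR A) y0 (i.insertNth (α := fun _ => ℝ) t x'))
      (Lf (fun j => aR A j i) * p)))
    (lam i) L (hg i) (fun t => DD_hasDerivAt ε hε κ p (fun j => aR A j i) _ t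
      (fun j => insertNth_YA_deriv A y0 i x' j t)) K K'
    (fun t => hK _) (fun t => by rw [norm_neg]; exact hK' _)
    ((DD_cont ε hε κ _).comp hcont).neg
  have h7 : ∀ t : ℝ, (((Real.exp (-(lam i) * t) : ℝ) : ℂ) * w) *
      DD (pk ε κ) (Y (aR A) y0 (i.insertNth (α := fun _ => ℝ) t x'))
        ((C ((lam i : ℝ) : ℂ) + Lf (fun j => aR A j i)) * p) =
      w * (((Real.exp (-(lam i) * t) : ℝ) : ℂ) *
        (((lam i : ℝ) : ℂ) * DD (pk ε κ) (Y (aR A) y0 (i.insertNth (α := fun _ => ℝ) t x')) p -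
        -(DD (pk ε κ) (Y (aR A) y0 (i.insertNth (α := fun _ => ℝ) t x'))
          (Lf (fun j => aR A j i) * p)))) := by
    intro t
    rw [add_mul, map_add, C_mul', map_smul, smul_eq_mul]
    ring
  simp only [h7]
  rw [integral_const_mul, h6]
  simp

lemma HG_sum (A : Fin r → Fin (n+1) → ℤ) (ε : ℝ) (hε : 0 < ε) (κ : Fin r → ℕ)
    (lam : Fin (n+1) → ℝ) (hg : ∀ i, ∑ j, (κ j : ℝ) * (A j i : ℝ) < lam i)
    (y0 : Fin r → ℝ) (S : Finset (Fin (n+1))) {ι : Type*}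
    (t : Finset ι) (p : ι → MvPolynomial (Fin r) ℂ) :
    HG A ε κ lam y0 S (∑ c ∈ t, p c) = ∑ c ∈ t, HG A ε κ lam y0 S (p c) := by
  unfold HG
  simp only [map_sum, Finset.mul_sum]
  exact integral_finsetSum _ fun c _ => HG_integrable A ε hε κ lam hg y0 S _

lemma HG_add (A : Fin r → Fin (n+1) → ℤ) (ε : ℝ) (hε : 0 < ε) (κ : Fin r → ℕ)
    (lam : Fin (n+1) → ℝ) (hg : ∀ i, ∑ j, (κ j : ℝ) * (A j i : ℝ) < lam i)
    (y0 : Fin r → ℝ) (S : Finset (Fin (n+1))) (p q : MvPolynomial (Fin r) ℂ) :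
    HG A ε κ lam y0 S (p + q) = HG A ε κ lam y0 S p + HG A ε κ lam y0 S q := by
  unfold HG
  simp only [map_add, mul_add]
  exact integral_add (HG_integrable A ε hε κ lam hg y0 S _) (HG_integrable A ε hε κ lam hg y0 S _)

lemma HG_C (A : Fin r → Fin (n+1) → ℤ) (ε : ℝ) (κ : Fin r → ℕ)
    (lam : Fin (n+1) → ℝ) (y0 : Fin r → ℝ) (S : Finset (Fin (n+1))) (c : ℂ)
    (p : MvPolynomial (Fin r) ℂ) :
    HG A ε κ lam y0 S (C c * p) = c * HG A ε κ lam y0 S p := by
  unfold HG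
  rw [← integral_const_mul]
  refine integral_congr_ae (Eventually.of_forall fun x => ?_)
  simp only
  rw [C_mul', map_smul, smul_eq_mul]
  ring

/-- the functional vanishes if the integrand vanishes -/
lemma HG_zero (A : Fin r → Fin (n+1) → ℤ) (ε : ℝ) (κ : Fin r → ℕ) (lam : Fin (n+1) → ℝ)
    (y0 : Fin r → ℝ) (S : Finset (Fin (n+1))) (p : MvPolynomial (Fin r) ℂ)
    (h : ∀ x : Fin (n+1) → ℝ, (∀ i, 0 ≤ x i) → (∀ i ∈ S, x i = 0) →
      DD (pk ε κ) (Y (aR A) y0 x) p = 0) : HG A ε κ lam y0 S p = 0 := by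
  unfold HG
  refine integral_eq_zero_of_ae ?_
  filter_upwards [ae_ms S] with x hx
  rw [h x hx.1 hx.2, mul_zero]
  rfl

/-- `Φ` is a combination of the integrals `HG`. -/
lemma Φ_HG (A : Fin r → Fin (n+1) → ℤ) (M : ℕ) : ∃ cf : (Fin r → ℕ) → ℂ,
    ∀ (ε : ℝ), 0 < ε → ∀ (lam : Fin (n+1) → ℝ),
      (∀ κ : Fin r → ℕ, (∀ j, κ j ≤ M) → ∀ i, ∑ j, (κ j : ℝ) * (A j i : ℝ) < lam i) →
      ∀ (y0 : Fin r → ℝ) (p : MvPolynomial (Fin r) ℂ),
      Φ (ph ε) ∅ lam (aR A) y0 p = ∑ κ ∈ Fintype.piFinset (fun _ : Fin r => Finset.range (M+1)),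
        cf κ * HG A ε κ lam y0 ∅ (p * ∏ j, dm M j) := by
  obtain ⟨cf, hcf⟩ := DD_sum (r := r) M
  refine ⟨fun κ => ∏ j, cf (κ j), fun ε hε lam hg y0 p => ?_⟩
  unfold Φ HG
  simp only [← integral_const_mul]
  rw [← integral_finsetSum]
  · refine integral_congr_ae (Eventually.of_forall fun x => ?_)
    simp only
    rw [← hcf ε hε, Finset.mul_sum]
    exact Finset.sum_congr rfl fun κ _ => by ring
  · intro κ hκ
    have hκM : ∀ j, κ j ≤ M := fun j => by
      have := (Fintype.mem_piFinset.1 hκ) j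
      rw [Finset.mem_range] at this
      omega
    exact (HG_integrable A ε hε κ lam (hg κ hκM) y0 ∅ _).const_mul _

end Pool.Agent.W423.MG
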