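import Pool.Agent.W423.MG.Alg4
import Pool.Agent.W425.SG.Kill

set_option autoImplicit false

/-! The functional kills the relation. -/

namespace Pool.Agent.W423.MG

open MvPolynomial Pool.Agent.H628R4.TZ Pool.Agent.W425.SM
open Pool.Agent.H628R4.TP hiding Sh
open Pool.Agent.W525.SM (Sh)
open Pool.Agent.W423.MV
open MeasureTheory Set Filter Topology

variable {r N P : ℕ}

/-- the coordinate `τ_k` -/
def tc (k : Fin P) : Fin (P+N+1) := (Fin.castAdd N k).succ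

/-- the coordinate `w_i` -/
def wco (i : Fin N) : Fin (P+N+1) := (Fin.natAdd P i).succ

lemma wco_inj : Function.Injective (wco : Fin N → Fin (P+N+1)) := by
  intro i j h
  exact Fin.natAdd_injective N P (Fin.succ_injective _ h)

/-- embedding -/
def wE : Fin N ↪ Fin (P+N+1) := ⟨wco, wco_inj⟩

lemma wE_apply (i : Fin N) : (wE i : Fin (P+N+1)) = wco i := rfl

lemma tc_ne (k : Fin P) (i : Fin N) : (tc k : Fin (P+N+1)) ≠ wco i := by
  intro h
  have h1 := Fin.succ_injective _ h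
  have h2 := congrArg Fin.val h1
  simp only [Fin.val_castAdd, Fin.val_natAdd] at h2
  omega

lemma tc_ne0 (k : Fin P) : (tc k : Fin (P+N+1)) ≠ 0 := Fin.succ_ne_zero _

lemma wco_ne0 (i : Fin N) : (wco i : Fin (P+N+1)) ≠ 0 := Fin.succ_ne_zero _

lemma sum_coords {K : Type} [AddCommMonoid K] (f : Fin (P+N+1) → K) :
    ∑ x, f x = f 0 + (∑ k : Fin P, f (tc k) + ∑ i : Fin N, f (wco i)) := by
  rw [Fin.sum_univ_succ, Fin.sum_univ_add]
  rfl

lemma coords_cases {p : Fin (P+N+1) → Prop} (h0 : p 0) (ht : ∀ k, p (tc k))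
    (hw : ∀ i, p (wco i)) (x : Fin (P+N+1)) : p x := by
  refine Fin.cases h0 (fun y => ?_) x
  exact Fin.addCases (fun k => ht k) (fun i => hw i) y

/-- the sum of all exponents -/
def VV (e : Fin r → Fin N → ℕ) (i : Fin N) : ℕ := ∑ j, e j i

/-- the linear forms -/
def AG (g : Fin r → Fin (P+1)) (e : Fin r → Fin N → ℕ) (j : Fin r) : Fin (P+N+1) → ℤ :=
  Fin.cons (if g j = 0 then -1 else 0)
    (Fin.append (fun k : Fin P => if g j = k.succ then 1 else 0)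
      (fun i : Fin N => (e j i : ℤ) - if g j = 0 then 0 else (VV e i : ℤ)))

lemma AG_zero (g : Fin r → Fin (P+1)) (e : Fin r → Fin N → ℕ) (j : Fin r) :
    AG g e j 0 = if g j = 0 then -1 else 0 := rfl

lemma AG_tc (g : Fin r → Fin (P+1)) (e : Fin r → Fin N → ℕ) (j : Fin r) (k : Fin P) :
    AG g e j (tc k) = if g j = k.succ then 1 else 0 := by
  unfold AG tc
  rw [Fin.cons_succ, Fin.append_left]

lemma AG_wc (g : Fin r → Fin (P+1)) (e : Fin r → Fin N → ℕ) (j : Fin r) (i : Fin N) :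
    AG g e j (wco i) = (e j i : ℤ) - if g j = 0 then 0 else (VV e i : ℤ) := by
  unfold AG wco
  rw [Fin.cons_succ, Fin.append_right]

/-- the heights `t_k` -/
def Tk (e : Fin r → Fin N → ℕ) (x : Fin (P+N+1) → ℝ) : Fin (P+1) → ℝ :=
  Fin.cons (x 0) (fun k => ∑ i, (VV e i : ℝ) * x (wco i) - x (tc k))

/-- `⟨w, e_j⟩` -/
def we (e : Fin r → Fin N → ℕ) (x : Fin (P+N+1) → ℝ) (j : Fin r) : ℝ :=
  ∑ i, (e j i : ℝ) * x (wco i)

lemma yA_G (g : Fin r → Fin (P+1)) (e : Fin r → Fin N → ℕ) (x : Fin (P+N+1) → ℝ) (j : Fin r) :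
    yA (AG g e) x j = we e x j - Tk e x (g j) := by
  unfold yA we
  rw [sum_coords]
  simp only [AG_zero, AG_tc, AG_wc]
  rcases Fin.eq_zero_or_eq_succ (g j) with h | ⟨k, h⟩
  · have h1 : ∀ k : Fin P, (if g j = k.succ then (1:ℤ) else 0) = 0 := fun k => by
      rw [if_neg]
      intro h'
      rw [h] at h'
      exact (Fin.succ_ne_zero k) h'.symm
    simp only [h1, if_pos h]
    rw [h]
    have h2 : Tk e x (0 : Fin (P+1)) = x 0 := rfl
    rw [h2]
    push_cast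
    simp only [zero_mul, Finset.sum_const_zero, sub_zero]
    ring
  · have h0 : ¬ g j = 0 := fun h' => by
      rw [h] at h'
      exact (Fin.succ_ne_zero k) h'
    have h2 : ∑ k' : Fin P, (((if g j = k'.succ then (1:ℤ) else 0) : ℤ) : ℝ) *
        x (tc k') = x (tc k) := by
      rw [Finset.sum_eq_single k]
      · simp [h]
      · intro k' _ hk'
        rw [if_neg (fun h' => hk' (Fin.succ_injective _ (h.symm.trans h')).symm)]
        simp
      · intro h'; exact absurd (Finset.mem_univ _) h'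
    rw [h2]
    simp only [if_neg h0]
    rw [h]
    have h3 : Tk e x k.succ = ∑ i, (VV e i : ℝ) * x (wco i) - x (tc k) := by
      unfold Tk
      rw [Fin.cons_succ]
    rw [h3]
    push_cast
    simp only [sub_mul, Finset.sum_sub_distrib]
    ring

lemma gs_castR (g : Fin r → Fin (P+1)) (c : Fin r → ℤ) (k : Fin (P+1)) :
    gs g (fun j => (c j : ℝ)) k = ((gs g c k : ℤ) : ℝ) := by
  unfold gs
  push_cast
  rfl

lemma gs_mul_const (g : Fin r → Fin (P+1)) (c : Fin r → ℝ) (f : Fin (P+1) → ℝ) (k : Fin (P+1)) :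
    gs g (fun j => c j * f (g j)) k = gs g c k * f k := by
  unfold gs
  rw [Finset.sum_mul]
  refine Finset.sum_congr rfl fun j _ => ?_
  by_cases h : g j = k
  · simp [h]
  · simp [h]

/-- the translation vector -/
noncomputable def yTG (e : Fin r → Fin N → ℕ) (θ : Fin r → ℝ) (T δ ϑ : ℝ) (j : Fin r) : ℝ :=
  -T - δ * ∑ i, (e j i : ℝ) - ϑ * θ j

/-- what is known at a point where the integrand does not vanish -/
lemma nonvan2 (ε : ℝ) (hε : 0 < ε) (κ : Fin r → ℕ) (M : ℕ)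
    (hκ : ∀ j, κ j ≤ M) (c : Fin r → ℤ) (y : Fin r → ℝ) (q : MvPolynomial (Fin r) ℂ)
    (hne' : DD (pk ε κ) y ((∏ j, (if c j < 0 then X j * dm M j else 1)) * q) ≠ 0) :
    (∀ j, 0 ≤ y j) ∧ ∀ j, c j < 0 → y j ≤ ε := by
  refine ⟨?_, ?_⟩
  · intro j
    by_contra h
    exact hne' (DD_neg ε hε κ y j (not_le.1 h) _)
  · intro j hj
    by_contra h
    apply hne'
    have h3 : (X j + C ((κ j : ℕ) : ℂ)) ∣ (∏ j, (if c j < 0 then X j * dm M j else 1)) * q := by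
      refine Dvd.dvd.mul_right ?_ q
      refine (Xdm_dvd M j (κ j) (hκ j)).trans ?_
      have := Finset.dvd_prod_of_mem
        (fun j => (if c j < 0 then X j * dm M j else 1 : MvPolynomial (Fin r) ℂ)) (Finset.mem_univ j)
      simpa [hj] using this
    obtain ⟨w, hw⟩ := h3
    rw [hw]
    exact DD_tail ε hε κ y j (not_le.1 h) w

/-- the size of an exponent -/
noncomputable def sz (e : Fin r → Fin N → ℕ) (θ : Fin r → ℝ) (j : Fin r) : ℝ :=
  1 + ∑ i, (e j i : ℝ) + |θ j|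

lemma sz_nonneg (e : Fin r → Fin N → ℕ) (θ : Fin r → ℝ) (j : Fin r) : 0 ≤ sz e θ j := by
  unfold sz; positivity

lemma we_nonneg (e : Fin r → Fin N → ℕ) (x : Fin (P+N+1) → ℝ) (hx : ∀ i, 0 ≤ x i) (j : Fin r) :
    0 ≤ we e x j :=
  Finset.sum_nonneg fun i _ => mul_nonneg (Nat.cast_nonneg _) (hx _)

lemma y_eq (g : Fin r → Fin (P+1)) (e : Fin r → Fin N → ℕ) (θ : Fin r → ℝ) (T δ ϑ : ℝ)
    (x : Fin (P+N+1) → ℝ) (j : Fin r) : Y (aR (AG g e)) (yTG e θ T δ ϑ) x j =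
      we e x j - (Tk e x (g j) + T) - δ * ∑ i, (e j i : ℝ) - ϑ * θ j := by
  rw [Y_yA, yA_G, yTG]
  ring

/-- the terms with group sums 1 -/
lemma kill1 (g : Fin r → Fin (P+1)) (e : Fin r → Fin N → ℕ) (θ : Fin r → ℝ) (ε : ℝ) (hε : 0 < ε)
    (κ : Fin r → ℕ) (M : ℕ) (hκ : ∀ j, κ j ≤ M) (lam : Fin (P+N+1) → ℝ) (T δ ϑ : ℝ) (hϑ : 0 < ϑ)
    (c : Fin r → ℤ) (hc : ∀ k, gs g c k = 1)
    (hT : (ε + |δ| + ϑ) * ((P + 1) * (∑ j, |(c j : ℝ)| * sz e θ j + ∑ j, sz e θ j)) < T)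
    (q : MvPolynomial (Fin r) ℂ) :
    HG (AG g e) ε κ lam (yTG e θ T δ ϑ) ((Bc e c).map wE)
      ((∏ j, (if c j < 0 then X j * dm M j else 1)) * q) = 0 := by
  classical
  refine HG_zero _ _ _ _ _ _ _ fun x hx0 hxS => ?_
  by_contra hne
  obtain ⟨h1, h2⟩ := nonvan2 ε hε κ M hκ c _ q hne
  set y := Y (aR (AG g e)) (yTG e θ T δ ϑ) x with hy
  set sm := ε + |δ| + ϑ with hsm
  have hsm0 : 0 < sm := by positivity
  have hεs : ε ≤ sm := by rw [hsm]; linarith [abs_nonneg δ]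
  have hδs : |δ| ≤ sm := by rw [hsm]; linarith
  have hϑs : ϑ ≤ sm := by rw [hsm]; linarith [abs_nonneg δ]
  set Kc : ℝ := ∑ j, |(c j : ℝ)| * sz e θ j with hKc
  set Ke : ℝ := ∑ j, sz e θ j with hKe
  have hKc0 : 0 ≤ Kc := Finset.sum_nonneg fun j _ => mul_nonneg (abs_nonneg _) (sz_nonneg e θ j)
  have hKe0 : 0 ≤ Ke := Finset.sum_nonneg fun j _ => sz_nonneg e θ j
  have hyj : ∀ j, y j = we e x j - (Tk e x (g j) + T) - δ * ∑ i, (e j i : ℝ) - ϑ * θ j :=
    fun j => y_eq g e θ T δ ϑ x j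
  have hEj : ∀ j, 0 ≤ ∑ i, (e j i : ℝ) := fun j => Finset.sum_nonneg fun i _ => Nat.cast_nonneg _
  -- bound for one index
  have hone : ∀ j, (c j : ℝ) * (Tk e x (g j) + T) - sm * (|(c j : ℝ)| * sz e θ j) ≤
      (c j : ℝ) * we e x j := by
    intro j
    have h3 : -(ε * |(c j : ℝ)|) ≤ (c j : ℝ) * y j := by
      rcases lt_or_ge (c j) 0 with h | h
      · have h' : (c j : ℝ) < 0 := by exact_mod_cast h
        rw [abs_of_neg h']
        nlinarith [h2 j h]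
      · have h' : (0:ℝ) ≤ c j := by exact_mod_cast h
        rw [abs_of_nonneg h']
        nlinarith [h1 j, mul_nonneg h' (h1 j), mul_nonneg hε.le h']
    have h4 : (c j : ℝ) * we e x j = (c j : ℝ) * y j + (c j : ℝ) * (Tk e x (g j) + T) +
        δ * ((c j : ℝ) * ∑ i, (e j i : ℝ)) + ϑ * ((c j : ℝ) * θ j) := by
      rw [hyj]; ring
    have h5 : -(|δ| * (|(c j : ℝ)| * ∑ i, (e j i : ℝ))) ≤ δ * ((c j : ℝ) * ∑ i, (e j i : ℝ)) := by
      have := neg_abs_le (δ * ((c j : ℝ) * ∑ i, (e j i : ℝ)))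
      rwa [abs_mul, abs_mul, abs_of_nonneg (hEj j)] at this
    have h6 : -(ϑ * (|(c j : ℝ)| * |θ j|)) ≤ ϑ * ((c j : ℝ) * θ j) := by
      have := neg_abs_le (ϑ * ((c j : ℝ) * θ j))
      rwa [abs_mul, abs_mul, abs_of_pos hϑ] at this
    have h7 : ε * |(c j : ℝ)| ≤ sm * |(c j : ℝ)| :=
      mul_le_mul_of_nonneg_right hεs (abs_nonneg _)
    have h8 : |δ| * (|(c j : ℝ)| * ∑ i, (e j i : ℝ)) ≤ sm * (|(c j : ℝ)| * ∑ i, (e j i : ℝ)) :=
      mul_le_mul_of_nonneg_right hδs (mul_nonneg (abs_nonneg _) (hEj j))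
    have h9 : ϑ * (|(c j : ℝ)| * |θ j|) ≤ sm * (|(c j : ℝ)| * |θ j|) :=
      mul_le_mul_of_nonneg_right hϑs (mul_nonneg (abs_nonneg _) (abs_nonneg _))
    have h10 : sm * (|(c j : ℝ)| * sz e θ j) = sm * |(c j : ℝ)| +
        sm * (|(c j : ℝ)| * ∑ i, (e j i : ℝ)) + sm * (|(c j : ℝ)| * |θ j|) := by
      unfold sz; ring
    linarith
  -- the groups
  set G : Fin (P+1) → ℝ := gs g (fun j => (c j : ℝ) * we e x j) with hG
  have hGsum : ∑ k, G k ≤ 0 := by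
    rw [hG, sum_gs]
    have h3 : ∑ j, (c j : ℝ) * we e x j = ∑ i, ((Sh e c i : ℤ) : ℝ) * x (wco i) := by
      unfold we Sh
      push_cast
      simp only [Finset.mul_sum, Finset.sum_mul]
      rw [Finset.sum_comm]
      exact Finset.sum_congr rfl fun i _ => Finset.sum_congr rfl fun j _ => by ring
    rw [h3]
    refine Finset.sum_nonpos fun i _ => ?_
    rcases lt_or_ge 0 (Sh e c i) with h | h
    · have hiS : (wco i : Fin (P+N+1)) ∈ (Bc e c).map wE := by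
        rw [Finset.mem_map]
        exact ⟨i, by simpa [Bc, Sh] using h, rfl⟩
      rw [hxS _ hiS, mul_zero]
    · have h' : ((Sh e c i : ℤ) : ℝ) ≤ 0 := by exact_mod_cast h
      exact mul_nonpos_of_nonpos_of_nonneg h' (hx0 _)
  have hA : ∀ k, (Tk e x k + T) - sm * Kc ≤ G k := by
    intro k
    have h3 : (Tk e x k + T) = gs g (fun j => (c j : ℝ) * (Tk e x (g j) + T)) k := by
      have h4 := gs_mul_const g (fun j => (c j : ℝ)) (fun k => Tk e x k + T) k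
      rw [h4, gs_castR, hc]
      simp
    have h5 : gs g (fun j => sm * (|(c j : ℝ)| * sz e θ j)) k ≤ sm * Kc := by
      rw [hKc, Finset.mul_sum]
      unfold gs
      refine Finset.sum_le_sum fun j _ => ?_
      split_ifs
      · exact le_rfl
      · exact mul_nonneg hsm0.le (mul_nonneg (abs_nonneg _) (sz_nonneg e θ j))
    have h6 : gs g (fun j => (c j : ℝ) * (Tk e x (g j) + T)) k -
        gs g (fun j => sm * (|(c j : ℝ)| * sz e θ j)) k ≤ G k := by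
      rw [hG]
      unfold gs
      rw [← Finset.sum_sub_distrib]
      refine Finset.sum_le_sum fun j _ => ?_
      split_ifs
      · exact hone j
      · simp
    rw [h3]
    linarith
  have hB : ∀ k, -(sm * (Kc + Ke)) ≤ G k := by
    intro k
    by_cases hk : -(sm * Ke) ≤ Tk e x k + T
    · have := hA k
      nlinarith
    · have h3 : ∀ j, g j = k → 0 ≤ c j := by
        intro j hj
        by_contra h
        have h4 := h2 j (not_le.1 h)
        have h5 := hyj j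
        rw [hj] at h5
        have h6 := we_nonneg e x hx0 j
        have h7 : sz e θ j ≤ Ke :=
          Finset.single_le_sum (f := fun j => sz e θ j) (fun j _ => sz_nonneg e θ j)
            (Finset.mem_univ j)
        have h8 : sm * sz e θ j ≤ sm * Ke := mul_le_mul_of_nonneg_left h7 hsm0.le
        have h9 : δ * ∑ i, (e j i : ℝ) ≤ sm * ∑ i, (e j i : ℝ) :=
          mul_le_mul_of_nonneg_right ((le_abs_self δ).trans hδs) (hEj j)
        have h10 : ϑ * θ j ≤ sm * |θ j| := by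
          have a1 := mul_le_mul_of_nonneg_left (le_abs_self (θ j)) hϑ.le
          have a2 := mul_le_mul_of_nonneg_right hϑs (abs_nonneg (θ j))
          linarith
        have h11 : sm * sz e θ j = sm + sm * ∑ i, (e j i : ℝ) + sm * |θ j| := by
          unfold sz; ring
        push Not at hk
        linarith
      have h4 : 0 ≤ G k := by
        rw [hG]
        unfold gs
        refine Finset.sum_nonneg fun j _ => ?_
        split_ifs with h
        · exact mul_nonneg (by exact_mod_cast h3 j h) (we_nonneg e x hx0 j)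
        · exact le_rfl
      have : 0 ≤ sm * (Kc + Ke) := mul_nonneg hsm0.le (add_nonneg hKc0 hKe0)
      linarith
  have h0 : T - sm * Kc ≤ G 0 := by
    have h3 := hA 0
    have h4 : Tk e x 0 = x 0 := rfl
    rw [h4] at h3
    linarith [hx0 0]
  have hfin : T - sm * Kc - P * (sm * (Kc + Ke)) ≤ ∑ k, G k := by
    rw [Fin.sum_univ_succ]
    have h3 : -(P * (sm * (Kc + Ke))) ≤ ∑ k : Fin P, G k.succ := by
      have h4 : ∑ k : Fin P, -(sm * (Kc + Ke)) ≤ ∑ k : Fin P, G k.succ :=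
        Finset.sum_le_sum fun k _ => hB k.succ
      rw [Finset.sum_const, Finset.card_univ, Fintype.card_fin, nsmul_eq_mul] at h4
      linarith
    linarith
  have hend : sm * Kc + P * (sm * (Kc + Ke)) ≤ sm * ((P + 1) * (Kc + Ke)) := by
    nlinarith [mul_nonneg hsm0.le hKe0]
  linarith

/-- the terms with group sums 0 -/
lemma kill0 (g : Fin r → Fin (P+1)) (e : Fin r → Fin N → ℕ) (θ : Fin r → ℝ) (ε : ℝ) (hε : 0 < ε)
    (κ : Fin r → ℕ) (M : ℕ) (hκ : ∀ j, κ j ≤ M) (lam : Fin (P+N+1) → ℝ) (T δ ϑ : ℝ)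
    (c : Fin r → ℤ) (hc : ∀ k, gs g c k = 0) (hS : ∀ i, Sh e c i = 0)
    (hT : ε * (∑ j, |(c j : ℝ)|) < ϑ * ∑ j, (c j : ℝ) * θ j)
    (S : Finset (Fin (P+N+1))) (q : MvPolynomial (Fin r) ℂ) :
    HG (AG g e) ε κ lam (yTG e θ T δ ϑ) S
      ((∏ j, (if c j < 0 then X j * dm M j else 1)) * q) = 0 := by
  classical
  refine HG_zero _ _ _ _ _ _ _ fun x hx0 hxS => ?_
  by_contra hne
  obtain ⟨h1, h2⟩ := nonvan2 ε hε κ M hκ c _ q hne
  set y := Y (aR (AG g e)) (yTG e θ T δ ϑ) x with hy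
  have h3 : -(ε * ∑ j, |(c j : ℝ)|) ≤ ∑ j, (c j : ℝ) * y j := by
    rw [Finset.mul_sum, ← Finset.sum_neg_distrib]
    refine Finset.sum_le_sum fun j _ => ?_
    rcases lt_or_ge (c j) 0 with h | h
    · have h' : (c j : ℝ) < 0 := by exact_mod_cast h
      rw [abs_of_neg h']
      nlinarith [h2 j h]
    · have h' : (0:ℝ) ≤ c j := by exact_mod_cast h
      rw [abs_of_nonneg h']
      nlinarith [h1 j, mul_nonneg h' (h1 j), mul_nonneg hε.le h']
  have h4 : ∑ j, (c j : ℝ) * we e x j = 0 := by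
    have h5 : ∑ j, (c j : ℝ) * we e x j = ∑ i, ((Sh e c i : ℤ) : ℝ) * x (wco i) := by
      unfold we Sh
      push_cast
      simp only [Finset.mul_sum, Finset.sum_mul]
      rw [Finset.sum_comm]
      exact Finset.sum_congr rfl fun i _ => Finset.sum_congr rfl fun j _ => by ring
    rw [h5]
    exact Finset.sum_eq_zero fun i _ => by rw [hS i]; simp
  have h5 : ∑ j, (c j : ℝ) * (Tk e x (g j) + T) = 0 := by
    have h6 : ∀ k, gs g (fun j => (c j : ℝ) * (Tk e x (g j) + T)) k = 0 := by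
      intro k
      have h7 := gs_mul_const g (fun j => (c j : ℝ)) (fun k => Tk e x k + T) k
      rw [h7, gs_castR, hc]
      simp
    rw [← sum_gs g]
    exact Finset.sum_eq_zero fun k _ => h6 k
  have h6 : ∑ j, (c j : ℝ) * ∑ i, (e j i : ℝ) = 0 := by
    have h7 : ∑ j, (c j : ℝ) * ∑ i, (e j i : ℝ) = ∑ i, ((Sh e c i : ℤ) : ℝ) := by
      unfold Sh
      push_cast
      simp only [Finset.mul_sum]
      rw [Finset.sum_comm]
    rw [h7]
    exact Finset.sum_eq_zero fun i _ => by rw [hS i]; simp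
  have h7 : ∑ j, (c j : ℝ) * y j = ∑ j, (c j : ℝ) * we e x j -
      ∑ j, (c j : ℝ) * (Tk e x (g j) + T) - δ * ∑ j, (c j : ℝ) * ∑ i, (e j i : ℝ) -
      ϑ * ∑ j, (c j : ℝ) * θ j := by
    rw [Finset.mul_sum, Finset.mul_sum, ← Finset.sum_sub_distrib, ← Finset.sum_sub_distrib,
      ← Finset.sum_sub_distrib]
    refine Finset.sum_congr rfl fun j _ => ?_
    rw [hy, y_eq]
    ring
  rw [h7, h4, h5, h6] at h3
  linarith

/-! ### Stokes in the special coordinates -/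

/-- the weights -/
noncomputable def lamG (s : ℝ) (nn : Fin P → ℕ) (μ : Fin N → ℝ) : Fin (P+N+1) → ℝ :=
  lw (Fin.append (fun k => (nn k : ℝ)) μ) s

lemma lamG_zero (s : ℝ) (nn : Fin P → ℕ) (μ : Fin N → ℝ) : lamG s nn μ 0 = s := rfl

lemma lamG_tc (s : ℝ) (nn : Fin P → ℕ) (μ : Fin N → ℝ) (k : Fin P) :
    lamG s nn μ (tc k) = nn k := by
  unfold lamG lw tc
  rw [Fin.cons_succ, Fin.append_left]

lemma lamG_wc (s : ℝ) (nn : Fin P → ℕ) (μ : Fin N → ℝ) (i : Fin N) :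
    lamG s nn μ (wco i) = μ i := by
  unfold lamG lw wco
  rw [Fin.cons_succ, Fin.append_right]

/-- `n_k + σ_k` -/
noncomputable def tpol (g : Fin r → Fin (P+1)) (nn : Fin P → ℕ) (k : Fin P) :
    MvPolynomial (Fin r) ℂ := C ((nn k : ℕ) : ℂ) + sgm g k.succ

lemma Lf_tc (g : Fin r → Fin (P+1)) (e : Fin r → Fin N → ℕ) (k : Fin P) :
    Lf (fun j => aR (AG g e) j (tc k)) = sgm g k.succ := by
  unfold Lf sgm gs aR
  refine Finset.sum_congr rfl fun j _ => ?_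
  simp only [AG_tc]
  split_ifs <;> simp

lemma tpol_eq (g : Fin r → Fin (P+1)) (e : Fin r → Fin N → ℕ) (s : ℝ) (nn : Fin P → ℕ)
    (μ : Fin N → ℝ) (k : Fin P) : tpol g nn k =
      C ((lamG s nn μ (tc k) : ℝ) : ℂ) + Lf (fun j => aR (AG g e) j (tc k)) := by
  rw [Lf_tc, lamG_tc, tpol]
  simp

lemma elw_eq (g : Fin r → Fin (P+1)) (e : Fin r → Fin N → ℕ) (s : ℝ) (nn : Fin P → ℕ)
    (μ : Fin N → ℝ) (m : Fin N → ℕ) (i : Fin N)
    (hμ : (m i : ℝ) + 1 = μ i + (VV e i : ℝ) * ∑ k, (nn k : ℝ)) :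
    elw (mw m) e i = (C ((lamG s nn μ (wco i) : ℝ) : ℂ) + Lf (fun j => aR (AG g e) j (wco i))) +
      C ((VV e i : ℕ) : ℂ) * ∑ k, tpol g nn k := by
  unfold elw Lf mw
  have h1 : ∑ k : Fin P, sgm g k.succ =
      ∑ j, (if g j = 0 then 0 else (X j : MvPolynomial (Fin r) ℂ)) := by
    have h2 : ∑ k, sgm g k = ∑ j, (X j : MvPolynomial (Fin r) ℂ) := sum_gs g X
    rw [Fin.sum_univ_succ] at h2
    have h3 : ∑ j, (if g j = 0 then 0 else (X j : MvPolynomial (Fin r) ℂ)) =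
        ∑ j, (X j : MvPolynomial (Fin r) ℂ) - sgm g 0 := by
      unfold sgm gs
      rw [← Finset.sum_sub_distrib]
      refine Finset.sum_congr rfl fun j _ => ?_
      split_ifs <;> ring
    rw [h3, ← h2]
    ring
  unfold tpol
  rw [Finset.sum_add_distrib, h1, hμ, lamG_wc]
  have h4 : ∀ j, (C (((aR (AG g e) j (wco i)) : ℝ) : ℂ) * X j : MvPolynomial (Fin r) ℂ) =
      C (((e j i : ℕ) : ℝ) : ℂ) * X j -
        C ((VV e i : ℕ) : ℂ) * (if g j = 0 then 0 else (X j : MvPolynomial (Fin r) ℂ)) := by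
    intro j
    unfold aR
    rw [AG_wc]
    split_ifs
    · push_cast
      simp
    · push_cast
      rw [map_sub, sub_mul]
  simp only [h4]
  rw [Finset.sum_sub_distrib, ← Finset.mul_sum]
  push_cast
  simp only [map_add, map_mul, map_sum]
  ring

section Stokes

variable (g : Fin r → Fin (P+1)) (e : Fin r → Fin N → ℕ) (ε : ℝ) (κ : Fin r → ℕ)
  (s : ℝ) (nn : Fin P → ℕ) (μ : Fin N → ℝ) (y0 : Fin r → ℝ)

lemma HG_tzero (hε : 0 < ε) (hg : ∀ i, ∑ j, (κ j : ℝ) * (AG g e j i : ℝ) < lamG s nn μ i)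
    (hgr : ∀ k : Fin P, ∃ j, g j = k.succ) (hy0 : ∀ j, y0 j < 0) (S : Finset (Fin N)) (k : Fin P)
    (p : MvPolynomial (Fin r) ℂ) :
    HG (AG g e) ε κ (lamG s nn μ) y0 (S.map wE) (tpol g nn k * p) = 0 := by
  classical
  rw [tpol_eq g e s nn μ k, HG_step (AG g e) ε hε κ _ hg y0 (S.map wE) (tc k) (by
    rw [Finset.mem_map]
    rintro ⟨i, _, h⟩
    exact tc_ne k i h.symm) p]
  refine HG_zero _ _ _ _ _ _ _ fun x hx0 hxS => ?_
  obtain ⟨j, hj⟩ := hgr k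
  refine DD_neg ε hε κ _ j ?_ _
  rw [Y_yA, yA_G, hj]
  have h1 : Tk e x k.succ = ∑ i, (VV e i : ℝ) * x (wco i) := by
    unfold Tk
    rw [Fin.cons_succ, hxS (tc k) (Finset.mem_insert_self _ _), sub_zero]
  rw [h1]
  have h2 : we e x j ≤ ∑ i, (VV e i : ℝ) * x (wco i) := by
    unfold we
    refine Finset.sum_le_sum fun i _ => mul_le_mul_of_nonneg_right ?_ (hx0 _)
    have : e j i ≤ VV e i :=
      Finset.single_le_sum (f := fun j => e j i) (fun _ _ => Nat.zero_le _) (Finset.mem_univ j)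
    exact_mod_cast this
  linarith [hy0 j]

lemma HG_wstep (hε : 0 < ε) (hg : ∀ i, ∑ j, (κ j : ℝ) * (AG g e j i : ℝ) < lamG s nn μ i)
    (hgr : ∀ k : Fin P, ∃ j, g j = k.succ) (hy0 : ∀ j, y0 j < 0) (m : Fin N → ℕ)
    (hμ : ∀ i, (m i : ℝ) + 1 = μ i + (VV e i : ℝ) * ∑ k, (nn k : ℝ)) (S : Finset (Fin N))
    (i : Fin N) (hi : i ∉ S) (p : MvPolynomial (Fin r) ℂ) :
    HG (AG g e) ε κ (lamG s nn μ) y0 (S.map wE) (elw (mw m) e i * p) =
      HG (AG g e) ε κ (lamG s nn μ) y0 ((insert i S).map wE) p := by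
  classical
  rw [elw_eq g e s nn μ m i (hμ i), add_mul, HG_add _ ε hε κ _ hg,
    HG_step (AG g e) ε hε κ _ hg y0 (S.map wE) (wco i) (by
    rw [Finset.mem_map]
    rintro ⟨i', hi', h⟩
    exact hi (wco_inj h ▸ hi')) p, mul_assoc, Finset.sum_mul, HG_C, HG_sum _ ε hε κ _ hg,
    Finset.sum_eq_zero (fun k _ => HG_tzero g e ε κ s nn μ y0 hε hg hgr hy0 S k p), mul_zero,
    add_zero, Finset.map_insert]
  rfl

lemma HG_wsteps (hε : 0 < ε) (hg : ∀ i, ∑ j, (κ j : ℝ) * (AG g e j i : ℝ) < lamG s nn μ i)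
    (hgr : ∀ k : Fin P, ∃ j, g j = k.succ) (hy0 : ∀ j, y0 j < 0) (m : Fin N → ℕ)
    (hμ : ∀ i, (m i : ℝ) + 1 = μ i + (VV e i : ℝ) * ∑ k, (nn k : ℝ)) (B : Finset (Fin N)) :
    ∀ (S : Finset (Fin N)) (p : MvPolynomial (Fin r) ℂ), Disjoint B S →
    HG (AG g e) ε κ (lamG s nn μ) y0 (S.map wE) ((∏ i ∈ B, elw (mw m) e i) * p) =
      HG (AG g e) ε κ (lamG s nn μ) y0 ((B ∪ S).map wE) p := by
  classical
  induction B using Finset.induction_on with
  | empty => intro S p _; simp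
  | insert i B hi ih =>
    intro S p hB
    rw [Finset.disjoint_insert_left] at hB
    rw [Finset.prod_insert hi, mul_assoc,
      HG_wstep g e ε κ s nn μ y0 hε hg hgr hy0 m hμ S i hB.1, ih _ _
      (by rw [Finset.disjoint_insert_right]; exact ⟨hi, hB.2⟩), Finset.insert_union,
      Finset.union_insert]

end Stokes

/-- **The functional kills `k * b'_m`.** -/
theorem killsG (g : Fin r → Fin (P+1)) (e : Fin r → Fin N → ℕ) (θ : Fin r → ℝ)
    (hgr : ∀ k : Fin P, ∃ j, g j = k.succ) (b' : MvPolynomial (Ix P N) ℂ) (M : ℕ)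
    (Cs Cs0 : Finset (Fin r → ℤ)) (hR : RelG g e θ b' M Cs Cs0) :
    ∃ K0 : ℝ, 0 ≤ K0 ∧ ∀ (m : Fin N → ℕ) (nn : Fin P → ℕ) (μ : Fin N → ℝ) (s : ℝ),
      (∀ i, (m i : ℝ) + 1 = μ i + (VV e i : ℝ) * ∑ k, (nn k : ℝ)) →
      (∀ κ : Fin r → ℕ, (∀ j, κ j ≤ M) → ∀ i, ∑ j, (κ j : ℝ) * (AG g e j i : ℝ) < lamG s nn μ i) →
      ∀ kk : MvPolynomial (Fin r) ℂ, ∀ ε > 0, ∀ ϑ > 0, ε * K0 < ϑ →
      ∀ δ T : ℝ, (ε + |δ| + ϑ) * K0 < T →
      (∀ j, yTG e θ T δ ϑ j < 0) ∧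
      Φ (ph ε) ∅ (lamG s nn μ) (aR (AG g e)) (yTG e θ T δ ϑ) (kk * btm g m b') = 0 := by
  classical
  obtain ⟨hc, hc0, hrel⟩ := hR
  set K1 : ℝ := ∑ c ∈ Cs, ((P + 1) * (∑ j, |(c j : ℝ)| * sz e θ j + ∑ j, sz e θ j)) with hK1
  set K2 : ℝ := ∑ j, sz e θ j with hK2
  set K3 : ℝ := ∑ c ∈ Cs0, |∑ j, (c j : ℝ) * θ j|⁻¹ * ∑ j, |(c j : ℝ)| with hK3
  have hterm : ∀ c : Fin r → ℤ,
      0 ≤ ((P:ℝ) + 1) * (∑ j, |(c j : ℝ)| * sz e θ j + ∑ j, sz e θ j) := fun c =>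
    mul_nonneg (by positivity) (add_nonneg
      (Finset.sum_nonneg fun j _ => mul_nonneg (abs_nonneg _) (sz_nonneg e θ j))
      (Finset.sum_nonneg fun j _ => sz_nonneg e θ j))
  have hK1' : 0 ≤ K1 := Finset.sum_nonneg fun c _ => hterm c
  have hK2' : 0 ≤ K2 := Finset.sum_nonneg fun j _ => sz_nonneg e θ j
  have hK3' : 0 ≤ K3 := by positivity
  obtain ⟨cf, hcf⟩ := Φ_HG (AG g e) M
  refine ⟨K1 + K2 + K3, by positivity, fun m nn μ s hμ hgrow kk ε hε ϑ hϑ hεϑ δ T hT => ?_⟩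
  have hsm : 0 < ε + |δ| + ϑ := by positivity
  have hT1 : (ε + |δ| + ϑ) * K1 < T := by
    refine lt_of_le_of_lt (mul_le_mul_of_nonneg_left ?_ hsm.le) hT
    linarith
  have hT2 : (ε + |δ| + ϑ) * K2 < T := by
    refine lt_of_le_of_lt (mul_le_mul_of_nonneg_left ?_ hsm.le) hT
    linarith
  have hεϑ1 : ε * K3 < ϑ := by
    refine lt_of_le_of_lt (mul_le_mul_of_nonneg_left ?_ hε.le) hεϑ
    linarith
  have hy0 : ∀ j, yTG e θ T δ ϑ j < 0 := by
    intro j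
    have h7 : sz e θ j ≤ K2 :=
      Finset.single_le_sum (f := fun j => sz e θ j) (fun j _ => sz_nonneg e θ j)
        (Finset.mem_univ j)
    have h8 := mul_le_mul_of_nonneg_left h7 hsm.le
    have hE : 0 ≤ ∑ i, (e j i : ℝ) := Finset.sum_nonneg fun i _ => Nat.cast_nonneg _
    have h9 : -(δ * ∑ i, (e j i : ℝ)) ≤ (ε + |δ| + ϑ) * ∑ i, (e j i : ℝ) := by
      have a1 : -δ ≤ ε + |δ| + ϑ := by linarith [neg_abs_le δ]
      nlinarith
    have h10 : -(ϑ * θ j) ≤ (ε + |δ| + ϑ) * |θ j| := by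
      have a1 : -(θ j) ≤ |θ j| := neg_le_abs _
      have a2 : ϑ ≤ ε + |δ| + ϑ := by linarith [abs_nonneg δ]
      nlinarith [abs_nonneg (θ j), mul_le_mul_of_nonneg_left a1 hϑ.le,
        mul_le_mul_of_nonneg_right a2 (abs_nonneg (θ j))]
    have h11 : (ε + |δ| + ϑ) * sz e θ j = (ε + |δ| + ϑ) + (ε + |δ| + ϑ) * ∑ i, (e j i : ℝ) +
        (ε + |δ| + ϑ) * |θ j| := by
      unfold sz; ring
    unfold yTG
    linarith
  refine ⟨hy0, ?_⟩
  obtain ⟨q, q0, hq⟩ := hrel m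
  rw [hcf ε hε _ hgrow]
  refine Finset.sum_eq_zero fun κ hκ => ?_
  have hκM : ∀ j, κ j ≤ M := fun j => by
    have := (Fintype.mem_piFinset.1 hκ) j
    rw [Finset.mem_range] at this
    omega
  have hgr' := hgrow κ hκM
  have h3 : (kk * btm g m b') * ∏ j, dm M j =
      ∑ c ∈ Cs, (∏ i ∈ Bc e c, elw (mw m) e i) *
        ((∏ j, if c j < 0 then X j * dm M j else 1) * (kk * q c)) +
      ∑ c ∈ Cs0, (∏ j, if c j < 0 then X j * dm M j else 1) * (kk * q0 c) := by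
    rw [mul_assoc, hq, mul_add, Rsum, Finset.mul_sum, Finset.mul_sum]
    refine congrArg₂ (· + ·) (Finset.sum_congr rfl fun c _ => ?_)
      (Finset.sum_congr rfl fun c _ => ?_)
    · rw [mul_left_comm kk, mul_left_comm kk]
    · rw [mul_left_comm kk]
  have hB : ∀ c ∈ Cs0, HG (AG g e) ε κ (lamG s nn μ) (yTG e θ T δ ϑ) ∅
      ((∏ j, if c j < 0 then X j * dm M j else 1) * (kk * q0 c)) = 0 := by
    intro c hcc
    obtain ⟨h1, h2, h4⟩ := hc0 c hcc
    refine kill0 g e θ ε hε κ M hκM _ T δ ϑ c h1 h2 ?_ _ _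
    have h7 := Finset.single_le_sum
      (f := fun c : Fin r → ℤ => |∑ j, (c j : ℝ) * θ j|⁻¹ * ∑ j, |(c j : ℝ)|)
      (fun c _ => by positivity) hcc
    rw [abs_of_pos h4] at h7
    have h8 : ε * ((∑ j, (c j : ℝ) * θ j)⁻¹ * ∑ j, |(c j : ℝ)|) < ϑ :=
      lt_of_le_of_lt (mul_le_mul_of_nonneg_left h7 hε.le) hεϑ1
    have h9 := mul_lt_mul_of_pos_left h8 h4
    have h10 : (∑ j, (c j : ℝ) * θ j) * (ε * ((∑ j, (c j : ℝ) * θ j)⁻¹ *
        ∑ j, |(c j : ℝ)|)) = ε * ∑ j, |(c j : ℝ)| := by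
      have := h4.ne'
      field_simp
    rw [h10] at h9
    linarith
  have hA : ∀ c ∈ Cs, HG (AG g e) ε κ (lamG s nn μ) (yTG e θ T δ ϑ) ∅
      ((∏ i ∈ Bc e c, elw (mw m) e i) *
        ((∏ j, if c j < 0 then X j * dm M j else 1) * (kk * q c))) = 0 := by
    intro c hcc
    have h5 := HG_wsteps g e ε κ s nn μ (yTG e θ T δ ϑ) hε hgr' hgr hy0 m hμ (Bc e c) ∅
      ((∏ j, if c j < 0 then X j * dm M j else 1) * (kk * q c)) (Finset.disjoint_empty_right _)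
    rw [Finset.map_empty, Finset.union_empty] at h5
    rw [h5]
    refine kill1 g e θ ε hε κ M hκM _ T δ ϑ hϑ c (hc c hcc) (lt_of_le_of_lt ?_ hT1) _
    refine mul_le_mul_of_nonneg_left ?_ hsm.le
    exact Finset.single_le_sum (f := fun c : Fin r → ℤ =>
      ((P:ℝ) + 1) * (∑ j, |(c j : ℝ)| * sz e θ j + ∑ j, sz e θ j)) (fun c _ => hterm c) hcc
  rw [h3, HG_add _ ε hε κ _ hgr', HG_sum _ ε hε κ _ hgr', HG_sum _ ε hε κ _ hgr',
    Finset.sum_eq_zero hA, Finset.sum_eq_zero hB, add_zero, mul_zero]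

end Pool.Agent.W423.MG
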