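import Pool.Agent.W423.MG.Lin
import Pool.Agent.W327.SG.C2

set_option autoImplicit false

/-! The limit of the smoothed integrals, general systems of linear forms. -/

namespace Pool.Agent.W423.MG

open MvPolynomial Pool.Agent.H628R4.TZ MeasureTheory Filter Topology
open Pool.Agent.W425.SM Pool.Agent.W423.MV
open Pool.Agent.W349.SM (rho rho_cont rho_int rho_integral ph_one_scale scale_fst exp_abs_int
  stp_bd)
open Pool.Agent.W327.SG (ev_posw ev_negw)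

variable {r n : ℕ}

/-- `A_l` is the linear combination of the `A_j`, `j ∈ J`, with the coefficients `c_j`. -/
def CombA (A : Fin r → Fin (n+1) → ℤ) (J : Finset (Fin r)) (l : Fin r) (c : Fin r → ℚ) : Prop :=
  (∀ j, j ∉ J → c j = 0) ∧ ∀ i, ∑ j, c j * (A j i : ℚ) = (A l i : ℚ)

/-- admissible simplices -/
def AdmA (A : Fin r → Fin (n+1) → ℤ) (θ : Fin r → ℝ) (J : Finset (Fin r)) : Prop :=
  ∀ l, l ∉ J → ∀ c : Fin r → ℚ, CombA A J l c → θ l < ∑ j, (c j : ℝ) * θ j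

/-- the translation of the forms -/
noncomputable def yo (A : Fin r → Fin (n+1) → ℤ) (θ : Fin r → ℝ) (β : Fin (n+1) → ℝ) (m : ℕ)
    (j : Fin r) : ℝ := -(dl m * yA A β j) - dl m ^ 2 * θ j

/-- The integrand for `J`. -/
noncomputable def integA (A : Fin r → Fin (n+1) → ℤ) (θ : Fin r → ℝ) (lam β : Fin (n+1) → ℝ)
    (J : Finset (Fin r)) (m : ℕ) (x : Fin (n+1) → ℝ) : ℂ :=
  wt lam x * ∏ j, (((if j ∈ J then -ph (dl m ^ 4) 1 (yA A x j + yo A θ β m j)
    else ph (dl m ^ 4) 0 (yA A x j + yo A θ β m j) : ℝ)) : ℂ)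

/-- the condition of the limit integrand -/
def CondA (A : Fin r → Fin (n+1) → ℤ) (β : Fin (n+1) → ℝ) (J : Finset (Fin r))
    (x : Fin (n+1) → ℝ) : Prop :=
  (∀ i, 0 < x i ∨ (x i = 0 ∧ 0 < β i)) ∧ ∀ l, (∀ c, ¬ CombA A J l c) → 0 < yA A x l

/-- the limit integrand -/
noncomputable def limGA (A : Fin r → Fin (n+1) → ℤ) (θ : Fin r → ℝ) (lam β : Fin (n+1) → ℝ)
    (J : Finset (Fin r)) (x : Fin (n+1) → ℝ) : ℂ :=
  open Classical in if CondA A β J x ∧ AdmA A θ J then wt lam x else 0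

/-- `yA` as a linear map -/
noncomputable def yL (A : Fin r → Fin (n+1) → ℤ) (j : Fin r) : (Fin (n+1) → ℝ) →ₗ[ℝ] ℝ :=
  ∑ i, (A j i : ℝ) • LinearMap.proj i

lemma yL_apply (A : Fin r → Fin (n+1) → ℤ) (j : Fin r) (x : Fin (n+1) → ℝ) :
    yL A j x = yA A x j := by
  simp [yL, yA]

lemma yA_add (A : Fin r → Fin (n+1) → ℤ) (j : Fin r) (x y : Fin (n+1) → ℝ) :
    yA A (x + y) j = yA A x j + yA A y j := by
  rw [← yL_apply, map_add, yL_apply, yL_apply]

lemma yA_smul (A : Fin r → Fin (n+1) → ℤ) (j : Fin r) (c : ℝ) (x : Fin (n+1) → ℝ) :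
    yA A (c • x) j = c * yA A x j := by
  rw [← yL_apply, map_smul, yL_apply, smul_eq_mul]

lemma yA_cont (A : Fin r → Fin (n+1) → ℤ) (j : Fin r) : Continuous (fun x => yA A x j) := by
  unfold yA
  fun_prop

lemma wt_contA (lam : Fin (n+1) → ℝ) : Continuous (wt lam) := by
  unfold wt
  fun_prop

variable {J : Finset (Fin r)} {d : ℕ}

/-! ### Combinations -/

lemma combA_self (A : Fin r → Fin (n+1) → ℤ) {j : Fin r} (hj : j ∈ J) :
    CombA A J j (Pi.single j 1) := by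
  refine ⟨fun k hk => ?_, fun i => ?_⟩
  · rw [Pi.single_apply, if_neg]
    rintro rfl
    exact hk hj
  · simp [Pi.single_apply]

lemma combA_y (A : Fin r → Fin (n+1) → ℤ) {l : Fin r} {c : Fin r → ℚ} (h : CombA A J l c)
    (x : Fin (n+1) → ℝ) : yA A x l = ∑ j, (c j : ℝ) * yA A x j := by
  unfold yA
  have h2 : ∀ i, ∑ j, (c j : ℝ) * (A j i : ℝ) = (A l i : ℝ) := by
    intro i
    exact_mod_cast h.2 i
  calc ∑ i, (A l i : ℝ) * x i
      = ∑ i, (∑ j, (c j : ℝ) * (A j i : ℝ)) * x i :=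
        Finset.sum_congr rfl fun i _ => by rw [h2]
    _ = ∑ j, (c j : ℝ) * (∑ i, (A j i : ℝ) * x i) := by
        simp_rw [Finset.mul_sum, Finset.sum_mul]
        rw [Finset.sum_comm]
        exact Finset.sum_congr rfl fun j _ => Finset.sum_congr rfl fun i _ => by ring

lemma combA_zero (A : Fin r → Fin (n+1) → ℤ) {l : Fin r} {c : Fin r → ℚ} (h : CombA A J l c)
    (x : Fin (n+1) → ℝ) (hx : ∀ j ∈ J, yA A x j = 0) : yA A x l = 0 := by
  rw [combA_y A h]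
  refine Finset.sum_eq_zero fun j _ => ?_
  by_cases hj : j ∈ J
  · rw [hx j hj, mul_zero]
  · rw [h.1 j hj]
    simp

/-- the rational forms -/
noncomputable def yQ (A : Fin r → Fin (n+1) → ℤ) (j : Fin r) : (Fin (n+1) → ℚ) →ₗ[ℚ] ℚ :=
  ∑ i, (A j i : ℚ) • LinearMap.proj i

lemma yQ_apply (A : Fin r → Fin (n+1) → ℤ) (j : Fin r) (x : Fin (n+1) → ℚ) :
    yQ A j x = ∑ i, (A j i : ℚ) * x i := by
  simp [yQ]

lemma form_neA (A : Fin r → Fin (n+1) → ℤ)
    {Θ : ((J → ℝ) × (Fin d → ℝ)) ≃ₗ[ℝ] (Fin (n+1) → ℝ)} {κ : ℝ} (hA : AdaptA A J d Θ κ)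
    (l : Fin r) (hl : ∀ c, ¬ CombA A J l c) : ∃ a : Fin d → ℝ, yA A (Θ (0, a)) l ≠ 0 := by
  classical
  have h1 : ¬ (⨅ j : J, LinearMap.ker (yQ A j) ≤ LinearMap.ker (yQ A l)) := by
    intro hle
    have h2 := mem_span_of_iInf_ker_le_ker hle
    rw [Submodule.mem_span_range_iff_exists_fun] at h2
    obtain ⟨c, hc⟩ := h2
    refine hl (fun j => if h : j ∈ J then c ⟨j, h⟩ else 0) ⟨fun j hj => by simp [hj], fun i => ?_⟩
    have h3 := LinearMap.congr_fun hc (fun k => if k = i then 1 else 0)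
    simp only [LinearMap.sum_apply, LinearMap.smul_apply, yQ_apply, mul_ite, mul_one, mul_zero,
      Finset.sum_ite_eq', Finset.mem_univ, if_true, smul_eq_mul] at h3
    rw [← h3]
    exact Pool.Agent.W327.SG.sum_ext c (fun j => (A j i : ℚ))
  rw [SetLike.not_le_iff_exists] at h1
  obtain ⟨x, hx1, hx2⟩ := h1
  rw [Submodule.mem_iInf] at hx1
  rw [LinearMap.mem_ker] at hx2
  set X : Fin (n+1) → ℝ := fun i => (x i : ℝ) with hX
  have h3 : ∀ j, yA A X j = ((yQ A j x : ℚ) : ℝ) := by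
    intro j
    rw [yQ_apply]
    unfold yA
    rw [hX]
    push_cast
    rfl
  have h4 : (Θ.symm X).1 = 0 := by
    funext j
    have h5 := hA.y (Θ.symm X).1 (Θ.symm X).2 j
    rw [Prod.mk.eta, LinearEquiv.apply_symm_apply, h3, LinearMap.mem_ker.1 (hx1 j)] at h5
    rw [← h5]
    simp
  refine ⟨(Θ.symm X).2, ?_⟩
  rw [← h4, Prod.mk.eta, LinearEquiv.apply_symm_apply, h3]
  exact_mod_cast hx2

/-! ### The substitution -/

/-- the point with `y_j = θ_j`, `j ∈ J` -/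
noncomputable def uJ (θ : Fin r → ℝ) (Θ : ((J → ℝ) × (Fin d → ℝ)) ≃ₗ[ℝ] (Fin (n+1) → ℝ)) :
    Fin (n+1) → ℝ := Θ (fun j : J => θ j, 0)

noncomputable def XA (θ : Fin r → ℝ) (Θ : ((J → ℝ) × (Fin d → ℝ)) ≃ₗ[ℝ] (Fin (n+1) → ℝ))
    (β : Fin (n+1) → ℝ) (m : ℕ) (p : (J → ℝ) × (Fin d → ℝ)) : Fin (n+1) → ℝ :=
  Θ ((dl m) ^ 4 • p.1, p.2) + (dl m • β + (dl m) ^ 2 • uJ θ Θ)

/-- the argument of the smoothed step function -/
noncomputable def agA (A : Fin r → Fin (n+1) → ℤ) (θ : Fin r → ℝ)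
    (Θ : ((J → ℝ) × (Fin d → ℝ)) ≃ₗ[ℝ] (Fin (n+1) → ℝ)) (m : ℕ) (p : (J → ℝ) × (Fin d → ℝ))
    (j : Fin r) : ℝ :=
  yA A (Θ ((dl m) ^ 4 • p.1, p.2)) j + (dl m) ^ 2 * (yA A (uJ θ Θ) j - θ j)

open Classical in
noncomputable def HA (A : Fin r → Fin (n+1) → ℤ) (θ : Fin r → ℝ)
    (Θ : ((J → ℝ) × (Fin d → ℝ)) ≃ₗ[ℝ] (Fin (n+1) → ℝ)) (lam β : Fin (n+1) → ℝ) (m : ℕ)
    (p : (J → ℝ) × (Fin d → ℝ)) : ℂ :=
  (if ∀ i, 0 < XA θ Θ β m p i then wt lam (XA θ Θ β m p) else 0) *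
    (((∏ j : J, rho (p.1 j)) * ∏ j ∈ Jᶜ, stp ((dl m) ^ 4) (agA A θ Θ m p j) : ℝ) : ℂ)

lemma XA_y (A : Fin r → Fin (n+1) → ℤ) (θ : Fin r → ℝ)
    (Θ : ((J → ℝ) × (Fin d → ℝ)) ≃ₗ[ℝ] (Fin (n+1) → ℝ)) (β : Fin (n+1) → ℝ) (m : ℕ)
    (p : (J → ℝ) × (Fin d → ℝ)) (j : Fin r) :
    yA A (XA θ Θ β m p) j + yo A θ β m j = agA A θ Θ m p j := by
  unfold XA agA yo
  rw [yA_add, yA_add, yA_smul, yA_smul]
  ring

lemma int_eqA (A : Fin r → Fin (n+1) → ℤ) (θ : Fin r → ℝ)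
    (Θ : ((J → ℝ) × (Fin d → ℝ)) ≃ₗ[ℝ] (Fin (n+1) → ℝ)) (κ : ℝ) (hA : AdaptA A J d Θ κ)
    (lam β : Fin (n+1) → ℝ) (m : ℕ) :
    ∫ x, integA A θ lam β J m x ∂(Measure.pi (ms (∅ : Finset (Fin (n+1))))) =
      (κ : ℂ) * ∫ p, HA A θ Θ lam β m p := by
  classical
  have h1 : Measure.pi (ms (∅ : Finset (Fin (n+1)))) =
      (volume : Measure (Fin (n+1) → ℝ)).restrict (Set.pi Set.univ fun _ => Set.Ioi 0) := by
    rw [volume_pi, Measure.restrict_pi_pi]
    congr 1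
  rw [h1, ← integral_indicator (MeasurableSet.univ_pi fun _ => measurableSet_Ioi), hA.int]
  congr 1
  have : (volume : Measure ((J → ℝ) × (Fin d → ℝ))).IsAddHaarMeasure :=
    Measure.prod.instIsAddHaarMeasure _ _
  rw [← integral_add_right_eq_self _ (Θ.symm (dl m • β + (dl m) ^ 2 • uJ θ Θ))]
  have hε : 0 < (dl m) ^ 4 := pow_pos (dl_pos m) 4
  rw [scale_fst ((dl m)^4) hε, ← integral_const_mul]
  refine integral_congr_ae (Eventually.of_forall fun p => ?_)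
  simp only
  rw [map_add, LinearEquiv.apply_symm_apply]
  change _ * Set.indicator _ _ (XA θ Θ β m p) = _
  unfold HA
  rw [Set.indicator_apply]
  have hmem : (XA θ Θ β m p ∈ (Set.pi Set.univ fun _ => Set.Ioi (0:ℝ))) ↔
      ∀ i, 0 < XA θ Θ β m p i := by simp [Set.mem_pi]
  simp only [hmem]
  split_ifs with hpos
  · unfold integA
    simp only [XA_y]
    have hprod : ∏ j, (((if j ∈ J then -ph (dl m ^ 4) 1 (agA A θ Θ m p j)
        else ph (dl m ^ 4) 0 (agA A θ Θ m p j) : ℝ)) : ℂ) =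
        (((∏ j : J, -ph (dl m ^ 4) 1 ((dl m) ^ 4 * p.1 j)) *
          ∏ j ∈ Jᶜ, stp ((dl m) ^ 4) (agA A θ Θ m p j) : ℝ) : ℂ) := by
      rw [← Complex.ofReal_prod, ← Finset.prod_mul_prod_compl J]
      congr 2
      · rw [← Finset.prod_coe_sort J]
        refine Finset.prod_congr rfl fun j _ => ?_
        rw [if_pos j.2]
        unfold agA uJ
        rw [hA.y, hA.y, sub_self, mul_zero, add_zero]
        rfl
      · refine Finset.prod_congr rfl fun j hj => ?_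
        rw [if_neg (Finset.mem_compl.1 hj), ph_zero]
    rw [hprod]
    have h2 : ∏ j : J, rho (p.1 j) = ((dl m) ^ 4) ^ Fintype.card J *
        ∏ j : J, -ph (dl m ^ 4) 1 ((dl m) ^ 4 * p.1 j) := by
      rw [← Finset.card_univ, ← Finset.prod_const, ← Finset.prod_mul_distrib]
      exact Finset.prod_congr rfl fun j _ => (ph_one_scale _ hε _).symm
    rw [h2]
    push_cast
    ring
  · simp

lemma XA_cont (θ : Fin r → ℝ) (Θ : ((J → ℝ) × (Fin d → ℝ)) ≃ₗ[ℝ] (Fin (n+1) → ℝ))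
    (β : Fin (n+1) → ℝ) (m : ℕ) : Continuous (XA θ Θ β m) := by
  unfold XA
  have h : Continuous Θ := Θ.toLinearMap.continuous_of_finiteDimensional
  exact (h.comp (by fun_prop)).add continuous_const

lemma agA_cont (A : Fin r → Fin (n+1) → ℤ) (θ : Fin r → ℝ)
    (Θ : ((J → ℝ) × (Fin d → ℝ)) ≃ₗ[ℝ] (Fin (n+1) → ℝ)) (m : ℕ) (j : Fin r) :
    Continuous (fun p => agA A θ Θ m p j) := by
  unfold agA
  have h : Continuous Θ := Θ.toLinearMap.continuous_of_finiteDimensional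
  exact ((yA_cont A j).comp (h.comp (by fun_prop))).add continuous_const

lemma HA_meas (A : Fin r → Fin (n+1) → ℤ) (θ : Fin r → ℝ)
    (Θ : ((J → ℝ) × (Fin d → ℝ)) ≃ₗ[ℝ] (Fin (n+1) → ℝ)) (lam β : Fin (n+1) → ℝ) (m : ℕ) :
    AEStronglyMeasurable (HA A θ Θ lam β m) volume := by
  classical
  refine Measurable.aestronglyMeasurable ?_
  unfold HA
  refine Measurable.mul ?_ ?_
  · refine Measurable.ite ?_ ((wt_contA lam).comp (XA_cont θ Θ β m)).measurable measurable_const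
    have : {p : (J → ℝ) × (Fin d → ℝ) | ∀ i, 0 < XA θ Θ β m p i} =
        ⋂ i, {p | 0 < XA θ Θ β m p i} := by ext p; simp
    rw [this]
    exact MeasurableSet.iInter fun i => measurableSet_lt measurable_const
      ((continuous_apply i).comp (XA_cont θ Θ β m)).measurable
  · refine (Complex.continuous_ofReal.comp (Continuous.mul ?_ ?_)).measurable
    · exact continuous_finsetProd _ fun j _ => rho_cont.comp
        ((continuous_apply j).comp continuous_fst)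
    · exact continuous_finsetProd _ fun j _ => (stp_contDiff _).continuous.comp
        (agA_cont A θ Θ m j)

lemma exists_lbA (lam : Fin (n+1) → ℝ) (hl : ∀ i, 0 < lam i) :
    ∃ c0 : ℝ, 0 < c0 ∧ ∀ i, c0 ≤ lam i :=
  ⟨Finset.univ.inf' Finset.univ_nonempty lam,
    (Finset.lt_inf'_iff _).2 fun i _ => hl i, fun i => Finset.inf'_le _ (Finset.mem_univ i)⟩

lemma wt_bdA (lam : Fin (n+1) → ℝ) (c0 : ℝ) (h4 : 0 < c0) (h2 : ∀ i, c0 ≤ lam i)
    (x : Fin (n+1) → ℝ) (hx : ∀ i, 0 < x i) :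
    ‖wt lam x‖ ≤ Real.exp (-c0 * ‖x‖) := by
  unfold wt
  rw [norm_prod]
  simp only [Complex.norm_real, Real.norm_eq_abs, Real.abs_exp]
  rw [← Real.exp_sum]
  refine Real.exp_le_exp.2 ?_
  have h1 : ‖x‖ ≤ ∑ i, x i := by
    rw [pi_norm_le_iff_of_nonneg (Finset.sum_nonneg fun i _ => (hx i).le)]
    intro i
    rw [Real.norm_of_nonneg (hx i).le]
    exact Finset.single_le_sum (fun j _ => (hx j).le) (Finset.mem_univ i)
  have h3 : c0 * ∑ i, x i ≤ ∑ i, lam i * x i := by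
    rw [Finset.mul_sum]
    exact Finset.sum_le_sum fun i _ => mul_le_mul_of_nonneg_right (h2 i) (hx i).le
  have h5 : ∑ i, -lam i * x i = -∑ i, lam i * x i := by
    rw [← Finset.sum_neg_distrib]
    exact Finset.sum_congr rfl fun i _ => by ring
  rw [h5]
  nlinarith [mul_le_mul_of_nonneg_left h1 h4.le]

lemma HA_bd (A : Fin r → Fin (n+1) → ℤ) (θ : Fin r → ℝ)
    (Θ : ((J → ℝ) × (Fin d → ℝ)) ≃ₗ[ℝ] (Fin (n+1) → ℝ)) (lam : Fin (n+1) → ℝ)
    (hl : ∀ i, 0 < lam i) (β : Fin (n+1) → ℝ) :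
    ∃ bound : (J → ℝ) × (Fin d → ℝ) → ℝ, Integrable bound ∧
      ∀ m p, ‖HA A θ Θ lam β m p‖ ≤ bound p := by
  classical
  obtain ⟨c0, hc0, hc0'⟩ := exists_lbA lam hl
  obtain ⟨C, c', hC, hc', hb⟩ := Pool.Agent.W349.SM.exp_bd Θ c0 (‖β‖ + ‖uJ θ Θ‖) hc0
  refine ⟨fun p => (∏ j : J, |rho (p.1 j)|) * (C * ∏ i, Real.exp (-c' * |p.2 i|)), ?_,
    fun m p => ?_⟩
  · rw [Measure.volume_eq_prod]
    refine Integrable.mul_prod (f := fun z : J → ℝ => ∏ j : J, |rho (z j)|)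
      (g := fun a : Fin d → ℝ => C * ∏ i, Real.exp (-c' * |a i|)) ?_ ?_
    · exact Integrable.fintype_prod (f := fun (_ : J) t => |rho t|) fun j => rho_int.abs
    · exact (Integrable.fintype_prod (f := fun (_ : Fin d) t => Real.exp (-c' * |t|))
        fun i => exp_abs_int c' hc').const_mul C
  · unfold HA
    rw [norm_mul, Complex.norm_real, Real.norm_eq_abs, abs_mul, Finset.abs_prod, Finset.abs_prod]
    have h1 : ∏ j ∈ Jᶜ, |stp ((dl m) ^ 4) (agA A θ Θ m p j)| ≤ 1 :=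
      Finset.prod_le_one (fun _ _ => abs_nonneg _) fun _ _ => stp_bd _ _
    have hnorm : ‖dl m • β + (dl m) ^ 2 • uJ θ Θ‖ ≤ ‖β‖ + ‖uJ θ Θ‖ := by
      refine (norm_add_le _ _).trans (add_le_add ?_ ?_)
      · rw [norm_smul, Real.norm_of_nonneg (dl_pos m).le]
        exact mul_le_of_le_one_left (norm_nonneg _) (dl_le m)
      · rw [norm_smul, Real.norm_of_nonneg (by positivity)]
        have h4 : (dl m) ^ 2 ≤ 1 := pow_le_one₀ (dl_pos m).le (dl_le m)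
        exact mul_le_of_le_one_left (norm_nonneg _) h4
    have h2 : ‖(if ∀ i, 0 < XA θ Θ β m p i then wt lam (XA θ Θ β m p) else 0 : ℂ)‖ ≤
        C * ∏ i, Real.exp (-c' * |p.2 i|) := by
      split_ifs with hpos
      · exact (wt_bdA lam c0 hc0 hc0' _ hpos).trans (hb _ _ _ hnorm)
      · rw [norm_zero]
        exact mul_nonneg hC (Finset.prod_nonneg fun _ _ => (Real.exp_pos _).le)
    have h3 : 0 ≤ ∏ j : J, |rho (p.1 j)| := Finset.prod_nonneg fun _ _ => abs_nonneg _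
    have h4 : (∏ j : J, |rho (p.1 j)|) * ∏ j ∈ Jᶜ, |stp ((dl m) ^ 4) (agA A θ Θ m p j)| ≤
        ∏ j : J, |rho (p.1 j)| := mul_le_of_le_one_right h3 h1
    calc _ ≤ (C * ∏ i, Real.exp (-c' * |p.2 i|)) * ∏ j : J, |rho (p.1 j)| :=
          mul_le_mul h2 h4 (mul_nonneg h3 (Finset.prod_nonneg fun _ _ => abs_nonneg _))
            ((norm_nonneg _).trans h2)
      _ = _ := mul_comm _ _

lemma ae_neA (A : Fin r → Fin (n+1) → ℤ)
    (Θ : ((J → ℝ) × (Fin d → ℝ)) ≃ₗ[ℝ] (Fin (n+1) → ℝ)) (κ : ℝ) (hA : AdaptA A J d Θ κ) :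
    ∀ᵐ p : (J → ℝ) × (Fin d → ℝ), ∀ j, (∀ c, ¬ CombA A J j c) → yA A (Θ (0, p.2)) j ≠ 0 := by
  rw [ae_all_iff]
  intro j
  by_cases hj : ∀ c, ¬ CombA A J j c
  swap
  · exact Eventually.of_forall fun p h => absurd h hj
  set l : ((J → ℝ) × (Fin d → ℝ)) →ₗ[ℝ] ℝ :=
    yL A j ∘ₗ Θ.toLinearMap ∘ₗ LinearMap.inr ℝ (J → ℝ) (Fin d → ℝ) ∘ₗ
      LinearMap.snd ℝ (J → ℝ) (Fin d → ℝ) with hl
  have hlp : ∀ p, l p = yA A (Θ (0, p.2)) j := by
    intro p
    rw [hl]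
    simp only [LinearMap.comp_apply, LinearMap.snd_apply, LinearMap.inr_apply,
      LinearEquiv.coe_coe]
    exact yL_apply A j _
  have hne : LinearMap.ker l ≠ ⊤ := by
    intro h
    obtain ⟨a, ha⟩ := form_neA A hA j hj
    have : ((0 : J → ℝ), a) ∈ LinearMap.ker l := by rw [h]; trivial
    rw [LinearMap.mem_ker, hlp] at this
    exact ha this
  have : (volume : Measure ((J → ℝ) × (Fin d → ℝ))).IsAddHaarMeasure :=
    Measure.prod.instIsAddHaarMeasure _ _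
  have h0 := Measure.addHaar_submodule (volume : Measure ((J → ℝ) × (Fin d → ℝ)))
    (LinearMap.ker l) hne
  have : ∀ᵐ p : (J → ℝ) × (Fin d → ℝ), p ∉ (LinearMap.ker l : Set _) :=
    measure_eq_zero_iff_ae_notMem.1 h0
  filter_upwards [this] with p hp _ h
  apply hp
  rw [SetLike.mem_coe, LinearMap.mem_ker, hlp, h]

lemma Θ_splitA (Θ : ((J → ℝ) × (Fin d → ℝ)) ≃ₗ[ℝ] (Fin (n+1) → ℝ)) (c : ℝ) (z : J → ℝ)
    (a : Fin d → ℝ) : Θ (c • z, a) = Θ (0, a) + c • Θ (z, 0) := by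
  rw [← map_smul, ← map_add]
  congr 1
  simp

lemma HA_lim (A : Fin r → Fin (n+1) → ℤ) (θ : Fin r → ℝ) (hθ : LinearIndependent ℚ θ)
    (Θ : ((J → ℝ) × (Fin d → ℝ)) ≃ₗ[ℝ] (Fin (n+1) → ℝ)) (κ : ℝ) (hA : AdaptA A J d Θ κ)
    (lam β : Fin (n+1) → ℝ) (hβ : ∀ i, β i ≠ 0) (p : (J → ℝ) × (Fin d → ℝ))
    (hp : ∀ j, (∀ c, ¬ CombA A J j c) → yA A (Θ (0, p.2)) j ≠ 0) :
    Tendsto (fun m => HA A θ Θ lam β m p) atTop
      (𝓝 ((∏ j : J, (rho (p.1 j) : ℂ)) * limGA A θ lam β J (Θ (0, p.2)))) := by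
  classical
  set x := Θ (0, p.2) with hx
  set u := Θ (p.1, 0) with hu
  set q := uJ θ Θ with hq
  have hxJ : ∀ j ∈ J, yA A x j = 0 := fun j hj => hA.y 0 p.2 ⟨j, hj⟩
  have hqJ : ∀ j ∈ J, yA A q j = θ j := fun j hj => hA.y (fun j : J => θ j) 0 ⟨j, hj⟩
  have hdl2 : Tendsto (fun m => (dl m) ^ 2) atTop (𝓝 0) := by simpa using dl_tendsto.pow 2
  -- the correction
  set W : Fin (n+1) → ℕ → ℝ := fun i m => dl m * (q i + (dl m) ^ 2 * u i) with hW
  have hWt : ∀ i, Tendsto (W i) atTop (𝓝 0) := by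
    intro i
    have : Tendsto (fun m => dl m * (q i + (dl m) ^ 2 * u i)) atTop (𝓝 (0 * (q i + 0 * u i))) :=
      dl_tendsto.mul (tendsto_const_nhds.add (hdl2.mul_const _))
    rwa [zero_mul] at this
  have hX : ∀ m, XA θ Θ β m p = x + (dl m) ^ 4 • u + (dl m • β + (dl m) ^ 2 • q) := by
    intro m
    unfold XA
    rw [Θ_splitA]
  have hXi : ∀ m i, XA θ Θ β m p i = x i + dl m * (W i m + β i) := by
    intro m i
    rw [hX, hW]
    simp only [Pi.add_apply, Pi.smul_apply, smul_eq_mul]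
    ring
  have hY : ∀ m j, agA A θ Θ m p j =
      yA A x j + (dl m) ^ 2 * ((dl m) ^ 2 * yA A u j + (yA A q j - θ j)) := by
    intro m j
    unfold agA
    rw [Θ_splitA, yA_add, yA_smul]
    ring
  have hz : ∀ (_ : ∃ i, ∀ᶠ m in atTop, XA θ Θ β m p i < 0),
      Tendsto (fun m => HA A θ Θ lam β m p) atTop (𝓝 0) := by
    rintro ⟨i, hi⟩
    refine tendsto_const_nhds.congr' ?_
    filter_upwards [hi] with m hm
    unfold HA
    rw [if_neg (fun h => absurd (h i) (not_lt.2 hm.le)), zero_mul]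
  have hz2 : ∀ (_ : ∃ j, j ∉ J ∧ ∀ᶠ m in atTop, agA A θ Θ m p j < 0),
      Tendsto (fun m => HA A θ Θ lam β m p) atTop (𝓝 0) := by
    rintro ⟨j, hj, hi⟩
    refine tendsto_const_nhds.congr' ?_
    filter_upwards [hi] with m hm
    unfold HA
    have h5 : ∏ j ∈ Jᶜ, stp ((dl m) ^ 4) (agA A θ Θ m p j) = 0 :=
      Finset.prod_eq_zero (Finset.mem_compl.2 hj) (stp_neg _ (pow_pos (dl_pos m) 4) _ hm.le)
    rw [h5]
    simp
  unfold limGA
  by_cases h1 : ∀ i, 0 < x i ∨ (x i = 0 ∧ 0 < β i)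
  swap
  · rw [if_neg (fun h => h1 h.1.1), mul_zero]
    push Not at h1
    obtain ⟨i, hi1, hi2⟩ := h1
    refine hz ⟨i, ?_⟩
    simp only [hXi]
    refine ev_negw _ _ _ (hWt i) ?_
    rcases lt_or_eq_of_le hi1 with h | h
    · exact Or.inl h
    · exact Or.inr ⟨h, lt_of_le_of_ne (hi2 h) (hβ i)⟩
  by_cases h2 : ∀ l, (∀ c, ¬ CombA A J l c) → 0 < yA A x l
  swap
  · rw [if_neg (fun h => h2 h.1.2), mul_zero]
    push Not at h2
    obtain ⟨j, hj, hj2⟩ := h2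
    have hj3 : yA A x j < 0 := lt_of_le_of_ne hj2 (hp j hj)
    refine hz2 ⟨j, fun h => hj _ (combA_self A h), ?_⟩
    have h4 : Tendsto (fun m => yA A x j +
        (dl m) ^ 2 * ((dl m) ^ 2 * yA A u j + (yA A q j - θ j))) atTop
        (𝓝 (yA A x j + 0 * (0 * yA A u j + (yA A q j - θ j)))) :=
      tendsto_const_nhds.add (hdl2.mul ((hdl2.mul_const _).add_const _))
    rw [zero_mul, add_zero] at h4
    simp only [hY]
    exact h4.eventually (gt_mem_nhds hj3)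
  -- the combinations
  have hcomb : ∀ l, ∀ c, CombA A J l c → yA A x l = 0 ∧
      yA A q l = ∑ j, (c j : ℝ) * θ j := by
    intro l c hc
    refine ⟨combA_zero A hc x hxJ, ?_⟩
    rw [combA_y A hc]
    refine Finset.sum_congr rfl fun j _ => ?_
    by_cases hj : j ∈ J
    · rw [hqJ j hj]
    · rw [hc.1 j hj]
      simp
  by_cases h3 : AdmA A θ J
  swap
  · rw [if_neg (fun h => h3 h.2), mul_zero]
    unfold AdmA at h3
    push Not at h3
    obtain ⟨l, hl, c, hc, hle⟩ := h3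
    obtain ⟨f1, f2⟩ := hcomb l c hc
    have hne : yA A q l - θ l ≠ 0 := by
      rw [f2]
      intro h
      have h5 : ∑ j, (c j - (Pi.single l (1:ℚ) : _ → ℚ) j) • θ j = 0 := by
        simp_rw [sub_smul, Finset.sum_sub_distrib]
        have h6 : ∑ j, (Pi.single l (1:ℚ) : _ → ℚ) j • θ j = θ l := by
          rw [Finset.sum_eq_single l]
          · simp
          · intro b _ hb
            rw [Pi.single_eq_of_ne hb, zero_smul]
          · intro hl'
            exact absurd (Finset.mem_univ _) hl'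
        rw [h6]
        rw [← h]
        rfl
      have h7 := (Fintype.linearIndependent_iff.1 hθ) _ h5 l
      rw [hc.1 l hl] at h7
      simp at h7
    have hlt : yA A q l - θ l < 0 := by
      refine lt_of_le_of_ne ?_ hne
      rw [f2]
      linarith
    refine hz2 ⟨l, hl, ?_⟩
    simp only [hY, f1, zero_add]
    have h4 : Tendsto (fun m => (dl m) ^ 2 * yA A u l + (yA A q l - θ l)) atTop
        (𝓝 (0 * yA A u l + (yA A q l - θ l))) := (hdl2.mul_const _).add_const _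
    rw [zero_mul, zero_add] at h4
    filter_upwards [h4.eventually (gt_mem_nhds hlt)] with m hm
    exact mul_neg_of_pos_of_neg (pow_pos (dl_pos m) 2) hm
  rw [if_pos ⟨⟨h1, h2⟩, h3⟩]
  -- eventually all conditions hold
  have e1 : ∀ᶠ m in atTop, ∀ i, 0 < XA θ Θ β m p i := by
    rw [eventually_all]
    intro i
    simp only [hXi]
    exact ev_posw _ _ _ (hWt i) (h1 i)
  have e2 : ∀ᶠ m in atTop, ∀ j, j ∉ J → stp ((dl m) ^ 4) (agA A θ Θ m p j) = 1 := by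
    rw [eventually_all]
    intro j
    by_cases hj : j ∈ J
    · exact Eventually.of_forall fun m h => absurd hj h
    by_cases hcj : ∃ c, CombA A J j c
    · obtain ⟨c, hc⟩ := hcj
      obtain ⟨f1, f2⟩ := hcomb j c hc
      have hgt : 0 < yA A q j - θ j := by
        rw [f2]
        linarith [h3 j hj c hc]
      have h4 : Tendsto (fun m => (dl m) ^ 2 * yA A u j + (yA A q j - θ j) - (dl m) ^ 2) atTop
          (𝓝 (0 * yA A u j + (yA A q j - θ j) - 0)) :=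
        ((hdl2.mul_const _).add_const _).sub hdl2
      rw [zero_mul, zero_add, sub_zero] at h4
      filter_upwards [h4.eventually (lt_mem_nhds hgt)] with m hm _
      rw [hY, f1, zero_add]
      refine stp_big _ (pow_pos (dl_pos m) 4) _ ?_
      have h5 : (dl m) ^ 4 = (dl m) ^ 2 * (dl m) ^ 2 := by ring
      rw [h5]
      have h6 : 0 < (dl m) ^ 2 := pow_pos (dl_pos m) 2
      nlinarith
    · have hcj' : ∀ c, ¬ CombA A J j c := fun c hc => hcj ⟨c, hc⟩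
      have hdl4 : Tendsto (fun m => (dl m) ^ 4) atTop (𝓝 0) := by simpa using dl_tendsto.pow 4
      have h4 : Tendsto (fun m => yA A x j +
          (dl m) ^ 2 * ((dl m) ^ 2 * yA A u j + (yA A q j - θ j)) - (dl m) ^ 4) atTop
          (𝓝 (yA A x j + 0 * (0 * yA A u j + (yA A q j - θ j)) - 0)) :=
        (tendsto_const_nhds.add (hdl2.mul ((hdl2.mul_const _).add_const _))).sub hdl4
      rw [zero_mul, add_zero, sub_zero] at h4
      filter_upwards [h4.eventually (lt_mem_nhds (h2 j hcj'))] with m hm _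
      rw [hY]
      exact stp_big _ (pow_pos (dl_pos m) 4) _ (by linarith)
  have h6 : Tendsto (fun m => wt lam (XA θ Θ β m p) * ∏ j : J, (rho (p.1 j) : ℂ))
      atTop (𝓝 (wt lam x * ∏ j : J, (rho (p.1 j) : ℂ))) := by
    refine Tendsto.mul_const _ ?_
    refine ((wt_contA lam).tendsto x).comp ?_
    rw [tendsto_pi_nhds]
    intro i
    simp only [hXi]
    have : Tendsto (fun m => x i + dl m * (W i m + β i)) atTop (𝓝 (x i + 0 * (0 + β i))) :=
      tendsto_const_nhds.add (dl_tendsto.mul ((hWt i).add_const _))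
    rwa [zero_mul, add_zero] at this
  rw [mul_comm]
  refine h6.congr' ?_
  filter_upwards [e1, e2] with m hm1 hm2
  unfold HA
  rw [if_pos hm1]
  have h7 : ∏ j ∈ Jᶜ, stp ((dl m) ^ 4) (agA A θ Θ m p j) = 1 :=
    Finset.prod_eq_one fun j hj => hm2 j (Finset.mem_compl.1 hj)
  rw [h7]
  push_cast
  ring

lemma lim_intA (A : Fin r → Fin (n+1) → ℤ) (θ : Fin r → ℝ)
    (Θ : ((J → ℝ) × (Fin d → ℝ)) ≃ₗ[ℝ] (Fin (n+1) → ℝ)) (lam β : Fin (n+1) → ℝ) :
    ∫ p : (J → ℝ) × (Fin d → ℝ), (∏ j : J, (rho (p.1 j) : ℂ)) * limGA A θ lam β J (Θ (0, p.2)) =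
      ∫ a, limGA A θ lam β J (Θ (0, a)) := by
  rw [Measure.volume_eq_prod]
  rw [integral_prod_mul (fun z : J → ℝ => ∏ j : J, (rho (z j) : ℂ))
    (fun a : Fin d → ℝ => limGA A θ lam β J (Θ (0, a)))]
  have h1 : ∫ z : J → ℝ, ∏ j : J, (rho (z j) : ℂ) = 1 := by
    rw [integral_fintype_prod_volume_eq_prod (fun (_ : J) t => (rho t : ℂ))]
    refine Finset.prod_eq_one fun j _ => ?_
    rw [integral_complex_ofReal, rho_integral]
    simp
  rw [h1, one_mul]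

/-- The limit of the integrals. -/
theorem limA (A : Fin r → Fin (n+1) → ℤ) (θ : Fin r → ℝ) (hθ : LinearIndependent ℚ θ)
    (lam : Fin (n+1) → ℝ)
    (hl : ∀ i, 0 < lam i) (β : Fin (n+1) → ℝ) (hβ : ∀ i, β i ≠ 0) (J : Finset (Fin r)) (d : ℕ)
    (Θ : ((J → ℝ) × (Fin d → ℝ)) ≃ₗ[ℝ] (Fin (n+1) → ℝ)) (κ : ℝ) (hA : AdaptA A J d Θ κ) :
    Tendsto (fun m : ℕ => ∫ x, integA A θ lam β J m x
        ∂(Measure.pi (ms (∅ : Finset (Fin (n+1))))))
      atTop (𝓝 ((κ : ℂ) * ∫ a, limGA A θ lam β J (Θ (0, a)))) := by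
  simp only [int_eqA A θ Θ κ hA lam β]
  refine Tendsto.const_mul _ ?_
  obtain ⟨bound, hb1, hb2⟩ := HA_bd A θ Θ lam hl β
  rw [← lim_intA A θ Θ lam β]
  refine tendsto_integral_of_dominated_convergence bound (fun m => HA_meas A θ Θ lam β m) hb1
    (fun m => Eventually.of_forall fun p => hb2 m p) ?_
  filter_upwards [ae_neA A Θ κ hA] with p hp
  exact HA_lim A θ hθ Θ κ hA lam β hβ p hp

end Pool.Agent.W423.MG
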