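import Pool.Agent.W423.MV.Final

set_option autoImplicit false

/-! General systems of linear forms: adapted coordinates and the lattice index. -/

namespace Pool.Agent.W423.MG

open MvPolynomial Pool.Agent.H628R4.TZ MeasureTheory Filter Topology
open Pool.Agent.W425.SM Pool.Agent.W423.MV

variable {r M : ℕ}

/-- the linear forms -/
def yA (A : Fin r → Fin M → ℤ) (x : Fin M → ℝ) (j : Fin r) : ℝ := ∑ i, (A j i : ℝ) * x i

/-- independence of the forms of `J` -/
def IndA (A : Fin r → Fin M → ℤ) (J : Finset (Fin r)) : Prop :=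
  LinearIndependent ℚ (fun j : J => (fun i => (A j i : ℚ) : Fin M → ℚ))

/-- the rows of `J` -/
def AJ (A : Fin r → Fin M → ℤ) (J : Finset (Fin r)) : Matrix J (Fin M) ℤ := fun j => A j

/-- evaluation of the forms of `J` -/
def evA (A : Fin r → Fin M → ℤ) (J : Finset (Fin r)) : (Fin M → ℤ) →+ (J → ℤ) where
  toFun x j := ∑ i, A j i * x i
  map_zero' := by ext j; simp
  map_add' p q := by
    ext j
    simp only [Pi.add_apply, mul_add, Finset.sum_add_distrib]

/-- the index of the image -/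
noncomputable def idxA (A : Fin r → Fin M → ℤ) (J : Finset (Fin r)) : ℕ := (evA A J).range.index

/-- Data adapted to `J`. -/
structure AdaptA (A : Fin r → Fin M → ℤ) (J : Finset (Fin r)) (d : ℕ)
    (Θ : ((J → ℝ) × (Fin d → ℝ)) ≃ₗ[ℝ] (Fin M → ℝ)) (θ : ℝ) : Prop where
  pos : 0 < θ
  dim : d + J.card = M
  y : ∀ (z : J → ℝ) (a : Fin d → ℝ) (j : J), yA A (Θ (z, a)) j = z j
  int : ∀ g : (Fin M → ℝ) → ℂ, ∫ x, g x = θ * ∫ p : (J → ℝ) × (Fin d → ℝ), g (Θ p)

/-- the real matrix -/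
noncomputable def MR (A : Fin r → Fin M → ℤ) (J : Finset (Fin r)) :
    Matrix J (Fin M) ℝ := (AJ A J).map (fun x : ℤ => (x : ℝ))

lemma MR_mulVec (A : Fin r → Fin M → ℤ) (J : Finset (Fin r)) (x : Fin M → ℝ)
    (j : J) : (MR A J).mulVec x j = yA A x j := rfl

lemma rows_indep (A : Fin r → Fin M → ℤ) (J : Finset (Fin r)) (hA : IndA A J) :
    LinearIndependent ℚ ((AJ A J).map (fun x : ℤ => (x : ℚ))).row := hA

lemma exists_rinv (A : Fin r → Fin M → ℤ) (J : Finset (Fin r)) (hA : IndA A J) :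
    ∃ P : Matrix (Fin M) J ℝ, MR A J * P = 1 := by
  classical
  set MQ : Matrix J (Fin M) ℚ := (AJ A J).map (fun x : ℤ => (x : ℚ)) with hMQ
  have h1 : MQ.rank = Fintype.card J := (rows_indep A J hA).rank_matrix
  have h2 : Function.Surjective MQ.mulVec := by
    have h3 : LinearMap.range MQ.mulVecLin = ⊤ := by
      apply Submodule.eq_top_of_finrank_eq
      rw [Module.finrank_fintype_fun_eq_card, ← h1, Matrix.rank]
    exact LinearMap.range_eq_top.mp h3
  obtain ⟨P, hP⟩ := Matrix.mulVec_surjective_iff_exists_right_inverse.mp h2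
  refine ⟨P.map (fun x : ℚ => (x : ℝ)), ?_⟩
  have h4 := congrArg (fun A : Matrix J J ℚ => A.map (Rat.castHom ℝ)) hP
  simp only [Matrix.map_mul] at h4
  have h5 : (1 : Matrix J J ℚ).map (Rat.castHom ℝ) = 1 := Matrix.map_one _ (by simp) (by simp)
  rw [h5] at h4
  rw [← h4]
  congr 1

/-- the linear map `A` -/
noncomputable def Al (A : Fin r → Fin M → ℤ) (J : Finset (Fin r)) :
    (Fin M → ℝ) →ₗ[ℝ] (J → ℝ) := (MR A J).mulVecLin

lemma Al_apply (A : Fin r → Fin M → ℤ) (J : Finset (Fin r)) (x : Fin M → ℝ)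
    (j : J) : Al A J x j = yA A x j := by
  rw [Al, Matrix.mulVecLin_apply, MR_mulVec]

lemma exists_coord (A : Fin r → Fin M → ℤ) (J : Finset (Fin r)) (hA : IndA A J) :
    ∃ (d : ℕ) (Θ : ((J → ℝ) × (Fin d → ℝ)) ≃ₗ[ℝ] (Fin M → ℝ)), d + J.card = M ∧
      ∀ (z : J → ℝ) (a : Fin d → ℝ), Al A J (Θ (z, a)) = z := by
  classical
  obtain ⟨P, hP⟩ := exists_rinv A J hA
  set d := Module.finrank ℝ (LinearMap.ker (Al A J)) with hd
  let b := Module.finBasis ℝ (LinearMap.ker (Al A J))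
  let κ : (Fin d → ℝ) ≃ₗ[ℝ] LinearMap.ker (Al A J) := b.equivFun.symm
  let T : ((J → ℝ) × (Fin d → ℝ)) →ₗ[ℝ] (Fin M → ℝ) :=
    LinearMap.coprod P.mulVecLin ((LinearMap.ker (Al A J)).subtype ∘ₗ κ.toLinearMap)
  have hT : ∀ z a, T (z, a) = P.mulVec z + (κ a : Fin M → ℝ) := fun z a => rfl
  have hAP : ∀ z : J → ℝ, Al A J (P.mulVec z) = z := by
    intro z
    rw [Al, Matrix.mulVecLin_apply, Matrix.mulVec_mulVec, hP, Matrix.one_mulVec]
  have hAT : ∀ z a, Al A J (T (z, a)) = z := by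
    intro z a
    rw [hT, map_add, hAP, (LinearMap.mem_ker.mp (κ a).2), add_zero]
  have hinj : Function.Injective T := by
    rw [← LinearMap.ker_eq_bot, LinearMap.ker_eq_bot']
    rintro ⟨z, a⟩ h
    have h1 : z = 0 := by rw [← hAT z a, h, map_zero]
    subst h1
    rw [hT, Matrix.mulVec_zero, zero_add] at h
    have h2 : κ a = 0 := Subtype.ext h
    have h3 : a = 0 := by simpa using h2
    rw [h3]; rfl
  have hsurj : Function.Surjective T := by
    intro x
    have h1 : x - P.mulVec (Al A J x) ∈ LinearMap.ker (Al A J) := by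
      rw [LinearMap.mem_ker, map_sub, hAP, sub_self]
    refine ⟨(Al A J x, κ.symm ⟨_, h1⟩), ?_⟩
    rw [hT, LinearEquiv.apply_symm_apply]
    simp
  refine ⟨d, LinearEquiv.ofBijective T ⟨hinj, hsurj⟩, ?_, fun z a => ?_⟩
  · have h1 := (Al A J).finrank_range_add_finrank_ker
    have h2 : LinearMap.range (Al A J) = ⊤ := by
      rw [LinearMap.range_eq_top]
      exact fun z => ⟨_, hAP z⟩
    rw [h2, finrank_top, Module.finrank_fintype_fun_eq_card, Module.finrank_fintype_fun_eq_card,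
      Fintype.card_coe, Fintype.card_fin] at h1
    omega
  · exact hAT z a

lemma exists_adapt (A : Fin r → Fin M → ℤ) (J : Finset (Fin r)) (hA : IndA A J) :
    ∃ (d : ℕ) (Θ : ((J → ℝ) × (Fin d → ℝ)) ≃ₗ[ℝ] (Fin M → ℝ)) (θ : ENNReal),
      Measure.map Θ.symm volume = θ • volume ∧ AdaptA A J d Θ θ.toReal ∧ θ ≠ ⊤ ∧
      ∀ (z : J → ℝ) (a : Fin d → ℝ), Al A J (Θ (z, a)) = z := by
  obtain ⟨d, Θ, h1, h2⟩ := exists_coord A J hA
  have : (volume : Measure ((J → ℝ) × (Fin d → ℝ))).IsAddHaarMeasure :=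
    Measure.prod.instIsAddHaarMeasure _ _
  obtain ⟨θ, t1, t2, t3⟩ := Pool.Agent.W375.SM.exists_factor (volume : Measure (Fin M → ℝ))
    (volume : Measure ((J → ℝ) × (Fin d → ℝ))) Θ.symm
  refine ⟨d, Θ, θ, t3, ⟨ENNReal.toReal_pos t1 t2, h1, ?_, ?_⟩, t2, h2⟩
  · intro z a j
    rw [← Al_apply, h2]
  · intro g
    have := Pool.Agent.W375.SM.integral_factor _ _ Θ.symm θ t3 (fun p => g (Θ p))
    simpa using this

section frame

variable (A : Fin r → Fin M → ℤ) (J : Finset (Fin r)) {K : Type} [Fintype K]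
  (Bm : Matrix (Fin M) (Fin M) ℤ) (e : J ⊕ K ≃ Fin M)

/-- real cast of the transpose -/
noncomputable def BT : Matrix (Fin M) (Fin M) ℝ := (Bm.map (fun x : ℤ => (x : ℝ))).transpose

lemma det_BT : (BT Bm).det = (Bm.det : ℝ) := by
  rw [BT, Matrix.det_transpose]
  exact (RingHom.map_det (Int.castRingHom ℝ) Bm).symm

/-- the volume preserving map -/
noncomputable def Um (p : (J → ℝ) × (K → ℝ)) : Fin M → ℝ :=
  Matrix.toLin' (BT Bm) (MeasurableEquiv.piCongrLeft (fun _ => ℝ) e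
    ((MeasurableEquiv.sumPiEquivProdPi (fun _ => ℝ)).symm p))

lemma Um_apply (p : (J → ℝ) × (K → ℝ)) (l : Fin M) :
    Um J Bm e p l = ∑ j : J, (Bm (e (Sum.inl j)) l : ℝ) * p.1 j +
      ∑ ρ : K, (Bm (e (Sum.inr ρ)) l : ℝ) * p.2 ρ := by
  have h1 : ∀ s : J ⊕ K, MeasurableEquiv.piCongrLeft (fun _ => ℝ) e
      ((MeasurableEquiv.sumPiEquivProdPi (fun _ => ℝ)).symm p) (e s) = Sum.elim p.1 p.2 s := by
    intro s
    rw [MeasurableEquiv.coe_piCongrLeft, Equiv.piCongrLeft_apply_apply]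
    rcases s with j | ρ <;> rfl
  rw [Um, Matrix.toLin'_apply, Matrix.mulVec, dotProduct, ← e.sum_comp, Fintype.sum_sum_type]
  simp only [h1, BT, Matrix.transpose_apply, Matrix.map_apply, Sum.elim_inl, Sum.elim_inr]

lemma mp_Um (hB : IsUnit Bm.det) :
    MeasurePreserving (Um J Bm e) volume volume := by
  have hdet : |(BT Bm).det| = 1 := by
    rw [det_BT]
    rcases Int.isUnit_iff.mp hB with h | h <;> simp [h]
  have hne : (BT Bm).det ≠ 0 := by
    intro h
    rw [h] at hdet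
    simp at hdet
  have h1 : MeasurePreserving (Matrix.toLin' (BT Bm)) (volume : Measure (Fin M → ℝ)) volume := by
    refine ⟨(LinearMap.continuous_of_finiteDimensional _).measurable, ?_⟩
    rw [Real.map_matrix_volume_pi_eq_smul_volume_pi hne, abs_inv, hdet]
    simp
  have h2 := volume_measurePreserving_piCongrLeft (fun _ => ℝ) e
  have h3 := volume_measurePreserving_sumPiEquivProdPi_symm (fun _ : J ⊕ K => ℝ)
  exact h1.comp (h2.comp h3)

lemma Um_lin (p q : (J → ℝ) × (K → ℝ)) (a : ℝ) :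
    Um J Bm e (p + q) = Um J Bm e p + Um J Bm e q ∧
      Um J Bm e (a • p) = a • Um J Bm e p := by
  constructor
  · funext l
    simp only [Um_apply, Pi.add_apply, Prod.fst_add, Prod.snd_add, mul_add,
      Finset.sum_add_distrib]
    ring
  · funext l
    simp only [Um_apply, Pi.smul_apply, Prod.smul_fst, Prod.smul_snd, smul_eq_mul, mul_add,
      Finset.mul_sum]
    congr 1
    · exact Finset.sum_congr rfl fun j _ => by ring
    · exact Finset.sum_congr rfl fun j _ => by ring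

/-- linear version -/
noncomputable def Ul : ((J → ℝ) × (K → ℝ)) →ₗ[ℝ] (Fin M → ℝ) where
  toFun := Um J Bm e
  map_add' p q := (Um_lin J Bm e p q 0).1
  map_smul' a p := (Um_lin J Bm e p p a).2

lemma Ul_apply (p : (J → ℝ) × (K → ℝ)) : Ul J Bm e p = Um J Bm e p := rfl

lemma Ul_bij (hB : IsUnit Bm.det) : Function.Bijective (Ul J Bm e) := by
  have hdet : IsUnit (BT Bm) := by
    rw [Matrix.isUnit_iff_isUnit_det, det_BT]
    exact hB.map (Int.castRingHom ℝ)
  have h1 : Function.Bijective (Matrix.toLin' (BT Bm)) := by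
    constructor
    · exact Matrix.mulVec_injective_of_isUnit hdet
    · exact Matrix.mulVec_surjective_iff_isUnit.mpr hdet
  exact h1.comp ((MeasurableEquiv.piCongrLeft (fun _ => ℝ) e).bijective.comp
    (MeasurableEquiv.sumPiEquivProdPi (fun _ => ℝ)).symm.bijective)

/-- the square matrix `H` -/
def Hm : Matrix J J ℤ := fun j j' => (AJ A J).mulVec (Bm (e (Sum.inl j'))) j

variable (h : K → Fin M → ℤ)

lemma Al_Um (h0 : ∀ ρ, (AJ A J).mulVec (h ρ) = 0) (he : ∀ ρ : K, Bm (e (Sum.inr ρ)) = h ρ)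
    (p : (J → ℝ) × (K → ℝ)) :
    Al A J (Um J Bm e p) = ((Hm A J Bm e).map (fun x : ℤ => (x : ℝ))).mulVec p.1 := by
  have h0' : ∀ (x : Fin M → ℤ) (j : J), (MR A J).mulVec (fun l => (x l : ℝ)) j =
      (((AJ A J).mulVec x j : ℤ) : ℝ) := by
    intro x j
    simp [MR, Matrix.mulVec, dotProduct]
  have h1 : Um J Bm e p = ∑ j : J, p.1 j • (fun l => (Bm (e (Sum.inl j)) l : ℝ)) +
      ∑ ρ : K, p.2 ρ • (fun l => (Bm (e (Sum.inr ρ)) l : ℝ)) := by
    funext l
    rw [Um_apply, Pi.add_apply, Finset.sum_apply, Finset.sum_apply]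
    congr 1
    · exact Finset.sum_congr rfl fun j _ => by simp [mul_comm]
    · exact Finset.sum_congr rfl fun j _ => by simp [mul_comm]
  rw [h1, map_add, map_sum, map_sum]
  have h2 : ∑ ρ : K, Al A J (p.2 ρ • (fun l => (Bm (e (Sum.inr ρ)) l : ℝ))) = 0 := by
    apply Finset.sum_eq_zero
    intro ρ _
    rw [map_smul, Al, Matrix.mulVecLin_apply]
    have : (MR A J).mulVec (fun l => (Bm (e (Sum.inr ρ)) l : ℝ)) = 0 := by
      funext j
      rw [h0', he, h0 ρ]
      simp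
    rw [this, smul_zero]
  rw [h2, add_zero]
  funext j
  rw [Finset.sum_apply]
  simp only [Matrix.mulVec, dotProduct, Matrix.map_apply]
  refine Finset.sum_congr rfl fun j' _ => ?_
  rw [map_smul, Al, Matrix.mulVecLin_apply, Pi.smul_apply, h0', smul_eq_mul, mul_comm]
  rfl

lemma det_Hm_ne (hA : IndA A J) (hB : IsUnit Bm.det) (h0 : ∀ ρ, (AJ A J).mulVec (h ρ) = 0)
    (he : ∀ ρ : K, Bm (e (Sum.inr ρ)) = h ρ) : (Hm A J Bm e).det ≠ 0 := by
  classical
  obtain ⟨P, hP⟩ := exists_rinv A J hA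
  have h1 : Function.Surjective ((Hm A J Bm e).map (fun x : ℤ => (x : ℝ))).mulVec := by
    intro z
    obtain ⟨p, hp⟩ := (Ul_bij J Bm e hB).2 (P.mulVec z)
    refine ⟨p.1, ?_⟩
    rw [← Al_Um A J Bm e h h0 he, ← Ul_apply, hp, Al, Matrix.mulVecLin_apply,
      Matrix.mulVec_mulVec, hP, Matrix.one_mulVec]
  rw [Matrix.mulVec_surjective_iff_isUnit, Matrix.isUnit_iff_isUnit_det] at h1
  intro h
  have h2 : ((Hm A J Bm e).map (fun x : ℤ => (x : ℝ))).det = ((Hm A J Bm e).det : ℝ) :=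
    (RingHom.map_det (Int.castRingHom ℝ) _).symm
  rw [h2, h] at h1
  simp at h1

lemma idx_eq (hB : IsUnit Bm.det) (h0 : ∀ ρ, (AJ A J).mulVec (h ρ) = 0)
    (he : ∀ ρ : K, Bm (e (Sum.inr ρ)) = h ρ) (hdet : (Hm A J Bm e).det ≠ 0) :
    idxA A J = (Hm A J Bm e).det.natAbs := by
  classical
  set H := Hm A J Bm e with hH
  have hev : ∀ x : Fin M → ℤ, evA A J x = (AJ A J).mulVec x := fun x => rfl
  have hrange : (evA A J).range = (LinearMap.range (Matrix.toLin' H)).toAddSubgroup := by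
    ext y
    simp only [AddMonoidHom.mem_range, Submodule.mem_toAddSubgroup, LinearMap.mem_range]
    constructor
    · rintro ⟨x, rfl⟩
      -- write the vector in the basis of rows of `Bm`
      obtain ⟨u, hu⟩ : ∃ u : Fin M → ℤ, Bm.transpose.mulVec u = x := by
        have hT : IsUnit Bm.transpose := by
          rw [Matrix.isUnit_iff_isUnit_det, Matrix.det_transpose]; exact hB
        exact Matrix.mulVec_surjective_iff_isUnit.mpr hT x
      refine ⟨fun j => u (e (Sum.inl j)), ?_⟩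
      rw [hev, ← hu, Matrix.toLin'_apply]
      have h1 : Bm.transpose.mulVec u = ∑ s : J ⊕ K, u (e s) • Bm (e s) := by
        rw [e.sum_comp (fun k => u k • Bm k)]
        funext l
        simp [Matrix.mulVec, dotProduct, mul_comm]
      rw [h1, Fintype.sum_sum_type, Matrix.mulVec_add]
      have h2 : (AJ A J).mulVec (∑ ρ : K, u (e (Sum.inr ρ)) • Bm (e (Sum.inr ρ))) = 0 := by
        rw [← Matrix.mulVecLin_apply, map_sum]
        apply Finset.sum_eq_zero
        intro ρ _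
        rw [map_smul, he, Matrix.mulVecLin_apply, h0 ρ, smul_zero]
      rw [h2, add_zero, ← Matrix.mulVecLin_apply (AJ A J), map_sum]
      funext j
      rw [Finset.sum_apply]
      simp only [Matrix.mulVec, dotProduct]
      refine Finset.sum_congr rfl fun j' _ => ?_
      rw [map_smul, Matrix.mulVecLin_apply, Pi.smul_apply, smul_eq_mul, mul_comm, hH]
      rfl
    · rintro ⟨z, rfl⟩
      set x : Fin M → ℤ := ∑ j : J, z j • Bm (e (Sum.inl j)) with hx
      refine ⟨x, ?_⟩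
      rw [hev, hx, ← Matrix.mulVecLin_apply (AJ A J), map_sum, Matrix.toLin'_apply]
      funext j
      rw [Finset.sum_apply]
      simp only [Matrix.mulVec, dotProduct]
      refine Finset.sum_congr rfl fun j' _ => ?_
      rw [map_smul, Matrix.mulVecLin_apply, Pi.smul_apply, smul_eq_mul, mul_comm, hH]
      rfl
  have hinj : Function.Injective (Matrix.toLin' H) := by
    rw [← LinearMap.ker_eq_bot]
    exact Matrix.ker_toLin'_eq_bot_iff.mpr (fun w hw => Matrix.eq_zero_of_mulVec_eq_zero hdet hw)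
  have key := Submodule.natAbs_det_equiv (LinearMap.range (Matrix.toLin' H))
    (LinearEquiv.ofInjective (Matrix.toLin' H) hinj)
  rw [idxA, hrange]
  have h4 : (LinearMap.range (Matrix.toLin' H)).subtype ∘ₗ AddMonoidHom.toIntLinearMap
      ((LinearEquiv.ofInjective (Matrix.toLin' H) hinj : (J → ℤ) ≃ₗ[ℤ] _) :
        (J → ℤ) →+ LinearMap.range (Matrix.toLin' H)) = Matrix.toLin' H := by
    ext x; rfl
  rw [h4, LinearMap.det_toLin'] at key
  rw [key]
  rfl

end frame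

/-- the region of the cone generated by the vectors `h ρ` in the coordinates of `Θ` -/
def regA {J : Finset (Fin r)} {d : ℕ}
    (Θ : ((J → ℝ) × (Fin d → ℝ)) ≃ₗ[ℝ] (Fin M → ℝ)) {K : Type} [Fintype K] (h : K → Fin M → ℤ) :
    Set (Fin d → ℝ) :=
  {a | ∃ c : K → ℝ, (∀ ρ, 0 < c ρ) ∧ Θ (0, a) = ∑ ρ, c ρ • (fun l => (h ρ l : ℝ))}

theorem c1 (A : Fin r → Fin M → ℤ) (J : Finset (Fin r)) (hAi : IndA A J) :
    ∃ (d : ℕ) (Θ : ((J → ℝ) × (Fin d → ℝ)) ≃ₗ[ℝ] (Fin M → ℝ)) (θ : ℝ),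
    AdaptA A J d Θ θ ∧ ∀ (K : Type) [Fintype K] (h : K → Fin M → ℤ)
      (Bm : Matrix (Fin M) (Fin M) ℤ) (e : J ⊕ K ≃ Fin M), IsUnit Bm.det →
      (∀ ρ : K, Bm (e (Sum.inr ρ)) = h ρ) → (∀ ρ, (AJ A J).mulVec (h ρ) = 0) →
      ∀ F : (Fin M → ℝ) → ℂ,
        (θ : ℂ) * (idxA A J : ℂ) * ∫ a in regA Θ h, F (Θ (0, a)) =
          ∫ c in {c : K → ℝ | ∀ ρ, 0 < c ρ}, F (∑ ρ, c ρ • (fun l => (h ρ l : ℝ))) := by
  classical
  obtain ⟨d, Θ, θ, hθ, had, hθt, hA⟩ := exists_adapt A J hAi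
  refine ⟨d, Θ, θ.toReal, had, ?_⟩
  intro K _ h Bm e hB he h0 F
  have hdet := det_Hm_ne A J Bm e h hAi hB h0 he
  have hidx := idx_eq A J Bm e h hB h0 he hdet
  set H := Hm A J Bm e with hH
  set HR : Matrix J J ℝ := H.map (fun x : ℤ => (x : ℝ)) with hHR
  have hdetR : HR.det = (H.det : ℝ) := (RingHom.map_det (Int.castRingHom ℝ) _).symm
  have hdetR0 : HR.det ≠ 0 := by rw [hdetR]; exact_mod_cast hdet
  have hAU : ∀ p, Al A J (Ul J Bm e p) = HR.mulVec p.1 := fun p => Al_Um A J Bm e h h0 he p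
  have hA' : ∀ x : Fin M → ℝ, (Θ.symm x).1 = Al A J x := by
    intro x
    have := hA (Θ.symm x).1 (Θ.symm x).2
    rw [Prod.mk.eta, LinearEquiv.apply_symm_apply] at this
    exact this.symm
  -- the map S
  let Sl : (K → ℝ) →ₗ[ℝ] (Fin d → ℝ) :=
    LinearMap.snd ℝ _ _ ∘ₗ Θ.symm.toLinearMap ∘ₗ Ul J Bm e ∘ₗ LinearMap.inr ℝ _ _
  have hSl : ∀ c, Sl c = (Θ.symm (Ul J Bm e (0, c))).2 := fun c => rfl
  have hU0 : ∀ c, (Θ.symm (Ul J Bm e (0, c))).1 = 0 := by
    intro c
    rw [hA', hAU]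
    simp
  have hΘS : ∀ c, Θ (0, Sl c) = Ul J Bm e (0, c) := by
    intro c
    have h1 : ((0 : J → ℝ), Sl c) = Θ.symm (Ul J Bm e (0, c)) := Prod.ext (hU0 c).symm (hSl c)
    rw [h1, LinearEquiv.apply_symm_apply]
  have hinj : Function.Injective Sl := by
    rw [← LinearMap.ker_eq_bot, LinearMap.ker_eq_bot']
    intro c hc
    have h1 : Ul J Bm e (0, c) = 0 := by
      rw [← hΘS, hc]
      exact map_zero Θ
    have h2 : ((0 : J → ℝ), c) = 0 := (Ul_bij J Bm e hB).1 (by rw [h1, map_zero])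
    exact congrArg Prod.snd h2
  have hcd : Fintype.card K = d := by
    have h1 := had.dim
    have h2 := Fintype.card_congr e
    rw [Fintype.card_sum, Fintype.card_coe, Fintype.card_fin] at h2
    omega
  let S : (K → ℝ) ≃ₗ[ℝ] (Fin d → ℝ) :=
    LinearEquiv.ofInjectiveOfFinrankEq Sl hinj (by
      rw [Module.finrank_fintype_fun_eq_card, Module.finrank_fintype_fun_eq_card, hcd,
        Fintype.card_fin])
  have hS : ∀ c, S c = Sl c := fun c => rfl
  obtain ⟨s, s1, s2, s3⟩ := Pool.Agent.W375.SM.exists_factor (volume : Measure (K → ℝ))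
    (volume : Measure (Fin d → ℝ)) S
  -- the comparison of the factors
  have hfac : s = θ * ENNReal.ofReal |HR.det| := by
    let wl : (J → ℝ) →ₗ[ℝ] (Fin d → ℝ) :=
      LinearMap.snd ℝ _ _ ∘ₗ Θ.symm.toLinearMap ∘ₗ Ul J Bm e ∘ₗ LinearMap.inl ℝ _ _
    have hwl : ∀ z, wl z = (Θ.symm (Ul J Bm e (z, 0))).2 := fun c => rfl
    refine Pool.Agent.W375.SM.factor_block HR hdetR0 wl
      (LinearMap.continuous_of_finiteDimensional wl).measurable S s θ s3 ?_
    have h1 : (fun p : (J → ℝ) × (K → ℝ) => (HR.mulVec p.1, wl p.1 + S p.2)) =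
        Θ.symm ∘ (Um J Bm e) := by
      funext p
      have h2 : p = (p.1, 0) + (0, p.2) := by simp
      refine Prod.ext ?_ ?_
      · simp only [Function.comp_apply]
        rw [hA', ← Ul_apply, hAU]
      · simp only [Function.comp_apply]
        rw [← Ul_apply]
        conv_rhs => rw [h2, map_add, map_add]
        rw [Prod.snd_add, hwl, hS, hSl]
    rw [h1, ← Measure.map_map (Pool.Agent.W375.SM.emb Θ.symm).measurable
      (mp_Um J Bm e hB).measurable, (mp_Um J Bm e hB).map_eq, hθ]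
  have hfacR : (s.toReal : ℝ) = θ.toReal * (idxA A J : ℝ) := by
    rw [hfac, ENNReal.toReal_mul, ENNReal.toReal_ofReal (abs_nonneg _), hdetR, hidx,
      Nat.cast_natAbs]
    push_cast
    rfl
  -- the vector
  have hvec : ∀ c : K → ℝ, Ul J Bm e (0, c) = ∑ ρ, c ρ • (fun l => (h ρ l : ℝ)) := by
    intro c
    funext l
    rw [Ul_apply, Um_apply, Finset.sum_apply]
    simp only [Pi.zero_apply, mul_zero, Finset.sum_const_zero, zero_add, Pi.smul_apply, smul_eq_mul]
    refine Finset.sum_congr rfl fun ρ _ => ?_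
    rw [he, mul_comm]
  have hpre : S ⁻¹' (regA Θ h) = {c : K → ℝ | ∀ ρ, 0 < c ρ} := by
    ext c
    simp only [Set.mem_preimage, regA, Set.mem_ofPred_eq]
    constructor
    · rintro ⟨c', hc', h⟩ ρ
      rw [hS, hΘS, ← hvec] at h
      have h2 := (Ul_bij J Bm e hB).1 h
      have h3 : c = c' := congrArg Prod.snd h2
      rw [h3]
      exact hc' ρ
    · intro hc
      refine ⟨c, hc, ?_⟩
      rw [hS, hΘS, hvec]
  have key := Pool.Agent.W375.SM.setIntegral_factor (volume : Measure (K → ℝ))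
    (volume : Measure (Fin d → ℝ)) S s s3 (regA Θ h) (fun a => F (Θ (0, a)))
  rw [hpre, hfacR] at key
  push_cast at key
  rw [← key]
  refine integral_congr_ae (Filter.Eventually.of_forall fun c => ?_)
  simp only
  rw [hS, hΘS, hvec]

end Pool.Agent.W423.MG
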