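import Pool.Agent.W423.MG.Kill
import Pool.Agent.W423.MV.Pol

set_option autoImplicit false

/-! Polynomiality. -/

namespace Pool.Agent.W423.MG

open MvPolynomial Pool.Agent.H628R4.TZ Pool.Agent.W425.SM
open Pool.Agent.H628R4.TP hiding Sh
open Pool.Agent.W423.MV
open MeasureTheory Set Filter Topology

variable {r N P n : ℕ}

/-- the value of the functional on a squarefree monomial -/
lemma Φ_XJA (A : Fin r → Fin (n+1) → ℤ) (θ : Fin r → ℝ) (lam β : Fin (n+1) → ℝ) (m : ℕ)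
    (J : Finset (Fin r)) :
    Φ (ph (dl m ^ 4)) ∅ lam (aR A) (yo A θ β m) (∏ j ∈ J, X j) =
      (-1) ^ J.card * ∫ x, integA A θ lam β J m x
        ∂(Measure.pi (ms (∅ : Finset (Fin (n+1))))) := by
  classical
  unfold Φ
  rw [← integral_const_mul]
  refine integral_congr_ae (Eventually.of_forall fun x => ?_)
  simp only [integA]
  have h1 : (∏ j ∈ J, X j : MvPolynomial (Fin r) ℂ) =
      monomial (Finsupp.equivFunOnFinite.symm fun j => if j ∈ J then 1 else 0) 1 := by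
    rw [monomial_eq, C_1, one_mul, Finsupp.prod_fintype _ _ (by simp)]
    simp only [Finsupp.equivFunOnFinite_symm_apply_apply, pow_ite, pow_one, pow_zero]
    rw [Finset.prod_ite_mem, Finset.univ_inter]
  rw [h1, D_monomial, one_mul, W]
  have h2 : ∀ j, ((ph (dl m ^ 4) ((Finsupp.equivFunOnFinite.symm
      fun j => if j ∈ J then 1 else 0 : Fin r →₀ ℕ) j) (Y (aR A) (yo A θ β m) x j) : ℝ) : ℂ) =
      (if j ∈ J then (-1 : ℂ) else 1) * (((if j ∈ J then -ph (dl m ^ 4) 1 (yA A x j + yo A θ β m j)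
      else ph (dl m ^ 4) 0 (yA A x j + yo A θ β m j) : ℝ)) : ℂ) := by
    intro j
    rw [Y_yA]
    by_cases hj : j ∈ J <;> simp [hj]
  rw [Complex.ofReal_prod]
  simp only [h2]
  rw [Finset.prod_mul_distrib]
  have h3 : (∏ j, if j ∈ J then (-1 : ℂ) else 1) = (-1) ^ J.card := by
    rw [Finset.prod_ite_mem, Finset.univ_inter, Finset.prod_const]
  rw [h3]
  ring

lemma D_neg (ε : ℝ) (hε : 0 < ε) (y : Fin r → ℝ) (j : Fin r) (hj : y j < 0)
    (p : MvPolynomial (Fin r) ℂ) : D (ph ε) y p = 0 := by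
  induction p using MvPolynomial.induction_on' with
  | monomial k a =>
    rw [D_monomial, W]
    have : ∏ j, ph ε (k j) (y j) = 0 :=
      Finset.prod_eq_zero (Finset.mem_univ j) (ph_neg ε hε _ _ hj)
    rw [this]
    simp
  | add p q hp hq => rw [map_add, hp, hq, add_zero]

lemma Φ_tzero (g : Fin r → Fin (P+1)) (e : Fin r → Fin N → ℕ) (ε : ℝ) (hε : 0 < ε)
    (s : ℝ) (nn : Fin P → ℕ) (μ : Fin N → ℝ) (hl : ∀ i, 0 < lamG s nn μ i) (y0 : Fin r → ℝ)
    (hgr : ∀ k : Fin P, ∃ j, g j = k.succ) (hy0 : ∀ j, y0 j < 0) (k : Fin P)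
    (p : MvPolynomial (Fin r) ℂ) :
    Φ (ph ε) ∅ (lamG s nn μ) (aR (AG g e)) y0 (tpol g nn k * p) = 0 := by
  rw [tpol_eq g e s nn μ k, Φ_step (ph_dseq ε hε) ∅ _ hl (aR (AG g e)) y0 (tc k) (by simp) p]
  refine Φ_eq_zero _ _ _ _ _ fun x hx0 hxS => ?_
  obtain ⟨j, hj⟩ := hgr k
  refine D_neg ε hε _ j ?_ _
  rw [Y_yA, yA_G, hj]
  have h1 : Tk e x k.succ = ∑ i, (VV e i : ℝ) * x (wco i) := by
    unfold Tk
    rw [Fin.cons_succ, hxS (tc k) (Finset.mem_insert_self _ _), sub_zero]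
  rw [h1]
  have h2 : we e x j ≤ ∑ i, (VV e i : ℝ) * x (wco i) := by
    unfold we
    refine Finset.sum_le_sum fun i _ => mul_le_mul_of_nonneg_right ?_ (hx0 _)
    have : e j i ≤ VV e i :=
      Finset.single_le_sum (f := fun j => e j i) (fun _ _ => Nat.zero_le _) (Finset.mem_univ j)
    exact_mod_cast this
  linarith [hy0 j]

/-- the restriction to the line -/
noncomputable def evG (nn : Fin P → ℕ) (m : Fin N → ℕ) :
    MvPolynomial (Ix P N) ℂ →ₐ[ℂ] Polynomial ℂ :=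
  aeval (Sum.elim (Fin.cons Polynomial.X (fun k => Polynomial.C (-((nn k : ℕ) : ℂ))))
    (fun i => Polynomial.C ((m i : ℕ) : ℂ) + Polynomial.X))

/-- the point of the line -/
def pL (nn : Fin P → ℕ) (m : Fin N → ℕ) (s : ℂ) : Ix P N → ℂ :=
  Sum.elim (Fin.cons s (fun k => -((nn k : ℕ) : ℂ))) (fun i => ((m i : ℕ) : ℂ) + s)

lemma evG_X0 (nn : Fin P → ℕ) (m : Fin N → ℕ) :
    evG nn m (X (Sum.inl 0)) = Polynomial.X := by
  unfold evG
  rw [aeval_X]
  rfl

lemma evG_Xs (nn : Fin P → ℕ) (m : Fin N → ℕ) (k : Fin P) :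
    evG nn m (X (Sum.inl k.succ)) = Polynomial.C (-((nn k : ℕ) : ℂ)) := by
  unfold evG
  rw [aeval_X]
  rfl

lemma evG_Xr (nn : Fin P → ℕ) (m : Fin N → ℕ) (i : Fin N) :
    evG nn m (X (Sum.inr i)) = Polynomial.C ((m i : ℕ) : ℂ) + Polynomial.X := by
  unfold evG
  rw [aeval_X]
  rfl

lemma eval_evG (nn : Fin P → ℕ) (m : Fin N → ℕ) (s : ℂ) (b : MvPolynomial (Ix P N) ℂ) :
    (evG nn m b).eval s = eval (pL nn m s) b := by
  induction b using MvPolynomial.induction_on with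
  | C a => simp [evG]
  | add p q hp hq => rw [map_add, Polynomial.eval_add, hp, hq, map_add]
  | mul_X p i hp =>
    rw [map_mul, Polynomial.eval_mul, hp, map_mul, eval_X]
    congr 1
    rcases i with k | i
    · rcases Fin.eq_zero_or_eq_succ k with h | ⟨k', h⟩
      · subst h
        rw [evG_X0]
        simp [pL]
      · subst h
        rw [evG_Xs]
        simp [pL]
    · rw [evG_Xr]
      simp [pL]

/-- reduction to one variable -/
lemma btm_sub (g : Fin r → Fin (P+1)) (nn : Fin P → ℕ) (m : Fin N → ℕ)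
    (b : MvPolynomial (Ix P N) ℂ) :
    btm g m b - Polynomial.aeval (sgm g 0) (evG nn m b) ∈
      Ideal.span (Set.range (tpol g nn)) := by
  have hX : ∀ i : Ix P N, btm g m (X i) - Polynomial.aeval (sgm g 0) (evG nn m (X i)) ∈
      Ideal.span (Set.range (tpol g nn)) := by
    intro i
    have hb : btm g m (X i) = sbt g m i := by
      unfold btm
      rw [aeval_X]
    rw [hb]
    rcases i with k | i
    · rcases Fin.eq_zero_or_eq_succ k with h | ⟨k', h⟩
      · subst h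
        rw [evG_X0, Polynomial.aeval_X]
        have : sbt g m (Sum.inl 0) = sgm g 0 := rfl
        rw [this, sub_self]
        exact Ideal.zero_mem _
      · subst h
        rw [evG_Xs, Polynomial.aeval_C]
        have h1 : sbt g m (Sum.inl k'.succ) - algebraMap ℂ (MvPolynomial (Fin r) ℂ)
            (-((nn k' : ℕ) : ℂ)) = tpol g nn k' := by
          unfold tpol
          have : sbt g m (Sum.inl k'.succ) = sgm g k'.succ := rfl
          rw [this, map_neg, sub_neg_eq_add, add_comm]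
          rfl
        rw [h1]
        exact Ideal.subset_span ⟨k', rfl⟩
    · rw [evG_Xr, map_add, Polynomial.aeval_C, Polynomial.aeval_X]
      have : sbt g m (Sum.inr i) = C ((m i : ℕ) : ℂ) + sgm g 0 := rfl
      rw [this]
      have h2 : (algebraMap ℂ (MvPolynomial (Fin r) ℂ)) ((m i : ℕ) : ℂ) =
          C ((m i : ℕ) : ℂ) := rfl
      rw [h2, sub_self]
      exact Ideal.zero_mem _
  induction b using MvPolynomial.induction_on with
  | C a =>
    have h1 : btm g m (C a : MvPolynomial (Ix P N) ℂ) = C a := by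
      unfold btm
      rw [aeval_C]
      rfl
    have h2 : evG nn m (C a : MvPolynomial (Ix P N) ℂ) = Polynomial.C a := by
      unfold evG
      rw [aeval_C]
      rfl
    rw [h1, h2, Polynomial.aeval_C]
    have h3 : (algebraMap ℂ (MvPolynomial (Fin r) ℂ)) a = C a := rfl
    rw [h3, sub_self]
    exact Ideal.zero_mem _
  | add p q hp hq =>
    rw [map_add, map_add, map_add]
    have h1 : btm g m p + btm g m q - (Polynomial.aeval (sgm g 0) (evG nn m p) +
        Polynomial.aeval (sgm g 0) (evG nn m q)) =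
        (btm g m p - Polynomial.aeval (sgm g 0) (evG nn m p)) +
        (btm g m q - Polynomial.aeval (sgm g 0) (evG nn m q)) := by ring
    rw [h1]
    exact Ideal.add_mem _ hp hq
  | mul_X p i hp =>
    rw [map_mul, map_mul, map_mul]
    have h1 : btm g m p * btm g m (X i) - Polynomial.aeval (sgm g 0) (evG nn m p) *
        Polynomial.aeval (sgm g 0) (evG nn m (X i)) =
        btm g m (X i) * (btm g m p - Polynomial.aeval (sgm g 0) (evG nn m p)) +
        Polynomial.aeval (sgm g 0) (evG nn m p) *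
          (btm g m (X i) - Polynomial.aeval (sgm g 0) (evG nn m (X i))) := by ring
    rw [h1]
    exact Ideal.add_mem _ (Ideal.mul_mem_left _ _ hp) (Ideal.mul_mem_left _ _ (hX i))

lemma Φ_ideal (g : Fin r → Fin (P+1)) (e : Fin r → Fin N → ℕ) (ε : ℝ) (hε : 0 < ε)
    (s : ℝ) (nn : Fin P → ℕ) (μ : Fin N → ℝ) (hl : ∀ i, 0 < lamG s nn μ i) (y0 : Fin r → ℝ)
    (hgr : ∀ k : Fin P, ∃ j, g j = k.succ) (hy0 : ∀ j, y0 j < 0)
    (h : MvPolynomial (Fin r) ℂ) (hh : h ∈ Ideal.span (Set.range (tpol g nn))) :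
    ∀ p : MvPolynomial (Fin r) ℂ, Φ (ph ε) ∅ (lamG s nn μ) (aR (AG g e)) y0 (p * h) = 0 := by
  refine Submodule.span_induction (p := fun h _ => ∀ p : MvPolynomial (Fin r) ℂ,
    Φ (ph ε) ∅ (lamG s nn μ) (aR (AG g e)) y0 (p * h) = 0) ?_ ?_ ?_ ?_ hh
  · rintro _ ⟨k, rfl⟩ p
    rw [mul_comm]
    exact Φ_tzero g e ε hε s nn μ hl y0 hgr hy0 k p
  · intro p
    rw [mul_zero]
    have := Φ_C_mul (φ := ph ε) ∅ (lamG s nn μ) (aR (AG g e)) y0 0 0
    simpa using this
  · intro x y _ _ hx hy p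
    rw [mul_add, Φ_add (ph_dseq ε hε) _ _ hl, hx, hy, add_zero]
  · intro a x _ hx p
    rw [smul_eq_mul, ← mul_assoc]
    exact hx _

/-! ### Polynomials in `s_0` -/

lemma Φ_indepG (φ : ℕ → ℝ → ℝ) (s : ℝ) (nn : Fin P → ℕ) (μ : Fin N → ℝ)
    (a : Fin r → Fin (P+N+1) → ℝ) (y0 : Fin r → ℝ) (p : MvPolynomial (Fin r) ℂ) :
    Φ φ {0} (lamG s nn μ) a y0 p = Φ φ {0} (lamG 1 nn μ) a y0 p := by
  unfold Φ
  refine integral_congr_ae ?_
  filter_upwards [ae_ms (M := P+N+1) {0}] with x hx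
  have h0 : x 0 = 0 := hx.2 0 (by simp)
  have : wt (lamG s nn μ) x = wt (lamG 1 nn μ) x := by
    unfold wt
    rw [Fin.prod_univ_succ, Fin.prod_univ_succ, h0]
    simp [lamG, lw]
  simp only [this]

noncomputable def PeG (g : Fin r → Fin (P+1)) (e : Fin r → Fin N → ℕ) (nn : Fin P → ℕ)
    (μ : Fin N → ℝ) (y0 : Fin r → ℝ) (ε : ℝ)
    (kk : MvPolynomial (Fin r) ℂ) (b : Polynomial ℂ) : Polynomial ℂ :=
  ∑ k ∈ Finset.range (b.natDegree + 1), ∑ i ∈ Finset.range k,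
    Polynomial.monomial i (b.coeff k *
      Φ (ph ε) {0} (lamG 1 nn μ) (aR (AG g e)) y0 (kk * (sgm g 0) ^ (k - 1 - i)))

lemma PeG_natDegree (g : Fin r → Fin (P+1)) (e : Fin r → Fin N → ℕ) (nn : Fin P → ℕ)
    (μ : Fin N → ℝ) (y0 : Fin r → ℝ) (ε : ℝ)
    (kk : MvPolynomial (Fin r) ℂ) (b : Polynomial ℂ) :
    (PeG g e nn μ y0 ε kk b).natDegree ≤ b.natDegree := by
  unfold PeG
  refine Polynomial.natDegree_sum_le_of_forall_le _ _ fun k hk => ?_
  refine Polynomial.natDegree_sum_le_of_forall_le _ _ fun i hi => ?_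
  refine (Polynomial.natDegree_monomial_le _).trans ?_
  simp only [Finset.mem_range] at hk hi
  omega

lemma PeG_eval (g : Fin r → Fin (P+1)) (e : Fin r → Fin N → ℕ) (nn : Fin P → ℕ)
    (μ : Fin N → ℝ) (y0 : Fin r → ℝ) (ε : ℝ) (kk : MvPolynomial (Fin r) ℂ) (b : Polynomial ℂ)
    (s : ℝ) (hε : 0 < ε) (lpos : ∀ i, 0 < lamG s nn μ i) (lpos1 : ∀ i, 0 < lamG 1 nn μ i)
    (h0 : Φ (ph ε) ∅ (lamG s nn μ) (aR (AG g e)) y0
        (kk * Polynomial.aeval (sgm g 0) b) = 0) :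
    b.eval (s : ℂ) * Φ (ph ε) ∅ (lamG s nn μ) (aR (AG g e)) y0 kk =
      (PeG g e nn μ y0 ε kk b).eval (s : ℂ) := by
  set σ : MvPolynomial (Fin r) ℂ := sgm g 0 with hσ
  set β : MvPolynomial (Fin r) ℂ := ∑ k ∈ Finset.range (b.natDegree + 1),
    C (b.coeff k) * ∑ i ∈ Finset.range k, (C (s:ℂ)) ^ i * (kk * σ ^ (k - 1 - i)) with hβ
  have h1 : C (b.eval (s:ℂ)) * kk = kk * Polynomial.aeval σ b + (C (s:ℂ) - σ) * β := by
    have h2 : (C (b.eval (s:ℂ)) : MvPolynomial (Fin r) ℂ) =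
        ∑ k ∈ Finset.range (b.natDegree + 1), C (b.coeff k) * (C (s:ℂ)) ^ k := by
      rw [Polynomial.eval_eq_sum_range, map_sum]
      exact Finset.sum_congr rfl fun k _ => by rw [map_mul, map_pow]
    have h3 : Polynomial.aeval σ b = ∑ k ∈ Finset.range (b.natDegree + 1),
        C (b.coeff k) * σ ^ k := by
      rw [Polynomial.aeval_eq_sum_range]
      exact Finset.sum_congr rfl fun k _ => by rw [C_mul']
    have hβ' : β = kk * ∑ k ∈ Finset.range (b.natDegree + 1),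
        C (b.coeff k) * ∑ i ∈ Finset.range k, (C (s:ℂ)) ^ i * σ ^ (k - 1 - i) := by
      rw [hβ, Finset.mul_sum]
      refine Finset.sum_congr rfl fun k _ => ?_
      rw [mul_left_comm, Finset.mul_sum (a := kk)]
      congr 1
      exact Finset.sum_congr rfl fun i _ => by ring
    have h5 : (C (b.eval (s:ℂ)) : MvPolynomial (Fin r) ℂ) = Polynomial.aeval σ b +
        (C (s:ℂ) - σ) * ∑ k ∈ Finset.range (b.natDegree + 1),
        C (b.coeff k) * ∑ i ∈ Finset.range k, (C (s:ℂ)) ^ i * σ ^ (k - 1 - i) := by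
      rw [h2, h3, Finset.mul_sum, ← Finset.sum_add_distrib]
      refine Finset.sum_congr rfl fun k _ => ?_
      have h4 := geom_sum₂_mul (C (s:ℂ) : MvPolynomial (Fin r) ℂ) σ k
      linear_combination (-C (b.coeff k)) * h4
    rw [hβ', h5]
    ring
  have h5 : C (s:ℂ) - σ = C ((lamG s nn μ 0 : ℝ) : ℂ) + Lf (fun j => aR (AG g e) j 0) := by
    rw [lamG_zero, sub_eq_add_neg]
    congr 1
    rw [hσ]
    unfold Lf sgm gs aR
    rw [← Finset.sum_neg_distrib]
    refine Finset.sum_congr rfl fun j _ => ?_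
    simp only [AG_zero]
    split_ifs <;> simp
  rw [← Φ_C_mul, h1, Φ_add (ph_dseq ε hε) _ _ lpos, h0, zero_add, h5,
    Φ_step (ph_dseq ε hε) ∅ _ lpos _ _ 0 (by simp)]
  have h6 : (insert 0 ∅ : Finset (Fin (P+N+1))) = {0} := rfl
  rw [h6, Φ_indepG, hβ, Φ_sum (ph_dseq ε hε) _ _ lpos1]
  unfold PeG
  rw [Polynomial.eval_finsetSum]
  refine Finset.sum_congr rfl fun k _ => ?_
  rw [Φ_C_mul, Φ_sum (ph_dseq ε hε) _ _ lpos1, Polynomial.eval_finsetSum,
    Finset.mul_sum]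
  refine Finset.sum_congr rfl fun i _ => ?_
  rw [← map_pow, Φ_C_mul, Polynomial.eval_monomial]
  ring

/-! ### The translation -/

/-- the direction of the translation -/
noncomputable def bG (e : Fin r → Fin N → ℕ) (K : ℝ) : Fin (P+N+1) → ℝ :=
  Fin.cons (-K) (Fin.append (fun _ : Fin P => ∑ i, (VV e i : ℝ) + K) (fun _ : Fin N => 1))

lemma bG_zero (e : Fin r → Fin N → ℕ) (K : ℝ) : bG (P := P) e K 0 = -K := rfl

lemma bG_tc (e : Fin r → Fin N → ℕ) (K : ℝ) (k : Fin P) :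
    bG (P := P) e K (tc k) = ∑ i, (VV e i : ℝ) + K := by
  unfold bG tc
  rw [Fin.cons_succ, Fin.append_left]

lemma bG_wc (e : Fin r → Fin N → ℕ) (K : ℝ) (i : Fin N) : bG (P := P) e K (wco i) = 1 := by
  unfold bG wco
  rw [Fin.cons_succ, Fin.append_right]

lemma yo_G (g : Fin r → Fin (P+1)) (e : Fin r → Fin N → ℕ) (θ : Fin r → ℝ) (K : ℝ) (m : ℕ) :
    yo (AG g e) θ (bG e K) m = yTG e θ (K * dl m) (dl m) (dl m ^ 2) := by
  funext j
  unfold yo yTG
  rw [yA_G]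
  have h1 : we e (bG (P := P) e K) j = ∑ i, (e j i : ℝ) := by
    unfold we
    exact Finset.sum_congr rfl fun i _ => by rw [bG_wc, mul_one]
  have h2 : ∀ k, Tk e (bG (P := P) e K) k = -K := by
    intro k
    rcases Fin.eq_zero_or_eq_succ k with h | ⟨k', h⟩
    · subst h; rfl
    · subst h
      unfold Tk
      rw [Fin.cons_succ, bG_tc]
      simp only [bG_wc, mul_one]
      ring
  rw [h1, h2]
  ring

/-- **`p(s) W(s)` is a polynomial**, where `W` is the limit for `J`. -/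
theorem pJG (g : Fin r → Fin (P+1)) (e : Fin r → Fin N → ℕ) (θ : Fin r → ℝ)
    (hgr : ∀ k : Fin P, ∃ j, g j = k.succ) (b' : MvPolynomial (Ix P N) ℂ) (M : ℕ)
    (Cs Cs0 : Finset (Fin r → ℤ)) (hR : RelG g e θ b' M Cs Cs0)
    (m : Fin N → ℕ) (nn : Fin P → ℕ) (μ : Fin N → ℝ)
    (hμ : ∀ i, (m i : ℝ) + 1 = μ i + (VV e i : ℝ) * ∑ k, (nn k : ℝ))
    (hgrow : ∀ s : ℝ, 1 ≤ s → ∀ κ : Fin r → ℕ, (∀ j, κ j ≤ M) →
      ∀ i, ∑ j, (κ j : ℝ) * (AG g e j i : ℝ) < lamG s nn μ i)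
    (J : Finset (Fin r)) (W : ℝ → ℂ)
    (hW : ∀ K : ℝ, 0 < K → ∀ s : ℝ, 1 ≤ s →
      Tendsto (fun l : ℕ => ∫ x, integA (AG g e) θ (lamG s nn μ) (bG e K) J l x
        ∂(Measure.pi (ms (∅ : Finset (Fin (P+N+1)))))) atTop (𝓝 (W s))) :
    ∃ Q : Polynomial ℂ, ∀ s : ℝ, 1 ≤ s → (evG nn m b').eval (s : ℂ) * W s = Q.eval (s : ℂ) := by
  obtain ⟨K0, hK0, hkill⟩ := killsG g e θ hgr b' M Cs Cs0 hR
  set K : ℝ := 3 * K0 + 1 with hK
  have hKpos : 0 < K := by positivity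
  have lpos : ∀ s : ℝ, 1 ≤ s → ∀ i, 0 < lamG s nn μ i := by
    intro s hs i
    have := hgrow s hs (fun _ => 0) (fun _ => Nat.zero_le _) i
    simpa using this
  have hev : ∀ᶠ l in atTop, dl l ^ 2 * K0 < 1 := by
    have h1 : Tendsto (fun l => dl l ^ 2 * K0) atTop (𝓝 (0 ^ 2 * K0)) :=
      (dl_tendsto.pow 2).mul_const K0
    have h3 : (0:ℝ) ^ 2 * K0 = 0 := by ring
    rw [h3] at h1
    exact h1.eventually (gt_mem_nhds one_pos)
  set p := evG nn m b' with hp
  obtain ⟨Q, hQ⟩ := limit_poly'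
    (fun l => PeG g e nn μ (yo (AG g e) θ (bG e K) l) (dl l ^ 4) (∏ j ∈ J, X j) p) p.natDegree
    (fun l => PeG_natDegree _ _ _ _ _ _ _ _)
    (fun s => p.eval (s : ℂ) * ((-1) ^ J.card * W s)) 1 (by
      intro s hs
      have h1 := ((hW K hKpos s hs).const_mul ((-1 : ℂ) ^ J.card)).const_mul (p.eval (s : ℂ))
      refine h1.congr' ?_
      filter_upwards [hev] with l hl
      rw [← Φ_XJA]
      have hd := dl_pos l
      have hd1 := dl_le l
      have hd2 : 0 < dl l ^ 2 := pow_pos hd 2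
      have hd2' : dl l ^ 2 ≤ dl l := by nlinarith
      have hd4' : dl l ^ 4 ≤ dl l := by
        have : dl l ^ 4 = dl l ^ 2 * dl l ^ 2 := by ring
        rw [this]
        nlinarith
      refine PeG_eval g e nn μ _ _ _ p s (pow_pos hd 4) (lpos s hs) (lpos 1 le_rfl) ?_
      have h2 := hkill m nn μ s hμ (hgrow s hs) (∏ j ∈ J, X j) (dl l ^ 4) (pow_pos hd 4)
        (dl l ^ 2) hd2 (by
          have h5 : dl l ^ 4 * K0 = dl l ^ 2 * (dl l ^ 2 * K0) := by ring
          rw [h5]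
          nlinarith) (dl l) (K * dl l) (by
          rw [abs_of_pos hd, hK]
          have h3 : (dl l ^ 4 + dl l + dl l ^ 2) * K0 ≤ (dl l + dl l + dl l) * K0 :=
            mul_le_mul_of_nonneg_right (by linarith) hK0
          nlinarith)
      rw [← yo_G g e θ K l] at h2
      obtain ⟨hy0, h2⟩ := h2
      have h3 := Φ_ideal g e (dl l ^ 4) (pow_pos hd 4) s nn μ (lpos s hs)
        (yo (AG g e) θ (bG e K) l) hgr hy0 _ (btm_sub g nn m b') (∏ j ∈ J, X j)
      have h4 : (∏ j ∈ J, X j : MvPolynomial (Fin r) ℂ) * btm g m b' =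
          (∏ j ∈ J, X j) * Polynomial.aeval (sgm g 0) p +
          (∏ j ∈ J, X j) * (btm g m b' - Polynomial.aeval (sgm g 0) p) := by ring
      rw [h4, Φ_add (ph_dseq _ (pow_pos hd 4)) _ _ (lpos s hs), h3, add_zero] at h2
      exact h2)
  refine ⟨Polynomial.C ((-1) ^ J.card) * Q, fun s hs => ?_⟩
  rw [Polynomial.eval_mul, Polynomial.eval_C, ← hQ s hs]
  have h1 : ((-1 : ℂ) ^ J.card) * (-1) ^ J.card = 1 := by
    rw [← mul_pow]; simp
  linear_combination (-(p.eval (s : ℂ)) * W s) * h1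

end Pool.Agent.W423.MG
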