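import Pool.Agent.W423.MG.Cay

set_option autoImplicit false

/-! Definitions for the statement. -/

namespace Pool.Agent.W423.MG

open MvPolynomial Pool.Agent.H628R4.TZ Pool.Agent.H628R4.TP Pool.Agent.W425.SM
open Pool.Agent.W423.MV

variable {r N P : ℕ}

/-- `b` belongs to the Bernstein-Sato ideal of the tuple `(f_i)_{i ∈ ι}`:
`b(s) ∏ f_i ^ s_i = D(s) ∏ f_i ^ (s_i + 1)` for some `D(s) = ∑_β s ^ β D_β` with finitely many
`D_β ≠ 0` in the Weyl algebra. The equation is stated for all `s ∈ ℕ ^ ι`; this is equivalent to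
the formal equation, as the coefficients are polynomials in `s`. -/
def InBSIdealT {ι : Type} [Fintype ι] (f : ι → MvPolynomial (Fin N) ℂ)
    (b : MvPolynomial ι ℂ) : Prop :=
  ∃ D : (ι →₀ ℕ) →₀ weyl N, ∀ s : ι → ℕ,
    C (eval (fun i => (s i : ℂ)) b) * ∏ i, f i ^ s i =
      D.sum fun β Q => (∏ i, (s i : ℂ) ^ β i) •
        (Q : Module.End ℂ (MvPolynomial (Fin N) ℂ)) (∏ i, f i ^ (s i + 1))

/-- The polynomial `g_k = ∑_{g j = k} a_j x ^ (v j)`. -/
noncomputable def polyG (g : Fin r → Fin (P+1)) (v : Fin r → Fin N → ℕ) (a : Fin r → ℂ)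
    (k : Fin (P+1)) : MvPolynomial (Fin N) ℂ :=
  ∑ j, if g j = k then C (a j) * ∏ i, X i ^ v j i else 0

/-- The tuple `(g_0, …, g_P, x_1, …, x_N)`. -/
noncomputable def tupleG (g : Fin r → Fin (P+1)) (v : Fin r → Fin N → ℕ) (a : Fin r → ℂ) :
    Fin (P+1) ⊕ Fin N → MvPolynomial (Fin N) ℂ :=
  Sum.elim (polyG g v a) (fun i => X i)

/-- The linear form `∑_k ord_ρ(g_k) s_k + ∑_i ρ_i (s'_i + 1)` of the toric divisor of the ray `ρ`:
the order of `g_k` along this divisor is `ordG g v k ρ`, the order of `x_i` is `ρ_i`, and the order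
of the Jacobian determinant of the toric morphism is `∑_i ρ_i - 1`. -/
noncomputable def linG (g : Fin r → Fin (P+1)) (v : Fin r → Fin N → ℕ) (ρ : Fin N → ℕ) :
    MvPolynomial (Fin (P+1) ⊕ Fin N) ℂ :=
  ∑ k, C (ordG g v k ρ : ℂ) * X (Sum.inl k) + ∑ i, C (ρ i : ℂ) * (X (Sum.inr i) + 1)

/-- The set `K` of those `k` for which `J` contains at least two indices of the group `k`. -/
def typeG (g : Fin r → Fin (P+1)) (J : Finset (Fin r)) : Finset (Fin (P+1)) :=
  Finset.univ.filter fun k => 2 ≤ (J.filter (fun j => g j = k)).card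

/-- The simplices `J` of the regular triangulation of the face, belonging to the cone `σ`, of the
Cayley configuration which have the expected number `N + P + 1 - |σ|` of vertices and a vertex in
each group; they correspond to the cells of a fine mixed subdivision of the Minkowski sum of the
faces of the Newton polytopes of `g_0, …, g_P` which belong to `σ`. -/
noncomputable def cellsG (g : Fin r → Fin (P+1)) (v : Fin r → Fin N → ℕ) (θ : Fin r → ℝ)
    (σ : Finset (Fin N → ℕ)) : Finset (Finset (Fin r)) :=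
  open Classical in
  (minSetG g v σ).powerset.filter fun J =>
    (∀ k, ∃ j ∈ J, g j = k) ∧ σ.card + J.card = P + N + 1 ∧ AdmC g v θ J

/-- The sum, over all `(a_k)_{k ∈ K}` with `a_k ≥ 1` and `∑ a_k = n := N - |σ|`, of the (integral)
mixed volumes in the torus orbit of `σ` of `a_k` copies of the face of the Newton polytope of `g_k`
which belongs to `σ`, `k ∈ K`; it is computed as the sum of the lattice indices of the cells `J` of
type `K` of the fine mixed subdivision given by the heights `θ`. -/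
noncomputable def mvG (g : Fin r → Fin (P+1)) (v : Fin r → Fin N → ℕ) (θ : Fin r → ℝ)
    (σ : Finset (Fin N → ℕ)) (K : Finset (Fin (P+1))) : ℕ :=
  ∑ J ∈ (cellsG g v θ σ).filter (fun J => typeG g J = K), idxC g v J

/-- The Euler characteristic of the intersection of the torus orbit of `σ` with the strict
transforms of `{g_k = 0}`, `k ∈ K` (Bernstein and Khovanskii):
`(-1) ^ (N - |σ| - |K|) mvG g v θ σ K`. -/
noncomputable def chiG (g : Fin r → Fin (P+1)) (v : Fin r → Fin N → ℕ) (θ : Fin r → ℝ)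
    (σ : Finset (Fin N → ℕ)) (K : Finset (Fin (P+1))) : ℤ :=
  (-1) ^ (N + σ.card + K.card) * (mvG g v θ σ K : ℤ)

/-- The Euler characteristic of the part of the torus orbit of `σ` which is in the strict
transform of `{g_k = 0}` exactly for `k ∈ K` (inclusion and exclusion). -/
noncomputable def chiStrG (g : Fin r → Fin (P+1)) (v : Fin r → Fin N → ℕ) (θ : Fin r → ℝ)
    (σ : Finset (Fin N → ℕ)) (K : Finset (Fin (P+1))) : ℤ :=
  ∑ T ∈ Kᶜ.powerset, (-1) ^ T.card * chiG g v θ σ (K ∪ T)

/-- The topological zeta function, in the variables `s_0, …, s_P, s'_1, …, s'_N`, of the tuple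
`(g_0, …, g_P, x_1, …, x_N)`, computed on the toric log resolution given by `R`. -/
noncomputable def topZetaG (g : Fin r → Fin (P+1)) (v : Fin r → Fin N → ℕ) (θ : Fin r → ℝ)
    (R : SmoothFan N) : FractionRing (MvPolynomial (Fin (P+1) ⊕ Fin N) ℂ) :=
  ∑ σ ∈ R.cones, (∑ K : Finset (Fin (P+1)),
      ((chiStrG g v θ σ K : ℤ) : FractionRing (MvPolynomial (Fin (P+1) ⊕ Fin N) ℂ)) *
        ∏ k ∈ K, (algebraMap (MvPolynomial (Fin (P+1) ⊕ Fin N) ℂ) _ (X (Sum.inl k) + 1))⁻¹) *
    ∏ ρ ∈ σ, (algebraMap (MvPolynomial (Fin (P+1) ⊕ Fin N) ℂ) _ (linG g v ρ))⁻¹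

end Pool.Agent.W423.MG
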