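import Pool.Agent.W423.MG.Desc

set_option autoImplicit false

/-! Divisibility on lines. -/

namespace Pool.Agent.W423.MG

open MvPolynomial Pool.Agent.H628R4.TZ Pool.Agent.W425.SM

variable {r N P : ℕ}

/-- the field of rational functions -/
abbrev KG (P N : ℕ) := FractionRing (MvPolynomial (Ix P N) ℂ)

section tau

variable (V : Fin N → ℕ)

/-- `s_0 ↦ X`, `s_{k+1} ↦ -X_k`, `s'_i ↦ X_i + V_i ∑ X_k + X` -/
noncomputable def tauG :
    MvPolynomial (Ix P N) ℂ →ₐ[ℂ] Polynomial (MvPolynomial (Fin P ⊕ Fin N) ℂ) :=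
  aeval (Sum.elim (Fin.cons Polynomial.X (fun k => Polynomial.C (-X (Sum.inl k))))
    (fun i => Polynomial.C (X (Sum.inr i) + C (V i : ℂ) * ∑ k, X (Sum.inl k)) + Polynomial.X))

/-- the inverse -/
noncomputable def tauG' :
    Polynomial (MvPolynomial (Fin P ⊕ Fin N) ℂ) →+* MvPolynomial (Ix P N) ℂ :=
  Polynomial.eval₂RingHom
    ((aeval (Sum.elim (fun k => -X (Sum.inl (Fin.succ k)))
      (fun i => X (Sum.inr i) - X (Sum.inl 0) + C (V i : ℂ) * ∑ k : Fin P, X (Sum.inl k.succ))) :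
      MvPolynomial (Fin P ⊕ Fin N) ℂ →ₐ[ℂ] MvPolynomial (Ix P N) ℂ) : _ →+* _) (X (Sum.inl 0))

lemma tauG_C (c : ℂ) : tauG (P := P) V (C c) = Polynomial.C (C c) := by
  unfold tauG
  rw [aeval_C]
  rfl

lemma tauG_X0 : tauG (P := P) V (X (Sum.inl 0)) = Polynomial.X := by
  unfold tauG
  rw [aeval_X]
  rfl

lemma tauG_Xs (k : Fin P) : tauG V (X (Sum.inl k.succ)) = Polynomial.C (-X (Sum.inl k)) := by
  unfold tauG
  rw [aeval_X]
  rfl

lemma tauG_Xr (i : Fin N) : tauG (P := P) V (X (Sum.inr i)) =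
    Polynomial.C (X (Sum.inr i) + C (V i : ℂ) * ∑ k, X (Sum.inl k)) + Polynomial.X := by
  unfold tauG
  rw [aeval_X]
  rfl

lemma tauG'_C (q : MvPolynomial (Fin P ⊕ Fin N) ℂ) : tauG' V (Polynomial.C q) =
    aeval (Sum.elim (fun k => -X (Sum.inl (Fin.succ k)))
      (fun i => X (Sum.inr i) - X (Sum.inl 0) + C (V i : ℂ) * ∑ k : Fin P, X (Sum.inl k.succ))) q := by
  unfold tauG'
  rw [Polynomial.coe_eval₂RingHom, Polynomial.eval₂_C]
  rfl

lemma tauG'_X : tauG' V (Polynomial.X : Polynomial (MvPolynomial (Fin P ⊕ Fin N) ℂ)) =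
    X (Sum.inl 0) := by
  unfold tauG'
  rw [Polynomial.coe_eval₂RingHom, Polynomial.eval₂_X]

lemma tauG'_tauG (p : MvPolynomial (Ix P N) ℂ) : tauG' V (tauG V p) = p := by
  induction p using MvPolynomial.induction_on with
  | C a =>
    rw [tauG_C, tauG'_C, aeval_C]
    rfl
  | add p q hp hq => rw [map_add, map_add, hp, hq]
  | mul_X p i hp =>
    rw [map_mul, map_mul, hp]
    congr 1
    rcases i with k | i
    · rcases Fin.eq_zero_or_eq_succ k with h | ⟨k', h⟩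
      · subst h
        rw [tauG_X0, tauG'_X]
      · subst h
        rw [tauG_Xs, tauG'_C, map_neg, aeval_X, Sum.elim_inl, neg_neg]
    · rw [tauG_Xr, map_add, tauG'_X, tauG'_C, map_add, map_mul, map_sum, aeval_X, Sum.elim_inr,
        aeval_C]
      simp only [aeval_X, Sum.elim_inl]
      rw [Finset.sum_neg_distrib]
      have h1 : (algebraMap ℂ (MvPolynomial (Ix P N) ℂ)) (V i : ℂ) = C (V i : ℂ) := rfl
      rw [h1]
      ring

lemma tauG_injective : Function.Injective (tauG V : MvPolynomial (Ix P N) ℂ → _) :=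
  Function.LeftInverse.injective (tauG'_tauG V)

/-- the restriction to the line -/
noncomputable def evQ (q : Fin P ⊕ Fin N → ℕ) : MvPolynomial (Ix P N) ℂ →ₐ[ℂ] Polynomial ℂ :=
  evG (fun k => q (Sum.inl k)) (fun i => q (Sum.inr i) + V i * ∑ k, q (Sum.inl k))

/-- the point of the line -/
def ptQ (q : Fin P ⊕ Fin N → ℕ) (s : ℂ) : Ix P N → ℂ :=
  pL (fun k => q (Sum.inl k)) (fun i => q (Sum.inr i) + V i * ∑ k, q (Sum.inl k)) s

lemma eval_evQ (q : Fin P ⊕ Fin N → ℕ) (s : ℂ) (b : MvPolynomial (Ix P N) ℂ) :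
    (evQ V q b).eval s = eval (ptQ V q s) b := eval_evG _ _ _ _

lemma map_tauG (q : Fin P ⊕ Fin N → ℕ) (p : MvPolynomial (Ix P N) ℂ) :
    (tauG V p).map (eval (fun i => (q i : ℂ))) = evQ V q p := by
  induction p using MvPolynomial.induction_on with
  | C a =>
    rw [tauG_C, Polynomial.map_C, eval_C, evQ, evG, aeval_C]
    rfl
  | add p q hp hq => rw [map_add, Polynomial.map_add, hp, hq, map_add]
  | mul_X p i hp =>
    rw [map_mul, Polynomial.map_mul, hp, map_mul]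
    congr 1
    rcases i with k | i
    · rcases Fin.eq_zero_or_eq_succ k with h | ⟨k', h⟩
      · subst h
        rw [tauG_X0, evQ, evG_X0, Polynomial.map_X]
      · subst h
        rw [tauG_Xs, evQ, evG_Xs, Polynomial.map_C]
        simp
    · rw [tauG_Xr, evQ, evG_Xr, Polynomial.map_add, Polynomial.map_C, Polynomial.map_X]
      congr 2
      simp

lemma dvd_of_evalG {ι : Type} (G H : Polynomial (MvPolynomial ι ℂ)) (hH : IsUnit H.leadingCoeff)
    (m0 : ℕ) (h : ∀ m : ι → ℕ, (∀ i, m0 ≤ m i) →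
      H.map (eval (fun i => (m i : ℂ))) ∣ G.map (eval (fun i => (m i : ℂ)))) : H ∣ G := by
  obtain ⟨u, hu⟩ := hH
  set H' : Polynomial (MvPolynomial ι ℂ) :=
    Polynomial.C ((u⁻¹ : (MvPolynomial ι ℂ)ˣ) : MvPolynomial ι ℂ) * H with hH'
  have hmon : H'.Monic := Polynomial.monic_C_mul_of_mul_leadingCoeff_eq_one (by
    rw [← hu]; simp)
  have hHH' : H ∣ H' := Dvd.intro_left _ rfl
  have hH'H : H' ∣ H := by
    refine ⟨Polynomial.C ((u : (MvPolynomial ι ℂ)ˣ) : MvPolynomial ι ℂ), ?_⟩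
    rw [hH', mul_right_comm, ← Polynomial.C_mul]
    simp
  refine hHH'.trans ?_
  rw [← Polynomial.modByMonic_eq_zero_iff_dvd hmon]
  ext1 k
  rw [Polynomial.coeff_zero]
  refine funext_set (fun _ => (Nat.cast : ℕ → ℂ) '' Set.Ici m0)
    (fun _ => (Set.Ici_infinite m0).image Nat.cast_injective.injOn) fun x hx => ?_
  choose m hm using fun j => hx j (Set.mem_univ j)
  obtain rfl : x = fun j => (m j : ℂ) := funext fun j => (hm j).2.symm
  have h1 : (G %ₘ H').map (eval (fun i => (m i : ℂ))) = 0 := by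
    rw [Polynomial.map_modByMonic _ hmon, Polynomial.modByMonic_eq_zero_iff_dvd (hmon.map _)]
    refine dvd_trans ?_ (h m fun i => (hm i).1)
    exact Polynomial.map_dvd _ hH'H
  have h2 := congrArg (fun p => p.coeff k) h1
  simpa [Polynomial.coeff_map] using h2

/-- `z` is a rational function with values `F q s` at the points of the lines -/
def RpG (z : KG P N) (F : (Fin P ⊕ Fin N → ℕ) → ℝ → ℂ) : Prop :=
  ∃ A D : MvPolynomial (Ix P N) ℂ, IsUnit (tauG V D).leadingCoeff ∧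
    (∀ (q : Fin P ⊕ Fin N → ℕ) (s : ℝ), 0 < s → eval (ptQ V q (s : ℂ)) D ≠ 0) ∧
    z * algebraMap _ (KG P N) D = algebraMap _ (KG P N) A ∧
    ∀ (q : Fin P ⊕ Fin N → ℕ) (s : ℝ), 0 < s →
      F q s * eval (ptQ V q (s : ℂ)) D = eval (ptQ V q (s : ℂ)) A

variable {V}

lemma RpG.const (c : ℤ) : RpG V (c : KG P N) (fun _ _ => (c : ℂ)) :=
  ⟨C (c : ℂ), 1, by simp, fun m s _ => by simp, by simp, fun m s _ => by simp⟩

lemma RpG.add {z z' : KG P N} {F F' : (Fin P ⊕ Fin N → ℕ) → ℝ → ℂ} (h : RpG V z F)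
    (h' : RpG V z' F') : RpG V (z + z') (fun m s => F m s + F' m s) := by
  obtain ⟨A, D, h0, h1, h2, h3⟩ := h
  obtain ⟨A', D', h0', h1', h2', h3'⟩ := h'
  refine ⟨A * D' + A' * D, D * D', ?_, fun m s hs => ?_, ?_, fun m s hs => ?_⟩
  · rw [map_mul, Polynomial.leadingCoeff_mul]; exact h0.mul h0'
  · rw [map_mul]; exact mul_ne_zero (h1 m s hs) (h1' m s hs)
  · rw [map_mul, map_add, map_mul, map_mul, ← h2, ← h2']; ring
  · rw [map_mul, map_add, map_mul, map_mul, ← h3 m s hs, ← h3' m s hs]; ring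

lemma RpG.mul {z z' : KG P N} {F F' : (Fin P ⊕ Fin N → ℕ) → ℝ → ℂ} (h : RpG V z F)
    (h' : RpG V z' F') : RpG V (z * z') (fun m s => F m s * F' m s) := by
  obtain ⟨A, D, h0, h1, h2, h3⟩ := h
  obtain ⟨A', D', h0', h1', h2', h3'⟩ := h'
  refine ⟨A * A', D * D', ?_, fun m s hs => ?_, ?_, fun m s hs => ?_⟩
  · rw [map_mul, Polynomial.leadingCoeff_mul]; exact h0.mul h0'
  · rw [map_mul]; exact mul_ne_zero (h1 m s hs) (h1' m s hs)
  · rw [map_mul, map_mul, ← h2, ← h2']; ring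
  · rw [map_mul, map_mul, ← h3 m s hs, ← h3' m s hs]; ring

lemma RpG.sum {ι : Type*} (t : Finset ι) (z : ι → KG P N) (F : ι → (Fin P ⊕ Fin N → ℕ) → ℝ → ℂ)
    (h : ∀ i ∈ t, RpG V (z i) (F i)) : RpG V (∑ i ∈ t, z i) (fun m s => ∑ i ∈ t, F i m s) := by
  classical
  induction t using Finset.induction_on with
  | empty => simpa using RpG.const (V := V) (P := P) (N := N) 0
  | insert a t ha ih =>
    simp only [Finset.sum_insert ha]
    exact (h a (by simp)).add (ih fun i hi => h i (by simp [hi]))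

lemma RpG.prod {ι : Type*} (t : Finset ι) (z : ι → KG P N) (F : ι → (Fin P ⊕ Fin N → ℕ) → ℝ → ℂ)
    (h : ∀ i ∈ t, RpG V (z i) (F i)) : RpG V (∏ i ∈ t, z i) (fun m s => ∏ i ∈ t, F i m s) := by
  classical
  induction t using Finset.induction_on with
  | empty => simpa using RpG.const (V := V) (P := P) (N := N) 1
  | insert a t ha ih =>
    simp only [Finset.prod_insert ha]
    exact (h a (by simp)).mul (ih fun i hi => h i (by simp [hi]))

lemma RpG.inv (L : MvPolynomial (Ix P N) ℂ) (hL : IsUnit (tauG V L).leadingCoeff)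
    (hne : ∀ (q : Fin P ⊕ Fin N → ℕ) (s : ℝ), 0 < s → eval (ptQ V q (s : ℂ)) L ≠ 0) :
    RpG V ((algebraMap _ (KG P N) L)⁻¹) (fun q s => (eval (ptQ V q (s : ℂ)) L)⁻¹) := by
  have hL0 : L ≠ 0 := by
    rintro rfl
    exact hne 0 1 one_pos (by simp)
  refine ⟨1, L, hL, hne, ?_, fun m s hs => ?_⟩
  · rw [map_one, inv_mul_cancel₀]
    rw [Ne, FaithfulSMul.algebraMap_eq_zero_iff]; exact hL0
  · rw [inv_mul_cancel₀ (hne m s hs)]; simp

/-- A rational function whose values times those of `b` are polynomials on the lines. -/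
lemma RpG.final {z : KG P N} {F : (Fin P ⊕ Fin N → ℕ) → ℝ → ℂ} (h : RpG V z F)
    (b : MvPolynomial (Ix P N) ℂ) (m0 : ℕ)
    (hb : ∀ q : Fin P ⊕ Fin N → ℕ, (∀ i, m0 ≤ q i) → ∃ Q : Polynomial ℂ, ∀ s : ℝ, 1 ≤ s →
      (evQ V q b).eval (s : ℂ) * F q s = Q.eval (s : ℂ)) :
    ∃ Z : MvPolynomial (Ix P N) ℂ, algebraMap _ (KG P N) b * z = algebraMap _ (KG P N) Z := by
  obtain ⟨A, D, h0, h1, h2, h3⟩ := h
  have hdvd : tauG V D ∣ tauG V (b * A) := by
    refine dvd_of_evalG _ _ h0 m0 fun m hm => ?_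
    rw [map_tauG, map_tauG]
    obtain ⟨Q, hQ⟩ := hb m hm
    refine ⟨Q, ?_⟩
    refine Polynomial.eq_of_infinite_eval_eq _ _ ?_
    refine ((Set.Ici_infinite (1:ℝ)).image Complex.ofReal_injective.injOn).mono ?_
    rintro _ ⟨s, hs, rfl⟩
    have hs' : 1 ≤ s := hs
    have hs0 : 0 < s := one_pos.trans_le hs'
    show Polynomial.eval (s:ℂ) (evQ V m (b * A)) = Polynomial.eval (s:ℂ) (evQ V m D * Q)
    rw [Polynomial.eval_mul, ← hQ s hs', map_mul, Polynomial.eval_mul, eval_evQ V m s A,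
      eval_evQ V m s D, ← h3 m s hs0]
    ring
  obtain ⟨Z, hZ⟩ := hdvd
  refine ⟨tauG' V Z, ?_⟩
  have h4 : b * A = D * tauG' V Z := by
    have := congrArg (tauG' V) hZ
    rwa [tauG'_tauG, map_mul, tauG'_tauG] at this
  have hD0 : D ≠ 0 := by
    rintro rfl
    exact h1 0 1 one_pos (by simp)
  have hA : algebraMap _ (KG P N) D ≠ 0 := by
    rw [Ne, FaithfulSMul.algebraMap_eq_zero_iff]; exact hD0
  refine mul_right_cancel₀ hA ?_
  rw [mul_assoc, h2, ← map_mul, ← map_mul, h4, mul_comm D]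

lemma lc_linG {ι : Type} (c : ℂ) (hc : c ≠ 0) (q : MvPolynomial ι ℂ) :
    IsUnit (Polynomial.C (C c : MvPolynomial ι ℂ) * Polynomial.X +
      Polynomial.C q).leadingCoeff := by
  have h : (C c : MvPolynomial ι ℂ) ≠ 0 := by simpa using hc
  rw [Polynomial.leadingCoeff_linear h]
  exact (isUnit_iff_ne_zero.2 hc).map C

lemma tau_linG (g : Fin r → Fin (P+1)) (v : Fin r → Fin N → ℕ) (ρ : Fin N → ℕ) :
    ∃ q : MvPolynomial (Fin P ⊕ Fin N) ℂ, tauG V (linG g v ρ) =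
      Polynomial.C (C ((ordG g v 0 ρ + ∑ i, ρ i : ℕ) : ℂ)) * Polynomial.X + Polynomial.C q := by
  refine ⟨∑ k : Fin P, C (ordG g v k.succ ρ : ℂ) * (-X (Sum.inl k)) +
    ∑ i, C (ρ i : ℂ) * ((X (Sum.inr i) + C (V i : ℂ) * ∑ k, X (Sum.inl k)) + 1), ?_⟩
  unfold linG
  rw [Fin.sum_univ_succ, map_add, map_add, map_mul, tauG_C, tauG_X0, map_sum, map_sum]
  have h1 : ∀ i : Fin N, tauG V (C (ρ i : ℂ) * (X (Sum.inr i) + 1) : MvPolynomial (Ix P N) ℂ) =
      Polynomial.C (C (ρ i : ℂ)) * Polynomial.X + Polynomial.C (C (ρ i : ℂ) *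
        ((X (Sum.inr i) + C (V i : ℂ) * ∑ k, X (Sum.inl k)) + 1)) := by
    intro i
    rw [map_mul, tauG_C, map_add, tauG_Xr, map_one]
    generalize (X (Sum.inr i) + C (V i : ℂ) * ∑ k, X (Sum.inl k) :
      MvPolynomial (Fin P ⊕ Fin N) ℂ) = A
    rw [Polynomial.C_mul, Polynomial.C_add, Polynomial.C_1]
    ring
  have h2 : ∀ k : Fin P, tauG V (C (ordG g v k.succ ρ : ℂ) * X (Sum.inl k.succ) :
      MvPolynomial (Ix P N) ℂ) = Polynomial.C (C (ordG g v k.succ ρ : ℂ) * (-X (Sum.inl k))) := by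
    intro k
    rw [map_mul, tauG_C, tauG_Xs, Polynomial.C_mul]
  rw [Finset.sum_congr rfl fun i _ => h1 i, Finset.sum_add_distrib, ← Finset.sum_mul,
    Finset.sum_congr rfl fun k _ => h2 k, ← map_sum, ← map_sum, ← map_sum, ← map_sum]
  push_cast
  rw [map_add, map_add, map_add]
  ring

end tau

end Pool.Agent.W423.MG
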