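import Pool.Agent.W423.MG.Pol
import Pool.Agent.W349.SG.C3

set_option autoImplicit false

/-! The value of the limit. -/

namespace Pool.Agent.W423.MG

open MvPolynomial Pool.Agent.H628R4.TZ Pool.Agent.H628R4.TP Pool.Agent.W425.SM
open MeasureTheory Set Filter Topology
open Pool.Agent.W423.MV
open Pool.Agent.W655.SM (cone_li pos_meas)
open Pool.Agent.W349.SG (cone_liQ)

variable {r N P : ℕ}

/-- The order of `g_k` along `ρ`. -/
noncomputable def ordG (g : Fin r → Fin (P+1)) (v : Fin r → Fin N → ℕ) (k : Fin (P+1))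
    (ρ : Fin N → ℕ) : ℕ := ⨅ j : {j // g j = k}, ∑ l, ρ l * v j l

/-- The exponents of the terms of minimal order along all rays of `σ`. -/
noncomputable def minSetG (g : Fin r → Fin (P+1)) (v : Fin r → Fin N → ℕ)
    (σ : Finset (Fin N → ℕ)) : Finset (Fin r) :=
  open Classical in
  Finset.univ.filter fun j => ∀ ρ ∈ σ, ∑ l, ρ l * v j l = ordG g v (g j) ρ

/-- On each cone, each of the `g_k` has a term of minimal order along all rays. -/
def PrincipalG (g : Fin r → Fin (P+1)) (v : Fin r → Fin N → ℕ) (R : SmoothFan N) : Prop :=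
  ∀ σ ∈ R.cones, ∀ k, ∃ j, g j = k ∧ ∀ ρ ∈ σ, ∀ j', g j' = k → ∑ l, ρ l * v j l ≤ ∑ l, ρ l * v j' l

lemma ordG_le (g : Fin r → Fin (P+1)) (v : Fin r → Fin N → ℕ) (ρ : Fin N → ℕ) (j : Fin r) :
    ordG g v (g j) ρ ≤ ∑ l, ρ l * v j l :=
  ciInf_le (f := fun j' : {j' // g j' = g j} => ∑ l, ρ l * v j' l)
    (Set.finite_range _).bddBelow ⟨j, rfl⟩

lemma ordG_le' (g : Fin r → Fin (P+1)) (v : Fin r → Fin N → ℕ) (ρ : Fin N → ℕ) (j : Fin r)
    (k : Fin (P+1)) (h : g j = k) : ordG g v k ρ ≤ ∑ l, ρ l * v j l := by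
  rw [← h]; exact ordG_le g v ρ j

lemma ordG_eq (g : Fin r → Fin (P+1)) (v : Fin r → Fin N → ℕ) (k : Fin (P+1)) (ρ : Fin N → ℕ)
    (j : Fin r) (hj : g j = k) (h : ∀ j', g j' = k → ∑ l, ρ l * v j l ≤ ∑ l, ρ l * v j' l) :
    ordG g v k ρ = ∑ l, ρ l * v j l := by
  refine le_antisymm (ordG_le' g v ρ j k hj) ?_
  have : Nonempty {j // g j = k} := ⟨⟨j, hj⟩⟩
  exact le_ciInf fun j' => h j' j'.2

lemma mem_minSetG (g : Fin r → Fin (P+1)) (v : Fin r → Fin N → ℕ) (σ : Finset (Fin N → ℕ))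
    (j : Fin r) : j ∈ minSetG g v σ ↔ ∀ ρ ∈ σ, ∑ l, ρ l * v j l = ordG g v (g j) ρ := by
  classical
  unfold minSetG
  simp

/-- `ρ̂` -/
noncomputable def rhoG (g : Fin r → Fin (P+1)) (e : Fin r → Fin N → ℕ) (ρ : Fin N → ℕ) :
    Fin (P+N+1) → ℤ :=
  Fin.cons (ordG g e 0 ρ : ℤ) (Fin.append
    (fun k : Fin P => ((∑ i, VV e i * ρ i : ℕ) : ℤ) - (ordG g e k.succ ρ : ℤ))
    (fun i => (ρ i : ℤ)))

/-- real version -/
noncomputable def rhoR (g : Fin r → Fin (P+1)) (e : Fin r → Fin N → ℕ) (ρ : Fin N → ℕ) :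
    Fin (P+N+1) → ℝ := fun l => (rhoG g e ρ l : ℝ)

lemma rhoG_zero (g : Fin r → Fin (P+1)) (e : Fin r → Fin N → ℕ) (ρ : Fin N → ℕ) :
    rhoG g e ρ 0 = (ordG g e 0 ρ : ℤ) := rfl

lemma rhoG_tc (g : Fin r → Fin (P+1)) (e : Fin r → Fin N → ℕ) (ρ : Fin N → ℕ) (k : Fin P) :
    rhoG g e ρ (tc k) = ((∑ i, VV e i * ρ i : ℕ) : ℤ) - (ordG g e k.succ ρ : ℤ) := by
  unfold rhoG tc
  rw [Fin.cons_succ, Fin.append_left]

lemma rhoG_wc (g : Fin r → Fin (P+1)) (e : Fin r → Fin N → ℕ) (ρ : Fin N → ℕ) (i : Fin N) :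
    rhoG g e ρ (wco i) = (ρ i : ℤ) := by
  unfold rhoG wco
  rw [Fin.cons_succ, Fin.append_right]

lemma Tk_rho (g : Fin r → Fin (P+1)) (e : Fin r → Fin N → ℕ) (ρ : Fin N → ℕ) (k : Fin (P+1)) :
    Tk e (rhoR g e ρ) k = (ordG g e k ρ : ℝ) := by
  rcases Fin.eq_zero_or_eq_succ k with h | ⟨k', h⟩
  · subst h
    show rhoR g e ρ 0 = _
    unfold rhoR
    rw [rhoG_zero]
    simp
  · subst h
    unfold Tk rhoR
    rw [Fin.cons_succ]
    simp only [rhoG_wc, rhoG_tc]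
    push_cast
    ring

lemma we_rho (g : Fin r → Fin (P+1)) (e : Fin r → Fin N → ℕ) (ρ : Fin N → ℕ) (j : Fin r) :
    we e (rhoR (P := P) g e ρ) j = ((∑ l, ρ l * e j l : ℕ) : ℝ) := by
  unfold we rhoR
  simp only [rhoG_wc]
  push_cast
  exact Finset.sum_congr rfl fun i _ => mul_comm _ _

lemma yA_rho (g : Fin r → Fin (P+1)) (e : Fin r → Fin N → ℕ) (ρ : Fin N → ℕ) (j : Fin r) :
    yA (AG g e) (rhoR g e ρ) j = ((∑ l, ρ l * e j l : ℕ) : ℝ) - (ordG g e (g j) ρ : ℝ) := by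
  rw [yA_G, we_rho, Tk_rho]

open Classical in
/-- the indices in the span of `J` -/
noncomputable def clA {n : ℕ} (A : Fin r → Fin (n+1) → ℤ) (J : Finset (Fin r)) : Finset (Fin r) :=
  Finset.univ.filter fun l => ∃ c, CombA A J l c

lemma mem_clA {n : ℕ} (A : Fin r → Fin (n+1) → ℤ) (J : Finset (Fin r)) (l : Fin r) :
    l ∈ clA A J ↔ ∃ c, CombA A J l c := by
  classical
  unfold clA
  simp

lemma sub_clA {n : ℕ} (A : Fin r → Fin (n+1) → ℤ) (J : Finset (Fin r)) : J ⊆ clA A J :=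
  fun _ hl => (mem_clA A J _).2 ⟨_, combA_self A hl⟩

lemma mem_minA (g : Fin r → Fin (P+1)) (e : Fin r → Fin N → ℕ) (σ : Finset (Fin N → ℕ))
    (j : Fin r) : j ∈ minSetG g e σ ↔ ∀ ρ ∈ σ, yA (AG g e) (rhoR g e ρ) j = 0 := by
  rw [mem_minSetG]
  refine forall₂_congr fun ρ _ => ?_
  rw [yA_rho, sub_eq_zero]
  exact_mod_cast Iff.rfl

lemma cl_sub (g : Fin r → Fin (P+1)) (e : Fin r → Fin N → ℕ) (J : Finset (Fin r))
    (σ : Finset (Fin N → ℕ)) (hJ : J ⊆ minSetG g e σ) : clA (AG g e) J ⊆ minSetG g e σ := by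
  intro l hl
  obtain ⟨c, hc⟩ := (mem_clA _ _ _).1 hl
  rw [mem_minA]
  intro ρ hρ
  exact combA_zero _ hc _ fun j hj => (mem_minA g e σ j).1 (hJ hj) ρ hρ

lemma min_sub_cl (g : Fin r → Fin (P+1)) (e : Fin r → Fin N → ℕ) (R : SmoothFan N)
    (J : Finset (Fin r)) (hI : IndA (AG g e) J)
    (σ : Finset (Fin N → ℕ)) (hσ : σ ∈ R.cones) (hJ : J ⊆ minSetG g e σ)
    (hcard : σ.card + J.card = P + N + 1) : minSetG g e σ ⊆ clA (AG g e) J := by
  classical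
  intro l hl
  rw [mem_clA]
  set qh : σ → Fin (P+N+1) → ℚ := fun ρ i => (rhoG g e ρ i : ℚ) with hqh
  set U : Submodule ℚ (Fin (P+N+1) → ℚ) := Submodule.span ℚ (Set.range qh) with hU
  have hqli : LinearIndependent ℚ qh := by
    refine LinearIndependent.of_comp (LinearMap.funLeft ℚ ℚ (wco : Fin N → Fin (P+N+1))) ?_
    have h1 : (LinearMap.funLeft ℚ ℚ (wco : Fin N → Fin (P+N+1))) ∘ qh =
        (fun ρ : σ => (fun l => ((ρ : Fin N → ℕ) l : ℚ) : Fin N → ℚ)) := by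
      funext ρ l
      show ((rhoG g e ρ (wco l) : ℤ) : ℚ) = _
      rw [rhoG_wc]
      simp
    rw [h1]
    exact cone_liQ R σ hσ
  have hUr : Module.finrank ℚ U = σ.card := by
    rw [hU, finrank_span_eq_card hqli, Fintype.card_coe]
  have hWr : Module.finrank ℚ U.dualAnnihilator = J.card := by
    have h := Subspace.finrank_add_finrank_dualAnnihilator_eq U
    rw [hUr, Module.finrank_fin_fun] at h
    omega
  have hmem : ∀ j ∈ minSetG g e σ, yQ (AG g e) j ∈ U.dualAnnihilator := by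
    intro j hj
    rw [Submodule.mem_dualAnnihilator]
    intro w hw
    have hle : U ≤ LinearMap.ker (yQ (AG g e) j) := by
      rw [hU, Submodule.span_le]
      rintro _ ⟨ρ, rfl⟩
      show yQ (AG g e) j (qh ρ) = 0
      have h1 := (mem_minA g e σ j).1 hj ρ ρ.2
      have h2 : ((yQ (AG g e) j (qh ρ) : ℚ) : ℝ) = 0 := by
        rw [yQ_apply, hqh]
        unfold yA rhoR at h1
        push_cast
        exact h1
      exact_mod_cast h2
    exact hle hw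
  have hli : LinearIndependent ℚ (fun j : J => yQ (AG g e) (j : Fin r)) := by
    rw [Fintype.linearIndependent_iff]
    intro c hc
    have h1 := (Fintype.linearIndependent_iff.1 hI) c
    refine h1 ?_
    funext i
    have h := congrArg (fun F : Module.Dual ℚ (Fin (P+N+1) → ℚ) => F (Pi.single i 1)) hc
    simp only [LinearMap.sum_apply, LinearMap.smul_apply, yQ_apply, LinearMap.zero_apply,
      smul_eq_mul] at h
    simp only [Finset.sum_apply, Pi.smul_apply, smul_eq_mul, Pi.zero_apply]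
    rw [← h]
    refine Finset.sum_congr rfl fun j _ => ?_
    congr 1
    rw [Finset.sum_eq_single i]
    · simp
    · intro b _ hb
      rw [Pi.single_eq_of_ne hb, mul_zero]
    · intro h'; exact absurd (Finset.mem_univ _) h'
  let b : J → U.dualAnnihilator := fun j => ⟨yQ (AG g e) (j : Fin r), hmem j (hJ j.2)⟩
  have hbli : LinearIndependent ℚ b := by
    refine LinearIndependent.of_comp (Submodule.subtype _) ?_
    exact hli
  have hspan := hbli.span_eq_top_of_card_eq_finrank' (by rw [hWr, Fintype.card_coe])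
  have hlm : (⟨yQ (AG g e) l, hmem l hl⟩ : U.dualAnnihilator) ∈
      Submodule.span ℚ (Set.range b) := by
    rw [hspan]; trivial
  obtain ⟨c, hc⟩ := (Submodule.mem_span_range_iff_exists_fun ℚ).1 hlm
  have hc' : ∑ j, c j • yQ (AG g e) (j : Fin r) = yQ (AG g e) l := by
    have := congrArg (Submodule.subtype _) hc
    rw [map_sum] at this
    exact this
  refine ⟨fun j => if h : j ∈ J then c ⟨j, h⟩ else 0, fun j hj => by simp [hj], fun i => ?_⟩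
  have h3 := LinearMap.congr_fun hc' (fun k => if k = i then 1 else 0)
  simp only [LinearMap.sum_apply, LinearMap.smul_apply, yQ_apply, mul_ite, mul_one, mul_zero,
    Finset.sum_ite_eq', Finset.mem_univ, if_true, smul_eq_mul] at h3
  rw [← h3]
  exact Pool.Agent.W327.SG.sum_ext c (fun j => (AG g e j i : ℚ))

/-! ### The region of a cone -/

section reg

variable (g : Fin r → Fin (P+1)) (e : Fin r → Fin N → ℕ) {J : Finset (Fin r)} {d : ℕ}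
  (Θ : ((J → ℝ) × (Fin d → ℝ)) ≃ₗ[ℝ] (Fin (P+N+1) → ℝ))

/-- the region of the cone `σ` -/
noncomputable def rgG (σ : Finset (Fin N → ℕ)) : Set (Fin d → ℝ) :=
  regA Θ (fun ρ : σ => rhoG g e (ρ : Fin N → ℕ))

lemma rg_iff (σ : Finset (Fin N → ℕ)) (a : Fin d → ℝ) :
    a ∈ rgG g e Θ σ ↔ ∃ c : σ → ℝ, (∀ ρ, 0 < c ρ) ∧
      Θ (0, a) = ∑ ρ : σ, c ρ • rhoR g e (ρ : Fin N → ℕ) := Iff.rfl

/-- coordinates of the ray -/
noncomputable def arG (ρ : Fin N → ℕ) : Fin d → ℝ := (Θ.symm (rhoR g e ρ)).2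

lemma arG_spec {κ : ℝ} (hA : AdaptA (AG g e) J d Θ κ)
    (σ : Finset (Fin N → ℕ)) (hJ : J ⊆ minSetG g e σ) (ρ : Fin N → ℕ) (hρ : ρ ∈ σ) :
    Θ (0, arG g e Θ ρ) = rhoR g e ρ := by
  have h1 : Θ.symm (rhoR g e ρ) = (0, arG g e Θ ρ) := by
    refine Prod.ext ?_ rfl
    funext j
    have h2 := hA.y (Θ.symm (rhoR g e ρ)).1 (Θ.symm (rhoR g e ρ)).2 j
    have h3 : Θ ((Θ.symm (rhoR g e ρ)).1, (Θ.symm (rhoR g e ρ)).2) = rhoR g e ρ :=
      Θ.apply_symm_apply _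
    rw [h3, (mem_minA g e σ j).1 (hJ j.2) ρ hρ] at h2
    rw [← h2]
    simp
  rw [← h1, Θ.apply_symm_apply]

/-- the linear map of a cone -/
noncomputable def cLG (σ : Finset (Fin N → ℕ)) : (σ → ℝ) →ₗ[ℝ] (Fin d → ℝ) :=
  Fintype.linearCombination ℝ (fun ρ : σ => arG g e Θ ρ)

lemma cLG_apply (σ : Finset (Fin N → ℕ)) (c : σ → ℝ) :
    cLG g e Θ σ c = ∑ ρ : σ, c ρ • arG g e Θ ρ := by
  rw [cLG, Fintype.linearCombination_apply]

lemma cLG_Θ {κ : ℝ} (hA : AdaptA (AG g e) J d Θ κ)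
    (σ : Finset (Fin N → ℕ)) (hJ : J ⊆ minSetG g e σ) (c : σ → ℝ) :
    Θ (0, cLG g e Θ σ c) = ∑ ρ : σ, c ρ • rhoR g e ρ := by
  have h1 : ((0 : J → ℝ), cLG g e Θ σ c) =
      ∑ ρ : σ, c ρ • ((0 : J → ℝ), arG g e Θ (ρ : Fin N → ℕ)) := by
    refine Prod.ext ?_ ?_
    · simp [Prod.fst_sum]
    · rw [Prod.snd_sum, cLG_apply]
      exact Finset.sum_congr rfl fun ρ _ => rfl
  rw [h1, map_sum]
  refine Finset.sum_congr rfl fun ρ _ => ?_
  rw [map_smul, arG_spec g e Θ hA σ hJ ρ ρ.2]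

lemma arG_li (R : SmoothFan N) {κ : ℝ} (hA : AdaptA (AG g e) J d Θ κ)
    (σ : Finset (Fin N → ℕ)) (hσ : σ ∈ R.cones) (hJ : J ⊆ minSetG g e σ) :
    LinearIndependent ℝ (fun ρ : σ => arG g e Θ (ρ : Fin N → ℕ)) := by
  let T : (Fin d → ℝ) →ₗ[ℝ] (Fin N → ℝ) :=
    (LinearMap.funLeft ℝ ℝ (wco : Fin N → Fin (P+N+1))) ∘ₗ Θ.toLinearMap ∘ₗ
      (LinearMap.inr ℝ (J → ℝ) (Fin d → ℝ))
  refine LinearIndependent.of_comp T ?_
  have h1 : (T ∘ fun ρ : σ => arG g e Θ (ρ : Fin N → ℕ)) =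
      (fun ρ : σ => (fun l => ((ρ : Fin N → ℕ) l : ℝ) : Fin N → ℝ)) := by
    funext ρ l
    show Θ (0, arG g e Θ (ρ : Fin N → ℕ)) (wco l) = _
    rw [arG_spec g e Θ hA σ hJ ρ ρ.2]
    unfold rhoR
    rw [rhoG_wc]
    simp
  rw [h1]
  exact cone_li R σ hσ

lemma cardG_le (R : SmoothFan N) {κ : ℝ} (hA : AdaptA (AG g e) J d Θ κ)
    (σ : Finset (Fin N → ℕ)) (hσ : σ ∈ R.cones) (hJ : J ⊆ minSetG g e σ) : σ.card ≤ d := by
  have h := (arG_li g e Θ R hA σ hσ hJ).fintype_card_le_finrank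
  simpa using h

lemma cLG_inj (R : SmoothFan N) {κ : ℝ} (hA : AdaptA (AG g e) J d Θ κ)
    (σ : Finset (Fin N → ℕ)) (hσ : σ ∈ R.cones) (hJ : J ⊆ minSetG g e σ) :
    Function.Injective (cLG g e Θ σ) :=
  (arG_li g e Θ R hA σ hσ hJ).fintypeLinearCombination_injective

lemma rg_eq {κ : ℝ} (hA : AdaptA (AG g e) J d Θ κ)
    (σ : Finset (Fin N → ℕ)) (hJ : J ⊆ minSetG g e σ) :
    rgG g e Θ σ = cLG g e Θ σ '' {c | ∀ ρ, 0 < c ρ} := by
  classical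
  ext a
  constructor
  · rintro ⟨c, hc, h⟩
    refine ⟨c, hc, ?_⟩
    have h1 : Θ (0, a) = Θ (0, cLG g e Θ σ c) := by
      rw [cLG_Θ g e Θ hA σ hJ, h]
      rfl
    have h2 := Θ.injective h1
    exact (congrArg Prod.snd h2).symm
  · rintro ⟨c, hc, rfl⟩
    exact ⟨c, hc, cLG_Θ g e Θ hA σ hJ c⟩

lemma rg_meas (R : SmoothFan N) {κ : ℝ} (hA : AdaptA (AG g e) J d Θ κ)
    (σ : Finset (Fin N → ℕ)) (hσ : σ ∈ R.cones) (hJ : J ⊆ minSetG g e σ) :
    MeasurableSet (rgG g e Θ σ) := by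
  rw [rg_eq g e Θ hA σ hJ]
  exact (pos_meas σ).image_of_continuousOn_injOn
    (LinearMap.continuous_of_finiteDimensional _).continuousOn (cLG_inj g e Θ R hA σ hσ hJ).injOn

lemma rg_null {κ : ℝ} (hA : AdaptA (AG g e) J d Θ κ)
    (σ : Finset (Fin N → ℕ)) (hJ : J ⊆ minSetG g e σ) (hd : σ.card < d) :
    volume (rgG g e Θ σ) = 0 := by
  rw [rg_eq g e Θ hA σ hJ]
  have h1 : LinearMap.range (cLG g e Θ σ) ≠ ⊤ := by
    intro h
    have h2 := LinearMap.finrank_range_le (cLG g e Θ σ)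
    rw [h, finrank_top] at h2
    simp at h2
    omega
  refine measure_mono_null ?_ (Measure.addHaar_submodule volume _ h1)
  rintro _ ⟨c, _, rfl⟩
  exact ⟨c, rfl⟩

lemma rg_coord (σ : Finset (Fin N → ℕ))
    (a : Fin d → ℝ) (ha : a ∈ rgG g e Θ σ) : ∃ c : (Fin N → ℕ) → ℝ, (∀ ρ ∈ σ, 0 < c ρ) ∧
      Θ (0, a) = ∑ ρ ∈ σ, c ρ • rhoR g e ρ := by
  classical
  obtain ⟨c, hc, h⟩ := (rg_iff g e Θ σ a).1 ha
  refine ⟨fun ρ => if h : ρ ∈ σ then c ⟨ρ, h⟩ else 0, fun ρ hρ => ?_, ?_⟩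
  · simp only [hρ, dif_pos]
    exact hc _
  · rw [h, ← Finset.sum_coe_sort σ]
    refine Finset.sum_congr rfl fun ρ _ => ?_
    simp

lemma rg_wc (σ : Finset (Fin N → ℕ)) (c : (Fin N → ℕ) → ℝ) (x : Fin (P+N+1) → ℝ)
    (h : x = ∑ ρ ∈ σ, c ρ • rhoR g e ρ) (l : Fin N) :
    x (wco l) = ∑ ρ ∈ σ, c ρ * (ρ l : ℝ) := by
  rw [h, Finset.sum_apply]
  refine Finset.sum_congr rfl fun ρ _ => ?_
  rw [Pi.smul_apply, smul_eq_mul]
  unfold rhoR
  rw [rhoG_wc]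
  simp

lemma rg_disj (R : SmoothFan N) (σ σ' : Finset (Fin N → ℕ))
    (hσ : σ ∈ R.cones) (hσ' : σ' ∈ R.cones) (a : Fin d → ℝ) (ha : a ∈ rgG g e Θ σ)
    (ha' : a ∈ rgG g e Θ σ') : σ = σ' := by
  obtain ⟨c, hc, h⟩ := rg_coord g e Θ σ a ha
  obtain ⟨c', hc', h'⟩ := rg_coord g e Θ σ' a ha'
  obtain ⟨τ, _, hτ⟩ := R.partition (fun l => Θ (0, a) (wco l)) (fun l => by
    show 0 ≤ Θ (0, a) (wco l)
    rw [rg_wc g e σ c _ h]
    exact Finset.sum_nonneg fun ρ hρ => mul_nonneg (hc ρ hρ).le (Nat.cast_nonneg _))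
  rw [hτ σ ⟨hσ, c, hc, rg_wc g e σ c _ h⟩, hτ σ' ⟨hσ', c', hc', rg_wc g e σ' c' _ h'⟩]

end reg

end Pool.Agent.W423.MG
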