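import Pool.Agent.W423.MG.Val

set_option autoImplicit false

/-! The value of the limit, continued. -/

namespace Pool.Agent.W423.MG

open MvPolynomial Pool.Agent.H628R4.TZ Pool.Agent.H628R4.TP Pool.Agent.W425.SM
open MeasureTheory Set Filter Topology
open Pool.Agent.W423.MV
open Pool.Agent.W655.SM (cone_li pos_meas)

variable {r N P : ℕ}

lemma exists_ordG (g : Fin r → Fin (P+1)) (e : Fin r → Fin N → ℕ) (hg : ∀ k, ∃ j, g j = k)
    (k : Fin (P+1)) (ρ : Fin N → ℕ) : ∃ j, g j = k ∧ ordG g e k ρ = ∑ l, ρ l * e j l := by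
  obtain ⟨j, hj⟩ := hg k
  have : Nonempty {j // g j = k} := ⟨⟨j, hj⟩⟩
  obtain ⟨i, hi⟩ := exists_eq_ciInf_of_finite (f := fun j' : {j' // g j' = k} => ∑ l, ρ l * e j' l)
  exact ⟨i, i.2, hi.symm⟩

lemma ordG_le_VV (g : Fin r → Fin (P+1)) (e : Fin r → Fin N → ℕ) (hg : ∀ k, ∃ j, g j = k)
    (k : Fin (P+1)) (ρ : Fin N → ℕ) : ordG g e k ρ ≤ ∑ i, VV e i * ρ i := by
  obtain ⟨j, -, hj⟩ := exists_ordG g e hg k ρ
  rw [hj]
  refine Finset.sum_le_sum fun i _ => ?_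
  rw [mul_comm]
  refine Nat.mul_le_mul_right _ ?_
  unfold VV
  exact Finset.single_le_sum (f := fun j => e j i) (fun _ _ => Nat.zero_le _) (Finset.mem_univ j)

lemma ordG_zero_ge (g : Fin r → Fin (P+1)) (e : Fin r → Fin N → ℕ) (hg : ∀ k, ∃ j, g j = k)
    (he : ∀ j, g j = 0 → ∀ i, 0 < e j i) (ρ : Fin N → ℕ) : ∑ i, ρ i ≤ ordG g e 0 ρ := by
  obtain ⟨j, hj0, hj⟩ := exists_ordG g e hg 0 ρ
  rw [hj]
  exact Finset.sum_le_sum fun i _ => Nat.le_mul_of_pos_right _ (he j hj0 i)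

lemma rho_pos (R : SmoothFan N) (σ : Finset (Fin N → ℕ)) (hσ : σ ∈ R.cones) (ρ : Fin N → ℕ)
    (hρ : ρ ∈ σ) : 0 < ∑ l, ρ l := ray_sum_pos R σ hσ ρ hρ

lemma Tk_sum (g : Fin r → Fin (P+1)) (e : Fin r → Fin N → ℕ) (σ : Finset (Fin N → ℕ))
    (c : (Fin N → ℕ) → ℝ) (x : Fin (P+N+1) → ℝ)
    (h : x = ∑ ρ ∈ σ, c ρ • rhoR g e ρ) (k : Fin (P+1)) :
    Tk e x k = ∑ ρ ∈ σ, c ρ * (ordG g e k ρ : ℝ) := by
  rcases Fin.eq_zero_or_eq_succ k with h1 | ⟨k', h1⟩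
  · subst h1
    show x 0 = _
    rw [h, Finset.sum_apply]
    refine Finset.sum_congr rfl fun ρ _ => ?_
    rw [Pi.smul_apply, smul_eq_mul]
    unfold rhoR
    rw [rhoG_zero]
    simp
  · subst h1
    have h2 : x (tc k') = ∑ ρ ∈ σ, c ρ * (((∑ i, VV e i * ρ i : ℕ) : ℝ) -
        (ordG g e k'.succ ρ : ℝ)) := by
      rw [h, Finset.sum_apply]
      refine Finset.sum_congr rfl fun ρ _ => ?_
      rw [Pi.smul_apply, smul_eq_mul]
      unfold rhoR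
      rw [rhoG_tc]
      push_cast
      ring
    have h3 : ∑ i, (VV e i : ℝ) * x (wco i) = ∑ ρ ∈ σ, c ρ * ((∑ i, VV e i * ρ i : ℕ) : ℝ) := by
      simp only [rg_wc g e σ c x h, Finset.mul_sum]
      rw [Finset.sum_comm]
      refine Finset.sum_congr rfl fun ρ _ => ?_
      push_cast
      rw [Finset.mul_sum]
      exact Finset.sum_congr rfl fun i _ => by ring
    unfold Tk
    rw [Fin.cons_succ, h2, h3, ← Finset.sum_sub_distrib]
    exact Finset.sum_congr rfl fun ρ _ => by ring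

lemma we_sum (e : Fin r → Fin N → ℕ) (σ : Finset (Fin N → ℕ))
    (c : (Fin N → ℕ) → ℝ) (x : Fin (P+N+1) → ℝ)
    (h : ∀ l : Fin N, x (wco l) = ∑ ρ ∈ σ, c ρ * (ρ l : ℝ)) (j : Fin r) :
    we e x j = ∑ ρ ∈ σ, c ρ * ((∑ l, ρ l * e j l : ℕ) : ℝ) := by
  unfold we
  simp only [h, Finset.mul_sum]
  rw [Finset.sum_comm]
  refine Finset.sum_congr rfl fun ρ _ => ?_
  push_cast
  rw [Finset.mul_sum]
  exact Finset.sum_congr rfl fun i _ => by ring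

/-- the cones which contribute -/
def PCG (g : Fin r → Fin (P+1)) (e : Fin r → Fin N → ℕ) (J : Finset (Fin r))
    (σ : Finset (Fin N → ℕ)) : Prop :=
  minSetG g e σ = clA (AG g e) J ∧ σ.Nonempty

lemma PCG.sub {g : Fin r → Fin (P+1)} {e : Fin r → Fin N → ℕ} {J : Finset (Fin r)}
    {σ : Finset (Fin N → ℕ)} (h : PCG g e J σ) : J ⊆ minSetG g e σ := by
  rw [h.1]; exact sub_clA _ J

section cond

variable (g : Fin r → Fin (P+1)) (e : Fin r → Fin N → ℕ) {J : Finset (Fin r)} {d : ℕ}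
  (Θ : ((J → ℝ) × (Fin d → ℝ)) ≃ₗ[ℝ] (Fin (P+N+1) → ℝ))

lemma cond_of_rg (R : SmoothFan N) (hg : ∀ k, ∃ j, g j = k)
    (he : ∀ j, g j = 0 → ∀ i, 0 < e j i) (K : ℝ) (hK : 0 < K)
    (σ : Finset (Fin N → ℕ)) (hσ : σ ∈ R.cones) (hP : PCG g e J σ) (a : Fin d → ℝ)
    (ha : a ∈ rgG g e Θ σ) : CondA (AG g e) (bG e K) J (Θ (0, a)) := by
  obtain ⟨c, hc, h⟩ := rg_coord g e Θ σ a ha
  obtain ⟨hJ, ρ0, hρ0⟩ := hP
  set x := Θ (0, a) with hx
  have hVV : (0:ℝ) ≤ ∑ i, (VV e i : ℝ) := Finset.sum_nonneg fun i _ => Nat.cast_nonneg _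
  refine ⟨fun i => ?_, fun l hl => ?_⟩
  · refine coords_cases (p := fun i => 0 < x i ∨ x i = 0 ∧ 0 < bG e K i) ?_ ?_ ?_ i
    · left
      have h0 : x 0 = ∑ ρ ∈ σ, c ρ * (ordG g e 0 ρ : ℝ) := Tk_sum g e σ c x h 0
      rw [h0]
      refine Finset.sum_pos (fun ρ hρ => mul_pos (hc ρ hρ) ?_) ⟨ρ0, hρ0⟩
      have h1 := rho_pos R σ hσ ρ hρ
      have h2 := ordG_zero_ge g e hg he ρ
      exact_mod_cast lt_of_lt_of_le h1 h2
    · intro k
      have h2 : x (tc k) = ∑ ρ ∈ σ, c ρ * (((∑ i, VV e i * ρ i : ℕ) : ℝ) -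
          (ordG g e k.succ ρ : ℝ)) := by
        rw [h, Finset.sum_apply]
        refine Finset.sum_congr rfl fun ρ _ => ?_
        rw [Pi.smul_apply, smul_eq_mul]
        unfold rhoR
        rw [rhoG_tc]
        push_cast
        ring
      have h3 : 0 ≤ x (tc k) := by
        rw [h2]
        refine Finset.sum_nonneg fun ρ hρ => mul_nonneg (hc ρ hρ).le (sub_nonneg.2 ?_)
        exact_mod_cast ordG_le_VV g e hg k.succ ρ
      rcases h3.lt_or_eq with h4 | h4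
      · exact Or.inl h4
      · exact Or.inr ⟨h4.symm, by rw [bG_tc]; linarith⟩
    · intro i
      have h3 : 0 ≤ x (wco i) := by
        rw [rg_wc g e σ c x h]
        exact Finset.sum_nonneg fun ρ hρ => mul_nonneg (hc ρ hρ).le (Nat.cast_nonneg _)
      rcases h3.lt_or_eq with h4 | h4
      · exact Or.inl h4
      · exact Or.inr ⟨h4.symm, by rw [bG_wc]; exact one_pos⟩
  · have hl' : l ∉ minSetG g e σ := by
      rw [hJ, mem_clA]
      rintro ⟨c, hc⟩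
      exact hl c hc
    rw [yA_G, we_sum e σ c x (rg_wc g e σ c x h), Tk_sum g e σ c x h, ← Finset.sum_sub_distrib]
    rw [mem_minSetG] at hl'
    push Not at hl'
    obtain ⟨ρ1, hρ1, h3⟩ := hl'
    refine Finset.sum_pos' (fun ρ hρ => ?_) ⟨ρ1, hρ1, ?_⟩
    · rw [← mul_sub]
      refine mul_nonneg (hc ρ hρ).le (sub_nonneg.2 ?_)
      exact_mod_cast ordG_le g e ρ l
    · rw [← mul_sub]
      refine mul_pos (hc ρ1 hρ1) (sub_pos.2 ?_)
      exact_mod_cast lt_of_le_of_ne (ordG_le g e ρ1 l) (Ne.symm h3)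

lemma rg_of_cond (R : SmoothFan N) (hPr : PrincipalG g e R)
    (hJ : ∀ k, ∃ j ∈ J, g j = k) {κ : ℝ} (hA : AdaptA (AG g e) J d Θ κ) (K : ℝ) (hK : 0 < K)
    (a : Fin d → ℝ) (h : CondA (AG g e) (bG e K) J (Θ (0, a))) :
    ∃ σ ∈ R.cones, PCG g e J σ ∧ a ∈ rgG g e Θ σ := by
  obtain ⟨h1, h2⟩ := h
  set x := Θ (0, a) with hx
  have hx0 : 0 < x 0 := by
    rcases h1 0 with h | h
    · exact h
    · have := h.2
      rw [bG_zero] at this
      linarith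
  have hnn : ∀ l : Fin N, 0 ≤ x (wco l) := by
    intro l
    rcases h1 (wco l) with h | h
    · exact h.le
    · exact h.1.symm.le
  obtain ⟨σ, ⟨hσ, y, hy, hw⟩, -⟩ := R.partition (fun l => x (wco l)) hnn
  have hw' : ∀ l : Fin N, x (wco l) = ∑ ρ ∈ σ, y ρ * (ρ l : ℝ) := hw
  choose j1 hj1 using hPr σ hσ
  have hord : ∀ k, ∀ ρ ∈ σ, ordG g e k ρ = ∑ l, ρ l * e (j1 k) l := fun k ρ hρ =>
    ordG_eq g e k ρ (j1 k) (hj1 k).1 ((hj1 k).2 ρ hρ)
  have hf := we_sum (P := P) e σ y x hw'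
  have hge : ∀ j, ∑ ρ ∈ σ, y ρ * (ordG g e (g j) ρ : ℝ) ≤ we e x j := by
    intro j
    rw [hf j]
    refine Finset.sum_le_sum fun ρ hρ => mul_le_mul_of_nonneg_left ?_ (hy ρ hρ).le
    exact_mod_cast ordG_le g e ρ j
  have heq : ∀ j, j ∈ minSetG g e σ ↔ we e x j = ∑ ρ ∈ σ, y ρ * (ordG g e (g j) ρ : ℝ) := by
    intro j
    rw [hf j, mem_minSetG]
    constructor
    · intro h
      exact Finset.sum_congr rfl fun ρ hρ => by rw [h ρ hρ]
    · intro h ρ hρ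
      have h3 : ∑ ρ ∈ σ, y ρ * (((∑ l, ρ l * e j l : ℕ) : ℝ) - (ordG g e (g j) ρ : ℝ)) = 0 := by
        simp only [mul_sub, Finset.sum_sub_distrib]
        rw [h, sub_self]
      have h4 := (Finset.sum_eq_zero_iff_of_nonneg (fun ρ hρ => mul_nonneg (hy ρ hρ).le
        (sub_nonneg.2 (by exact_mod_cast ordG_le g e ρ j)))).1 h3 ρ hρ
      rcases mul_eq_zero.1 h4 with h5 | h5
      · exact absurd h5 (hy ρ hρ).ne'
      · have h6 := sub_eq_zero.1 h5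
        exact_mod_cast h6
  have hyJ : ∀ j ∈ J, yA (AG g e) x j = 0 := by
    intro j hj
    have h3 := hA.y 0 a ⟨j, hj⟩
    simpa using h3
  have hcl0 : ∀ j ∈ clA (AG g e) J, we e x j = Tk e x (g j) := by
    intro j hj
    obtain ⟨c, hc⟩ := (mem_clA _ _ _).1 hj
    have h3 := combA_zero _ hc x hyJ
    rw [yA_G] at h3
    linarith
  have hcl1 : ∀ j ∉ clA (AG g e) J, Tk e x (g j) < we e x j := by
    intro j hj
    have h3 := h2 j (fun c hc => hj ((mem_clA _ _ _).2 ⟨c, hc⟩))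
    rw [yA_G] at h3
    linarith
  have hm1 : ∀ k, j1 k ∈ minSetG g e σ := by
    intro k
    rw [mem_minSetG, (hj1 k).1]
    exact fun ρ hρ => (hord k ρ hρ).symm
  have hT : ∀ k, Tk e x k = ∑ ρ ∈ σ, y ρ * (ordG g e k ρ : ℝ) := by
    intro k
    refine le_antisymm ?_ ?_
    · have h3 := (heq (j1 k)).1 (hm1 k)
      rw [(hj1 k).1] at h3
      rw [← h3]
      by_cases hj : j1 k ∈ clA (AG g e) J
      · have h4 := hcl0 _ hj
        rw [(hj1 k).1] at h4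
        exact h4.symm.le
      · have h4 := hcl1 _ hj
        rw [(hj1 k).1] at h4
        exact h4.le
    · obtain ⟨j2, hj2, hj2k⟩ := hJ k
      have h3 := hcl0 j2 (sub_clA _ J hj2)
      rw [hj2k] at h3
      rw [← h3]
      have h4 := hge j2
      rw [hj2k] at h4
      exact h4
  refine ⟨σ, hσ, ⟨?_, ?_⟩, (rg_iff g e Θ σ a).2 ⟨fun ρ => y ρ, fun ρ => hy ρ ρ.2, ?_⟩⟩
  · ext j
    rw [heq j, ← hT]
    constructor
    · intro h
      by_contra hj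
      exact absurd h (hcl1 j hj).ne'
    · exact hcl0 j
  · rw [Finset.nonempty_iff_ne_empty]
    rintro rfl
    have h3 : x 0 = ∑ ρ ∈ (∅ : Finset (Fin N → ℕ)), y ρ * (ordG g e 0 ρ : ℝ) := hT 0
    rw [Finset.sum_empty] at h3
    exact absurd h3 hx0.ne'
  · rw [Finset.sum_coe_sort σ (fun ρ => y ρ • rhoR g e ρ)]
    funext i
    rw [Finset.sum_apply]
    refine coords_cases (p := fun i => x i = ∑ ρ ∈ σ, (y ρ • rhoR g e ρ) i) ?_ ?_ ?_ i
    · have h3 : x 0 = ∑ ρ ∈ σ, y ρ * (ordG g e 0 ρ : ℝ) := hT 0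
      rw [h3]
      refine Finset.sum_congr rfl fun ρ _ => ?_
      rw [Pi.smul_apply, smul_eq_mul]
      unfold rhoR
      rw [rhoG_zero]
      simp
    · intro k
      have h3 := hT k.succ
      unfold Tk at h3
      rw [Fin.cons_succ] at h3
      have h4 : ∑ i, (VV e i : ℝ) * x (wco i) =
          ∑ ρ ∈ σ, y ρ * ((∑ i, VV e i * ρ i : ℕ) : ℝ) := by
        simp only [hw', Finset.mul_sum]
        rw [Finset.sum_comm]
        refine Finset.sum_congr rfl fun ρ _ => ?_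
        push_cast
        rw [Finset.mul_sum]
        exact Finset.sum_congr rfl fun i _ => by ring
      have h5 : x (tc k) = ∑ ρ ∈ σ, y ρ * ((∑ i, VV e i * ρ i : ℕ) : ℝ) -
          ∑ ρ ∈ σ, y ρ * (ordG g e k.succ ρ : ℝ) := by
        rw [← h4, ← h3]
        ring
      rw [h5, ← Finset.sum_sub_distrib]
      refine Finset.sum_congr rfl fun ρ _ => ?_
      rw [Pi.smul_apply, smul_eq_mul]
      unfold rhoR
      rw [rhoG_tc]
      push_cast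
      ring
    · intro l
      rw [hw' l]
      refine Finset.sum_congr rfl fun ρ _ => ?_
      rw [Pi.smul_apply, smul_eq_mul]
      unfold rhoR
      rw [rhoG_wc]
      simp

open Classical in
lemma limG_eqG (R : SmoothFan N) (hPr : PrincipalG g e R) (hg : ∀ k, ∃ j, g j = k)
    (he : ∀ j, g j = 0 → ∀ i, 0 < e j i)
    (hJ : ∀ k, ∃ j ∈ J, g j = k) {κ : ℝ} (hA : AdaptA (AG g e) J d Θ κ) (K : ℝ) (hK : 0 < K)
    (θ : Fin r → ℝ) (hAdm : AdmA (AG g e) θ J) (lam : Fin (P+N+1) → ℝ)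
    (a : Fin d → ℝ) : limGA (AG g e) θ lam (bG e K) J (Θ (0, a)) =
      ∑ σ ∈ R.cones.filter (PCG g e J),
        (rgG g e Θ σ).indicator (fun a => wt lam (Θ (0, a))) a := by
  have h0 : limGA (AG g e) θ lam (bG e K) J (Θ (0, a)) =
      if CondA (AG g e) (bG e K) J (Θ (0, a)) then wt lam (Θ (0, a)) else 0 := by
    unfold limGA
    exact if_congr ⟨fun h => h.1, fun h => ⟨h, hAdm⟩⟩ rfl rfl
  rw [h0]
  split_ifs with h
  · obtain ⟨σ, hσ, hP, ha⟩ := rg_of_cond g e Θ R hPr hJ hA K hK a h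
    rw [Finset.sum_eq_single_of_mem σ (Finset.mem_filter.2 ⟨hσ, hP⟩), Set.indicator_of_mem ha]
    intro σ' hσ' hne
    rw [Set.indicator_of_notMem]
    intro ha'
    exact hne (rg_disj g e Θ R σ' σ (Finset.mem_filter.1 hσ').1 hσ a ha' ha)
  · symm
    refine Finset.sum_eq_zero fun σ hσ => ?_
    rw [Set.indicator_of_notMem]
    intro ha
    exact h (cond_of_rg g e Θ R hg he K hK σ (Finset.mem_filter.1 hσ).1
      (Finset.mem_filter.1 hσ).2 a ha)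

end cond

/-! ### Integrals over cones -/

/-- the exponent of the ray `ρ` without the part of `s` -/
noncomputable def kwG (g : Fin r → Fin (P+1)) (e : Fin r → Fin N → ℕ) (nn : Fin P → ℕ)
    (μ : Fin N → ℝ) (ρ : Fin N → ℕ) : ℝ :=
  ∑ k : Fin P, (nn k : ℝ) * (((∑ i, VV e i * ρ i : ℕ) : ℝ) - (ordG g e k.succ ρ : ℝ)) +
    ∑ i, μ i * (ρ i : ℝ)

/-- exponents -/
noncomputable def kpG (g : Fin r → Fin (P+1)) (e : Fin r → Fin N → ℕ) (nn : Fin P → ℕ)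
    (μ : Fin N → ℝ) (s : ℝ) (ρ : Fin N → ℕ) : ℝ :=
  (ordG g e 0 ρ : ℝ) * s + kwG g e nn μ ρ

lemma kwG_pos (g : Fin r → Fin (P+1)) (e : Fin r → Fin N → ℕ) (hg : ∀ k, ∃ j, g j = k)
    (R : SmoothFan N) (nn : Fin P → ℕ) (μ : Fin N → ℝ) (hμ : ∀ i, 0 < μ i)
    (σ : Finset (Fin N → ℕ)) (hσ : σ ∈ R.cones) (ρ : Fin N → ℕ) (hρ : ρ ∈ σ) :
    0 < kwG g e nn μ ρ := by
  have h1 : 0 < ∑ l, ρ l := rho_pos R σ hσ ρ hρ
  obtain ⟨l, _, hl⟩ := Finset.exists_ne_zero_of_sum_ne_zero h1.ne'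
  unfold kwG
  refine add_pos_of_nonneg_of_pos ?_ ?_
  · refine Finset.sum_nonneg fun k _ => mul_nonneg (Nat.cast_nonneg _) (sub_nonneg.2 ?_)
    exact_mod_cast ordG_le_VV g e hg k.succ ρ
  · exact Finset.sum_pos' (fun l _ => mul_nonneg (hμ l).le (Nat.cast_nonneg _))
      ⟨l, Finset.mem_univ l, mul_pos (hμ l) (by exact_mod_cast Nat.pos_of_ne_zero hl)⟩

lemma kpG_pos (g : Fin r → Fin (P+1)) (e : Fin r → Fin N → ℕ) (hg : ∀ k, ∃ j, g j = k)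
    (R : SmoothFan N) (nn : Fin P → ℕ) (μ : Fin N → ℝ) (hμ : ∀ i, 0 < μ i) (s : ℝ) (hs : 0 < s)
    (σ : Finset (Fin N → ℕ)) (hσ : σ ∈ R.cones) (ρ : Fin N → ℕ) (hρ : ρ ∈ σ) :
    0 < kpG g e nn μ s ρ := by
  have h2 := kwG_pos g e hg R nn μ hμ σ hσ ρ hρ
  have h3 : (0:ℝ) ≤ ordG g e 0 ρ := Nat.cast_nonneg _
  unfold kpG
  positivity

lemma lam_rho (g : Fin r → Fin (P+1)) (e : Fin r → Fin N → ℕ) (nn : Fin P → ℕ)
    (μ : Fin N → ℝ) (s : ℝ) (ρ : Fin N → ℕ) :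
    ∑ i, lamG s nn μ i * rhoR g e ρ i = kpG g e nn μ s ρ := by
  rw [sum_coords]
  simp only [lamG_zero, lamG_tc, lamG_wc]
  unfold rhoR kpG kwG
  simp only [rhoG_zero, rhoG_tc, rhoG_wc]
  push_cast
  ring

lemma wt_coneG (g : Fin r → Fin (P+1)) (e : Fin r → Fin N → ℕ) (nn : Fin P → ℕ)
    (μ : Fin N → ℝ) (s : ℝ) (σ : Finset (Fin N → ℕ)) (c : σ → ℝ) :
    wt (lamG s nn μ) (∑ ρ : σ, c ρ • rhoR g e (ρ : Fin N → ℕ)) =
      ∏ ρ : σ, ((Real.exp (-kpG g e nn μ s ρ * c ρ) : ℝ) : ℂ) := by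
  unfold wt
  rw [← Complex.ofReal_prod, ← Complex.ofReal_prod, ← Real.exp_sum, ← Real.exp_sum]
  congr 2
  simp only [Finset.sum_apply, Pi.smul_apply, smul_eq_mul, Finset.mul_sum]
  rw [Finset.sum_comm]
  refine Finset.sum_congr rfl fun ρ _ => ?_
  rw [← lam_rho, neg_mul, Finset.sum_mul, ← Finset.sum_neg_distrib]
  exact Finset.sum_congr rfl fun i _ => by ring

lemma cone_valG (g : Fin r → Fin (P+1)) (e : Fin r → Fin N → ℕ) (hg : ∀ k, ∃ j, g j = k)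
    (R : SmoothFan N) (nn : Fin P → ℕ) (μ : Fin N → ℝ) (hμ : ∀ i, 0 < μ i) (s : ℝ) (hs : 0 < s)
    (σ : Finset (Fin N → ℕ)) (hσ : σ ∈ R.cones) :
    ∫ c in {c : σ → ℝ | ∀ ρ, 0 < c ρ},
        wt (lamG s nn μ) (∑ ρ : σ, c ρ • rhoR g e (ρ : Fin N → ℕ)) =
      ∏ ρ ∈ σ, ((kpG g e nn μ s ρ : ℝ) : ℂ)⁻¹ := by
  simp only [wt_coneG]
  have h : {c : σ → ℝ | ∀ ρ, 0 < c ρ} = Set.univ.pi fun _ => Ioi 0 := by
    ext c; simp
  rw [h, volume_pi, Measure.restrict_pi_pi,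
    integral_fintype_prod_eq_prod (fun (ρ : σ) t => ((Real.exp (-kpG g e nn μ s ρ * t) : ℝ) : ℂ))]
  rw [← Finset.prod_coe_sort σ]
  refine Finset.prod_congr rfl fun ρ _ => ?_
  rw [exp_int _ (kpG_pos g e hg R nn μ hμ s hs σ hσ ρ ρ.2)]

/-- the limit for `J` -/
noncomputable def limJG (g : Fin r → Fin (P+1)) (e : Fin r → Fin N → ℕ) (θ : Fin r → ℝ)
    (R : SmoothFan N) (nn : Fin P → ℕ) (μ : Fin N → ℝ) (J : Finset (Fin r)) (s : ℝ) : ℂ :=
  open Classical in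
  ∑ σ ∈ R.cones, if J ⊆ minSetG g e σ ∧ σ.card + J.card = P + N + 1 ∧ σ.Nonempty ∧
      AdmA (AG g e) θ J then
    (idxA (AG g e) J : ℂ)⁻¹ * ∏ ρ ∈ σ, ((kpG g e nn μ s ρ : ℝ) : ℂ)⁻¹ else 0

theorem valG (g : Fin r → Fin (P+1)) (e : Fin r → Fin N → ℕ) (θ : Fin r → ℝ)
    (R : SmoothFan N) (hPr : PrincipalG g e R) (hg : ∀ k, ∃ j, g j = k)
    (he : ∀ j, g j = 0 → ∀ i, 0 < e j i) (nn : Fin P → ℕ)
    (μ : Fin N → ℝ) (hμ : ∀ i, 0 < μ i) (K : ℝ) (hK : 0 < K) (s : ℝ) (hs : 0 < s)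
    (J : Finset (Fin r)) (hI : IndA (AG g e) J) (hJ : ∀ k, ∃ j ∈ J, g j = k) (d : ℕ)
    (Θ : ((J → ℝ) × (Fin d → ℝ)) ≃ₗ[ℝ] (Fin (P+N+1) → ℝ)) (κ : ℝ)
    (hA : AdaptA (AG g e) J d Θ κ)
    (hF : ∀ σ ∈ R.cones, J ⊆ minSetG g e σ → σ.card + J.card = P + N + 1 →
      ∀ F : (Fin (P+N+1) → ℝ) → ℂ,
        (κ : ℂ) * (idxA (AG g e) J : ℂ) * ∫ a in rgG g e Θ σ, F (Θ (0, a)) =
          ∫ c in {c : σ → ℝ | ∀ ρ, 0 < c ρ}, F (∑ ρ : σ, c ρ • rhoR g e (ρ : Fin N → ℕ)))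
    (hidx : idxA (AG g e) J ≠ 0) :
    (κ : ℂ) * ∫ a, limGA (AG g e) θ (lamG s nn μ) (bG e K) J (Θ (0, a)) =
      limJG g e θ R nn μ J s := by
  classical
  by_cases hAdm : AdmA (AG g e) θ J
  swap
  · have h1 : ∀ a, limGA (AG g e) θ (lamG s nn μ) (bG e K) J (Θ (0, a)) = 0 := by
      intro a
      unfold limGA
      rw [if_neg]
      rintro ⟨-, h⟩
      exact hAdm h
    simp only [h1, integral_zero, mul_zero]
    symm
    unfold limJG
    refine Finset.sum_eq_zero fun σ _ => ?_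
    rw [if_neg]
    rintro ⟨-, -, -, h⟩
    exact hAdm h
  have hdim := hA.dim
  have hidx' : (idxA (AG g e) J : ℂ) ≠ 0 := by exact_mod_cast hidx
  have hval : ∀ σ ∈ R.cones, J ⊆ minSetG g e σ → σ.card + J.card = P + N + 1 →
      (κ : ℂ) * ∫ a in rgG g e Θ σ, wt (lamG s nn μ) (Θ (0, a)) =
      (idxA (AG g e) J : ℂ)⁻¹ * ∏ ρ ∈ σ, ((kpG g e nn μ s ρ : ℝ) : ℂ)⁻¹ := by
    intro σ hσ h1 h2
    have h3 := hF σ hσ h1 h2 (wt (lamG s nn μ))
    rw [cone_valG g e hg R nn μ hμ s hs σ hσ] at h3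
    rw [← h3]
    field_simp
  have hint : ∀ σ ∈ R.cones.filter (PCG g e J), Integrable
      ((rgG g e Θ σ).indicator (fun a => wt (lamG s nn μ) (Θ (0, a)))) := by
    intro σ hσ
    obtain ⟨hσ, hP⟩ := Finset.mem_filter.1 hσ
    rw [integrable_indicator_iff (rg_meas g e Θ R hA σ hσ hP.sub)]
    have hle := cardG_le g e Θ R hA σ hσ hP.sub
    rcases hle.lt_or_eq with hlt | heq
    · rw [IntegrableOn, Measure.restrict_eq_zero.2 (rg_null g e Θ hA σ hP.sub hlt)]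
      exact integrable_zero_measure
    · by_contra hcon
      have h3 := hval σ hσ hP.sub (by omega)
      rw [integral_undef hcon, mul_zero] at h3
      have h4 : (idxA (AG g e) J : ℂ)⁻¹ * ∏ ρ ∈ σ, ((kpG g e nn μ s ρ : ℝ) : ℂ)⁻¹ ≠ 0 := by
        refine mul_ne_zero (inv_ne_zero hidx') (Finset.prod_ne_zero_iff.2 fun ρ hρ => inv_ne_zero ?_)
        exact_mod_cast (kpG_pos g e hg R nn μ hμ s hs σ hσ ρ hρ).ne'
      exact h4 h3.symm
  simp only [limG_eqG g e Θ R hPr hg he hJ hA K hK θ hAdm]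
  rw [integral_finsetSum _ hint, Finset.mul_sum, Finset.sum_filter]
  unfold limJG
  refine Finset.sum_congr rfl fun σ hσ => ?_
  by_cases hP : PCG g e J σ
  · rw [if_pos hP, integral_indicator (rg_meas g e Θ R hA σ hσ hP.sub)]
    have hle := cardG_le g e Θ R hA σ hσ hP.sub
    rcases hle.lt_or_eq with hlt | heq
    · rw [if_neg (fun h => by have := h.2.1; omega),
        Measure.restrict_eq_zero.2 (rg_null g e Θ hA σ hP.sub hlt), integral_zero_measure, mul_zero]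
    · rw [if_pos ⟨hP.sub, by omega, hP.2, hAdm⟩]
      exact hval σ hσ hP.sub (by omega)
  · rw [if_neg hP, if_neg]
    rintro ⟨h1, h2, h3, -⟩
    exact hP ⟨Finset.Subset.antisymm (min_sub_cl g e R J hI σ hσ h1 h2) (cl_sub g e J σ h1), h3⟩

end Pool.Agent.W423.MG
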