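import Pool.Agent.W423.MG.Val2
import Pool.Agent.W54.SG.C4

set_option autoImplicit false

/-! The frame of a cone and the index. -/

namespace Pool.Agent.W423.MG

open MvPolynomial Pool.Agent.H628R4.TZ Pool.Agent.H628R4.TP Pool.Agent.W425.SM
open MeasureTheory Set Filter Topology
open Pool.Agent.W423.MV
open Pool.Agent.W54.SG (exists_mul')

variable {r N P : ℕ}

/-- block triangular matrix -/
def BG (B : Matrix (Fin N) (Fin N) ℤ) (q0 : Fin N → ℤ) (q : Fin N → Fin P → ℤ) :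
    Matrix (Fin (P+N+1)) (Fin (P+N+1)) ℤ :=
  Fin.cons (α := fun _ => Fin (P+N+1) → ℤ) (Pi.single 0 1)
    (Fin.append (fun k : Fin P => (Pi.single (tc k) 1 : Fin (P+N+1) → ℤ))
      (fun i => Fin.cons (q0 i) (Fin.append (q i) (B i))))

lemma BG_zero (B : Matrix (Fin N) (Fin N) ℤ) (q0 : Fin N → ℤ) (q : Fin N → Fin P → ℤ) :
    BG B q0 q 0 = Pi.single 0 1 := rfl

lemma BG_tc (B : Matrix (Fin N) (Fin N) ℤ) (q0 : Fin N → ℤ) (q : Fin N → Fin P → ℤ)
    (k : Fin P) : BG B q0 q (tc k) = Pi.single (tc k) 1 := by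
  unfold BG
  conv_lhs => rw [tc]
  rw [Fin.cons_succ, Fin.append_left]

lemma BG_wc (B : Matrix (Fin N) (Fin N) ℤ) (q0 : Fin N → ℤ) (q : Fin N → Fin P → ℤ)
    (i : Fin N) : BG B q0 q (wco i) = Fin.cons (q0 i) (Fin.append (q i) (B i)) := by
  unfold BG wco
  rw [Fin.cons_succ, Fin.append_right]

lemma BG_unit (B : Matrix (Fin N) (Fin N) ℤ) (hB : IsUnit B.det) (q0 : Fin N → ℤ)
    (q : Fin N → Fin P → ℤ) : IsUnit (BG B q0 q).det := by
  rw [← Matrix.isUnit_iff_isUnit_det, ← Matrix.mulVec_surjective_iff_isUnit]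
  intro x
  have hB' : Function.Surjective B.mulVec := by
    rw [Matrix.mulVec_surjective_iff_isUnit, Matrix.isUnit_iff_isUnit_det]
    exact hB
  obtain ⟨w, hw⟩ := hB' (fun i => x (wco i) - (q0 i * x 0 + ∑ k, q i k * x (tc k)))
  set u : Fin (P+N+1) → ℤ := Fin.cons (x 0) (Fin.append (fun k => x (tc k)) w) with hu
  have u0 : u 0 = x 0 := rfl
  have ut : ∀ k, u (tc k) = x (tc k) := by
    intro k
    rw [hu]
    conv_lhs => rw [tc]
    rw [Fin.cons_succ, Fin.append_left]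
  have uw : ∀ i, u (wco i) = w i := by
    intro i
    rw [hu, wco, Fin.cons_succ, Fin.append_right]
  refine ⟨u, funext fun i => ?_⟩
  refine coords_cases (p := fun i => (BG B q0 q).mulVec u i = x i) ?_ ?_ ?_ i
  · simp only [Matrix.mulVec, BG_zero]
    rw [single_one_dotProduct, u0]
  · intro k
    simp only [Matrix.mulVec, BG_tc]
    rw [single_one_dotProduct, ut]
  · intro i
    simp only [Matrix.mulVec, BG_wc, dotProduct]
    rw [sum_coords]
    have h1 : ∀ k : Fin P, (Fin.cons (q0 i) (Fin.append (q i) (B i)) : Fin (P+N+1) → ℤ) (tc k) =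
        q i k := fun k => by rw [tc, Fin.cons_succ, Fin.append_left]
    have h2 : ∀ l : Fin N, (Fin.cons (q0 i) (Fin.append (q i) (B i)) : Fin (P+N+1) → ℤ) (wco l) =
        B i l := fun l => by rw [wco, Fin.cons_succ, Fin.append_right]
    simp only [h1, h2, Fin.cons_zero, u0, ut, uw]
    have h3 := congrFun hw i
    simp only [Matrix.mulVec, dotProduct] at h3
    rw [h3]
    ring

lemma exists_frameG (g : Fin r → Fin (P+1)) (e : Fin r → Fin N → ℕ) (R : SmoothFan N)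
    (J : Finset (Fin r)) (σ : Finset (Fin N → ℕ)) (hσ : σ ∈ R.cones)
    (hcard : σ.card + J.card = P + N + 1) :
    ∃ (Bm : Matrix (Fin (P+N+1)) (Fin (P+N+1)) ℤ) (ε : J ⊕ σ ≃ Fin (P+N+1)), IsUnit Bm.det ∧
      ∀ ρ : σ, Bm (ε (Sum.inr ρ)) = rhoG g e ρ := by
  classical
  obtain ⟨B, hB, hrow⟩ := R.smooth σ hσ
  choose i hi using fun ρ : σ => hrow ρ ρ.2
  have hinj : Function.Injective i := by
    intro ρ ρ' h
    apply Subtype.ext
    funext l
    have h1 := hi ρ l
    have h2 := hi ρ' l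
    rw [h, h2] at h1
    exact_mod_cast h1.symm
  set q0 : Fin N → ℤ := Function.extend i (fun ρ : σ => (ordG g e 0 ρ : ℤ)) 0 with hq0
  set q : Fin N → Fin P → ℤ := Function.extend i
    (fun ρ : σ => fun k : Fin P => ((∑ i, VV e i * (ρ : Fin N → ℕ) i : ℕ) : ℤ) -
      (ordG g e k.succ ρ : ℤ)) 0 with hq
  set f : σ → Fin (P+N+1) := fun ρ => wco (i ρ) with hf
  have hfinj : Function.Injective f := fun a b h => hinj (wco_inj h)
  have hc : Fintype.card J = Fintype.card ((Set.range f)ᶜ : Set (Fin (P+N+1))) := by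
    rw [Fintype.card_compl_set, Fintype.card_fin, Set.card_range_of_injective hfinj,
      Fintype.card_coe, Fintype.card_coe]
    omega
  let eJ : J ≃ ((Set.range f)ᶜ : Set (Fin (P+N+1))) := Fintype.equivOfCardEq hc
  let ε : J ⊕ σ ≃ Fin (P+N+1) := (Equiv.sumComm _ _).trans
    ((Equiv.sumCongr (Equiv.ofInjective f hfinj) eJ).trans (Equiv.Set.sumCompl _))
  refine ⟨BG B q0 q, ε, BG_unit B hB q0 q, fun ρ => ?_⟩
  have h1 : ε (Sum.inr ρ) = wco (i ρ) := rfl
  rw [h1, BG_wc, rhoG]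
  have e1 : q0 (i ρ) = (ordG g e 0 ρ : ℤ) := by rw [hq0, hinj.extend_apply]
  have e2 : q (i ρ) = fun k : Fin P => ((∑ i, VV e i * (ρ : Fin N → ℕ) i : ℕ) : ℤ) -
      (ordG g e k.succ ρ : ℤ) := by rw [hq, hinj.extend_apply]
  have e3 : B (i ρ) = fun l => ((ρ : Fin N → ℕ) l : ℤ) := funext fun l => hi ρ l
  rw [e1, e2, e3]

lemma mulVec_rhoG (g : Fin r → Fin (P+1)) (e : Fin r → Fin N → ℕ) (J : Finset (Fin r))
    (σ : Finset (Fin N → ℕ)) (hJ : J ⊆ minSetG g e σ) (ρ : σ) :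
    (AJ (AG g e) J).mulVec (rhoG g e ρ) = 0 := by
  funext j
  have h1 := (mem_minA g e σ j).1 (hJ j.2) ρ ρ.2
  unfold yA rhoR at h1
  have h2 : (((AJ (AG g e) J).mulVec (rhoG g e ρ) j : ℤ) : ℝ) = 0 := by
    rw [← h1]
    simp only [Matrix.mulVec, dotProduct, AJ]
    push_cast
    rfl
  exact_mod_cast h2

/-! ### The index -/

lemma exists_intA {M : ℕ} (A : Fin r → Fin M → ℤ) (J : Finset (Fin r)) (hA : IndA A J) (j0 : J) :
    ∃ (n : ℕ) (x : Fin M → ℤ), 0 < n ∧ ∀ j : J, ∑ i, A j i * x i = if j = j0 then (n : ℤ) else 0 := by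
  classical
  set MQ : Matrix J (Fin M) ℚ := (AJ A J).map (fun x : ℤ => (x : ℚ)) with hMQ
  have h1 : MQ.rank = Fintype.card J := (rows_indep A J hA).rank_matrix
  have h2 : Function.Surjective MQ.mulVec := by
    have h3 : LinearMap.range MQ.mulVecLin = ⊤ := by
      apply Submodule.eq_top_of_finrank_eq
      rw [Module.finrank_fintype_fun_eq_card, ← h1, Matrix.rank]
    exact LinearMap.range_eq_top.mp h3
  obtain ⟨y, hy⟩ := h2 (Pi.single j0 1)
  obtain ⟨n, z, hn, hz⟩ := exists_mul' y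
  refine ⟨n, z, hn, fun j => ?_⟩
  have h3 := congrFun hy j
  simp only [Matrix.mulVec, dotProduct, hMQ, Matrix.map_apply, AJ] at h3
  have h4 : ((∑ i, A j i * z i : ℤ) : ℚ) = ((if j = j0 then (n : ℤ) else 0 : ℤ) : ℚ) := by
    push_cast
    simp only [hz]
    have h5 : ∑ x, (A (j : Fin r) x : ℚ) * ((n : ℚ) * y x) =
        n * ∑ x, (A (j : Fin r) x : ℚ) * y x := by
      rw [Finset.mul_sum]
      exact Finset.sum_congr rfl fun i _ => by ring
    rw [h5, h3, Pi.single_apply]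
    split_ifs <;> simp
  exact_mod_cast h4

lemma idxA_ne_zero {M : ℕ} (A : Fin r → Fin M → ℤ) (J : Finset (Fin r)) (h : IndA A J) :
    idxA A J ≠ 0 := by
  classical
  rw [idxA, AddSubgroup.index_ne_zero_iff_finite]
  have hfin : Module.Finite ℤ ((J → ℤ) ⧸ (evA A J).range) := by
    have : Module.Finite ℤ ((J → ℤ) ⧸ AddSubgroup.toIntSubmodule (evA A J).range) := inferInstance
    exact this
  have hfg : AddGroup.FG ((J → ℤ) ⧸ (evA A J).range) := Module.Finite.iff_addGroup_fg.mp hfin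
  refine AddCommGroup.finite_of_fg_isAddTorsion _ ?_
  intro x
  obtain ⟨f, rfl⟩ := QuotientAddGroup.mk_surjective x
  have h1 : ∀ j : J, (QuotientAddGroup.mk (Pi.single j (1:ℤ)) : (J → ℤ) ⧸ (evA A J).range) ∈
      AddCommGroup.torsion ((J → ℤ) ⧸ (evA A J).range) := by
    intro j
    obtain ⟨n, x, hn, hx⟩ := exists_intA A J h j
    refine isOfFinAddOrder_iff_nsmul_eq_zero.2 ⟨n, hn, ?_⟩
    rw [← QuotientAddGroup.mk_nsmul, QuotientAddGroup.eq_zero_iff]
    refine ⟨x, ?_⟩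
    funext k
    show ∑ i, A k i * x i = _
    rw [hx, Pi.smul_apply, Pi.single_apply]
    by_cases hkj : k = j
    · rw [if_pos hkj, if_pos hkj]
      simp
    · rw [if_neg hkj, if_neg hkj]
      simp
  have h2 : f = ∑ j, f j • Pi.single j (1:ℤ) := by
    funext k
    simp [Finset.sum_apply, Pi.single_apply]
  show QuotientAddGroup.mk f ∈ AddCommGroup.torsion ((J → ℤ) ⧸ (evA A J).range)
  have h3 : (QuotientAddGroup.mk f : (J → ℤ) ⧸ (evA A J).range) =
      ∑ j, f j • QuotientAddGroup.mk (Pi.single j (1:ℤ)) := by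
    conv_lhs => rw [h2]
    have h4 := map_sum (QuotientAddGroup.mk' (evA A J).range)
      (fun j => f j • Pi.single j (1:ℤ)) Finset.univ
    refine h4.trans (Finset.sum_congr rfl fun j _ => ?_)
    rw [map_zsmul]
    rfl
  rw [h3]
  exact AddSubgroup.sum_mem _ fun j _ => AddSubgroup.zsmul_mem _ (h1 j) _

lemma indA_of_idx {M : ℕ} (A : Fin r → Fin M → ℤ) (J : Finset (Fin r)) (hne : idxA A J ≠ 0) :
    IndA A J := by
  classical
  unfold IndA
  rw [Fintype.linearIndependent_iff]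
  intro c hc
  by_contra hcon
  push Not at hcon
  obtain ⟨j0, hj0⟩ := hcon
  obtain ⟨n, μ, hn, hz⟩ := exists_mul' c
  have hn' : (n : ℚ) ≠ 0 := by exact_mod_cast hn.ne'
  have hμ : ∀ i, ∑ j : J, μ j * A j i = 0 := by
    intro i
    have h1 : ((∑ j : J, μ j * A j i : ℤ) : ℚ) = 0 := by
      push_cast
      simp only [hz]
      have h2 := congrFun hc i
      simp only [Finset.sum_apply, Pi.smul_apply, smul_eq_mul, Pi.zero_apply] at h2
      have h3 : ∑ x : J, (n : ℚ) * c x * (A x i : ℚ) = n * ∑ x : J, c x * (A x i : ℚ) := by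
        rw [Finset.mul_sum]
        exact Finset.sum_congr rfl fun j _ => by ring
      rw [h3, h2, mul_zero]
    exact_mod_cast h1
  obtain ⟨p, hp⟩ : (evA A J).range.index • μ ∈ (evA A J).range :=
    AddSubgroup.nsmul_index_mem _ μ
  have h4 : ∑ j, μ j * (evA A J p) j = 0 := by
    have h5 : ∀ j : J, evA A J p j = ∑ i, A j i * p i := fun j => rfl
    simp only [h5, Finset.mul_sum]
    rw [Finset.sum_comm]
    refine Finset.sum_eq_zero fun i _ => ?_
    calc ∑ j : J, μ j * (A j i * p i) = (∑ j : J, μ j * A j i) * p i := by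
          rw [Finset.sum_mul]
          exact Finset.sum_congr rfl fun j _ => by ring
      _ = 0 := by rw [hμ i, zero_mul]
  rw [hp] at h4
  have h7 : ((evA A J).range.index : ℤ) * ∑ j, μ j * μ j = 0 := by
    rw [← h4, Finset.mul_sum]
    refine Finset.sum_congr rfl fun j _ => ?_
    simp only [Pi.smul_apply, nsmul_eq_mul]
    ring
  rcases mul_eq_zero.1 h7 with h | h
  · exact hne (by exact_mod_cast h)
  · have h8 := (Finset.sum_eq_zero_iff_of_nonneg (fun j _ => mul_self_nonneg (μ j))).1 h j0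
      (Finset.mem_univ j0)
    have h9 : μ j0 = 0 := mul_self_eq_zero.1 h8
    have h10 := hz j0
    rw [h9] at h10
    simp only [Int.cast_zero] at h10
    rcases mul_eq_zero.1 h10.symm with h | h
    · exact hn' h
    · exact hj0 h

/-- the convergence -/
lemma conv_G (g : Fin r → Fin (P+1)) (e : Fin r → Fin N → ℕ) (θ : Fin r → ℝ)
    (hθ : LinearIndependent ℚ θ)
    (R : SmoothFan N) (hPr : PrincipalG g e R) (hg : ∀ k, ∃ j, g j = k)
    (he : ∀ j, g j = 0 → ∀ i, 0 < e j i) (nn : Fin P → ℕ)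
    (μ : Fin N → ℝ) (hμ : ∀ i, 0 < μ i) (K : ℝ) (hK : 0 < K) (s : ℝ) (hs : 0 < s)
    (hlam : ∀ i, 0 < lamG s nn μ i)
    (J : Finset (Fin r)) (hI : IndA (AG g e) J) (hJ : ∀ k, ∃ j ∈ J, g j = k) :
    Tendsto (fun m : ℕ => ∫ x, integA (AG g e) θ (lamG s nn μ) (bG e K) J m x
        ∂(Measure.pi (ms (∅ : Finset (Fin (P+N+1)))))) atTop (𝓝 (limJG g e θ R nn μ J s)) := by
  obtain ⟨d, Θ, κ, hA, hF⟩ := c1 (AG g e) J hI
  rw [← valG g e θ R hPr hg he nn μ hμ K hK s hs J hI hJ d Θ κ hA ?_ (idxA_ne_zero _ J hI)]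
  · refine limA (AG g e) θ hθ (lamG s nn μ) hlam (bG e K) ?_ J d Θ κ hA
    intro i
    have hVV : (0:ℝ) ≤ ∑ i, (VV e i : ℝ) := Finset.sum_nonneg fun i _ => Nat.cast_nonneg _
    refine coords_cases (p := fun i => bG (P := P) e K i ≠ 0) ?_ ?_ ?_ i
    · rw [bG_zero]; linarith
    · intro k
      rw [bG_tc]; positivity
    · intro i
      rw [bG_wc]; exact one_ne_zero
  · intro σ hσ hJσ hcard F
    obtain ⟨Bm, ε, hB, hε⟩ := exists_frameG g e R J σ hσ hcard
    exact hF σ (fun ρ => rhoG g e ρ) Bm ε hB hε (fun ρ => mulVec_rhoG g e J σ hJσ ρ) F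

end Pool.Agent.W423.MG
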